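import Pool.Agent.Lib.MP_ad5d82_an.h24.BDefs

set_option autoImplicit false

namespace Pool.MP_ad5d82_an.Wl

open Real Set MeasureTheory
open scoped ContDiff

/-! ### B1 finite mode projection and the Wirtinger gap -/

/-- cosine coefficient -/
noncomputable def ca (u : ℝ → ℝ) (k : ℕ) : ℝ := (1 / π) * ∫ θ in (-π)..π, u θ * cos (k * θ)
/-- sine coefficient -/
noncomputable def sa (u : ℝ → ℝ) (k : ℕ) : ℝ := (1 / π) * ∫ θ in (-π)..π, u θ * sin (k * θ)
/-- mean value -/
noncomputable def ma (u : ℝ → ℝ) : ℝ := (1 / (2 * π)) * ∫ θ in (-π)..π, u θ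
/-- remainder after removing the modes `≤ K` -/
noncomputable def rem (u : ℝ → ℝ) (K : ℕ) (θ : ℝ) : ℝ :=
  u θ - ma u - ∑ k ∈ Finset.Icc 1 K, (ca u k * cos (k * θ) + sa u k * sin (k * θ))

private theorem b1_cos (m : ℤ) : ∫ θ in (-π)..π, cos (m * θ) = if m = 0 then 2 * π else 0 := by
  split_ifs with h
  · subst h
    simp
    ring
  · rw [intervalIntegral.integral_comp_mul_left (f := fun x => cos x) (by exact_mod_cast h)]
    rw [integral_cos]
    have h1 : sin ((m : ℝ) * π) = 0 := Real.sin_int_mul_pi m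
    have h2 : sin ((m : ℝ) * -π) = 0 := by rw [mul_neg, Real.sin_neg, h1, neg_zero]
    rw [h1, h2]
    simp

private theorem b1_sin (m : ℤ) : ∫ θ in (-π)..π, sin (m * θ) = 0 := by
  by_cases h : m = 0
  · subst h; simp
  · rw [intervalIntegral.integral_comp_mul_left (f := fun x => sin x) (by exact_mod_cast h)]
    rw [integral_sin, mul_neg, Real.cos_neg, sub_self]
    simp

private theorem b1_ii (f : ℝ → ℝ) (hf : Continuous f) :
    IntervalIntegrable f volume (-π) π := hf.intervalIntegrable _ _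

private theorem b1_cc (k l : ℕ) (hk : 1 ≤ k) (hl : 1 ≤ l) :
    ∫ θ in (-π)..π, cos (k * θ) * cos (l * θ) = if k = l then π else 0 := by
  have h : ∀ θ : ℝ, cos (k * θ) * cos (l * θ) =
      (1 / 2) * cos (((k : ℤ) - l : ℤ) * θ) + (1 / 2) * cos (((k : ℤ) + l : ℤ) * θ) := by
    intro θ
    push_cast
    rw [sub_mul, add_mul, cos_sub, cos_add]
    ring
  simp only [h]
  rw [intervalIntegral.integral_add (b1_ii _ (by fun_prop)) (b1_ii _ (by fun_prop)),
    intervalIntegral.integral_const_mul, intervalIntegral.integral_const_mul, b1_cos, b1_cos]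
  have h1 : ¬ ((k : ℤ) + l = 0) := by omega
  rw [if_neg h1]
  by_cases hkl : k = l
  · subst hkl
    simp
  · have h2 : ¬ ((k : ℤ) - l = 0) := by omega
    rw [if_neg h2, if_neg hkl]
    simp

private theorem b1_ss (k l : ℕ) (hk : 1 ≤ k) (hl : 1 ≤ l) :
    ∫ θ in (-π)..π, sin (k * θ) * sin (l * θ) = if k = l then π else 0 := by
  have h : ∀ θ : ℝ, sin (k * θ) * sin (l * θ) =
      (1 / 2) * cos (((k : ℤ) - l : ℤ) * θ) - (1 / 2) * cos (((k : ℤ) + l : ℤ) * θ) := by
    intro θ
    push_cast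
    rw [sub_mul, add_mul, cos_sub, cos_add]
    ring
  simp only [h]
  rw [intervalIntegral.integral_sub (b1_ii _ (by fun_prop)) (b1_ii _ (by fun_prop)),
    intervalIntegral.integral_const_mul, intervalIntegral.integral_const_mul, b1_cos, b1_cos]
  have h1 : ¬ ((k : ℤ) + l = 0) := by omega
  rw [if_neg h1]
  by_cases hkl : k = l
  · subst hkl
    simp
  · have h2 : ¬ ((k : ℤ) - l = 0) := by omega
    rw [if_neg h2, if_neg hkl]
    simp

private theorem b1_sc (k l : ℕ) :
    ∫ θ in (-π)..π, sin (k * θ) * cos (l * θ) = 0 := by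
  have h : ∀ θ : ℝ, sin (k * θ) * cos (l * θ) =
      (1 / 2) * sin (((k : ℤ) - l : ℤ) * θ) + (1 / 2) * sin (((k : ℤ) + l : ℤ) * θ) := by
    intro θ
    push_cast
    rw [sub_mul, add_mul, sin_sub, sin_add]
    ring
  simp only [h]
  rw [intervalIntegral.integral_add (b1_ii _ (by fun_prop)) (b1_ii _ (by fun_prop)),
    intervalIntegral.integral_const_mul, intervalIntegral.integral_const_mul, b1_sin, b1_sin]
  simp

/-- trigonometric polynomial -/
private noncomputable def b1T (K : ℕ) (α : ℝ) (a b : ℕ → ℝ) (θ : ℝ) : ℝ :=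
  α + ∑ k ∈ Finset.Icc 1 K, (a k * cos (k * θ) + b k * sin (k * θ))

private theorem b1T_cont (K : ℕ) (α : ℝ) (a b : ℕ → ℝ) : Continuous (b1T K α a b) := by
  unfold b1T
  fun_prop

private theorem b1T_mul (K : ℕ) (α : ℝ) (a b : ℕ → ℝ) (f : ℝ → ℝ) (hf : Continuous f) :
    ∫ θ in (-π)..π, b1T K α a b θ * f θ = α * (∫ θ in (-π)..π, f θ) +
      ∑ k ∈ Finset.Icc 1 K, (a k * (∫ θ in (-π)..π, f θ * cos (k * θ)) +
        b k * ∫ θ in (-π)..π, f θ * sin (k * θ)) := by
  have h : ∀ θ, b1T K α a b θ * f θ = α * f θ +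
      ∑ k ∈ Finset.Icc 1 K, (a k * (f θ * cos (k * θ)) + b k * (f θ * sin (k * θ))) := by
    intro θ
    unfold b1T
    rw [add_mul, Finset.sum_mul]
    congr 1
    exact Finset.sum_congr rfl fun k _ => by ring
  simp only [h]
  rw [intervalIntegral.integral_add (b1_ii _ (by fun_prop)) (b1_ii _ (by fun_prop)),
    intervalIntegral.integral_const_mul, intervalIntegral.integral_finsetSum
      (fun k _ => b1_ii _ (by fun_prop))]
  congr 1
  refine Finset.sum_congr rfl fun k _ => ?_
  rw [intervalIntegral.integral_add (b1_ii _ (by fun_prop)) (b1_ii _ (by fun_prop)),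
    intervalIntegral.integral_const_mul, intervalIntegral.integral_const_mul]

private theorem b1T_int (K : ℕ) (α : ℝ) (a b : ℕ → ℝ) :
    ∫ θ in (-π)..π, b1T K α a b θ = 2 * π * α := by
  have h := b1T_mul K α a b (fun _ => 1) continuous_const
  simp only [mul_one, one_mul] at h
  rw [h]
  have h1 : ∀ k ∈ Finset.Icc 1 K, (a k * (∫ θ in (-π)..π, cos (k * θ)) +
      b k * ∫ θ in (-π)..π, sin (k * θ)) = 0 := by
    intro k hk
    have hk1 := (Finset.mem_Icc.1 hk).1
    have e1 := b1_cos (k : ℤ)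
    have e2 := b1_sin (k : ℤ)
    have h0 : ¬ ((k : ℤ) = 0) := by omega
    rw [if_neg h0] at e1
    simp only [Int.cast_natCast] at e1 e2
    rw [e1, e2]
    simp
  rw [Finset.sum_eq_zero h1]
  simp
  ring

private theorem b1T_cos (K : ℕ) (α : ℝ) (a b : ℕ → ℝ) (l : ℕ) (hl : l ∈ Finset.Icc 1 K) :
    ∫ θ in (-π)..π, b1T K α a b θ * cos (l * θ) = π * a l := by
  rw [b1T_mul K α a b (fun θ => cos (l * θ)) (by fun_prop)]
  have hl1 := (Finset.mem_Icc.1 hl).1
  have e1 := b1_cos (l : ℤ)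
  have h0 : ¬ ((l : ℤ) = 0) := by omega
  rw [if_neg h0] at e1
  simp only [Int.cast_natCast] at e1
  rw [e1, mul_zero, zero_add]
  have h1 : ∀ k ∈ Finset.Icc 1 K, (a k * (∫ θ in (-π)..π, cos (l * θ) * cos (k * θ)) +
      b k * ∫ θ in (-π)..π, cos (l * θ) * sin (k * θ)) = if k = l then π * a l else 0 := by
    intro k hk
    have hk1 := (Finset.mem_Icc.1 hk).1
    have e2 : ∫ θ in (-π)..π, cos (l * θ) * sin (k * θ) = 0 := by
      rw [← b1_sc k l]
      exact intervalIntegral.integral_congr fun θ _ => mul_comm _ _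
    rw [e2, b1_cc l k hl1 hk1]
    by_cases h : k = l
    · subst h; simp; ring
    · rw [if_neg (fun h' => h h'.symm), if_neg h]; simp
  rw [Finset.sum_congr rfl h1, Finset.sum_ite_eq' , if_pos hl]

private theorem b1T_sin (K : ℕ) (α : ℝ) (a b : ℕ → ℝ) (l : ℕ) (hl : l ∈ Finset.Icc 1 K) :
    ∫ θ in (-π)..π, b1T K α a b θ * sin (l * θ) = π * b l := by
  rw [b1T_mul K α a b (fun θ => sin (l * θ)) (by fun_prop)]
  have hl1 := (Finset.mem_Icc.1 hl).1
  have e1 := b1_sin (l : ℤ)
  simp only [Int.cast_natCast] at e1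
  rw [e1, mul_zero, zero_add]
  have h1 : ∀ k ∈ Finset.Icc 1 K, (a k * (∫ θ in (-π)..π, sin (l * θ) * cos (k * θ)) +
      b k * ∫ θ in (-π)..π, sin (l * θ) * sin (k * θ)) = if k = l then π * b l else 0 := by
    intro k hk
    have hk1 := (Finset.mem_Icc.1 hk).1
    rw [b1_sc l k, b1_ss l k hl1 hk1]
    by_cases h : k = l
    · subst h; simp; ring
    · rw [if_neg (fun h' => h h'.symm), if_neg h]; simp
  rw [Finset.sum_congr rfl h1, Finset.sum_ite_eq' , if_pos hl]

private theorem b1_rem (u : ℝ → ℝ) (K : ℕ) (θ : ℝ) :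
    rem u K θ = u θ - b1T K (ma u) (ca u) (sa u) θ := by
  unfold rem b1T
  ring

private theorem b1_rem_cont (u : ℝ → ℝ) (hu : Continuous u) (K : ℕ) : Continuous (rem u K) := by
  have : rem u K = fun θ => u θ - b1T K (ma u) (ca u) (sa u) θ := funext (b1_rem u K)
  rw [this]
  exact hu.sub (b1T_cont _ _ _ _)

private theorem b1_ca (u : ℝ → ℝ) (k : ℕ) : ∫ θ in (-π)..π, u θ * cos (k * θ) = π * ca u k := by
  unfold ca
  field_simp

private theorem b1_sa (u : ℝ → ℝ) (k : ℕ) : ∫ θ in (-π)..π, u θ * sin (k * θ) = π * sa u k := by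
  unfold sa
  field_simp

private theorem b1_ma (u : ℝ → ℝ) : ∫ θ in (-π)..π, u θ = 2 * π * ma u := by
  unfold ma
  field_simp

private theorem b1_rem_int (u : ℝ → ℝ) (hu : Continuous u) (K : ℕ) :
    ∫ θ in (-π)..π, rem u K θ = 0 := by
  simp only [b1_rem]
  rw [intervalIntegral.integral_sub (b1_ii _ hu) (b1_ii _ (b1T_cont _ _ _ _)), b1T_int, b1_ma]
  ring

private theorem b1_rem_cos (u : ℝ → ℝ) (hu : Continuous u) (K l : ℕ) (hl : l ∈ Finset.Icc 1 K) :
    ∫ θ in (-π)..π, rem u K θ * cos (l * θ) = 0 := by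
  have hT := b1T_cont K (ma u) (ca u) (sa u)
  simp only [b1_rem, sub_mul]
  rw [intervalIntegral.integral_sub (b1_ii _ (by fun_prop))
    (b1_ii _ (by fun_prop)), b1T_cos _ _ _ _ _ hl, b1_ca]
  ring

private theorem b1_rem_sin (u : ℝ → ℝ) (hu : Continuous u) (K l : ℕ) (hl : l ∈ Finset.Icc 1 K) :
    ∫ θ in (-π)..π, rem u K θ * sin (l * θ) = 0 := by
  have hT := b1T_cont K (ma u) (ca u) (sa u)
  simp only [b1_rem, sub_mul]
  rw [intervalIntegral.integral_sub (b1_ii _ (by fun_prop))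
    (b1_ii _ (by fun_prop)), b1T_sin _ _ _ _ _ hl, b1_sa]
  ring

private theorem b1_pyth (u : ℝ → ℝ) (hu : Continuous u) (K : ℕ) :
    ∫ θ in (-π)..π, u θ ^ 2 = 2 * π * ma u ^ 2
        + π * ∑ k ∈ Finset.Icc 1 K, (ca u k ^ 2 + sa u k ^ 2) + ∫ θ in (-π)..π, rem u K θ ^ 2 := by
  have hT := b1T_cont K (ma u) (ca u) (sa u)
  have hR := b1_rem_cont u hu K
  have h1 : ∫ θ in (-π)..π, b1T K (ma u) (ca u) (sa u) θ * rem u K θ = 0 := by
    rw [b1T_mul _ _ _ _ _ hR, b1_rem_int u hu, mul_zero, zero_add]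
    refine Finset.sum_eq_zero fun k hk => ?_
    rw [b1_rem_cos u hu K k hk, b1_rem_sin u hu K k hk]
    simp
  have h2 : ∫ θ in (-π)..π, b1T K (ma u) (ca u) (sa u) θ * u θ = 2 * π * ma u ^ 2
        + π * ∑ k ∈ Finset.Icc 1 K, (ca u k ^ 2 + sa u k ^ 2) := by
    rw [b1T_mul _ _ _ _ _ hu, b1_ma, Finset.mul_sum]
    congr 1
    · ring
    · refine Finset.sum_congr rfl fun k _ => ?_
      rw [b1_ca, b1_sa]
      ring
  have h3 : ∀ θ, u θ ^ 2 = b1T K (ma u) (ca u) (sa u) θ * u θ +
      b1T K (ma u) (ca u) (sa u) θ * rem u K θ + rem u K θ ^ 2 := by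
    intro θ
    have := b1_rem u K θ
    have e : u θ = rem u K θ + b1T K (ma u) (ca u) (sa u) θ := by linarith
    rw [e]
    ring
  simp only [h3]
  rw [intervalIntegral.integral_add (b1_ii _ (by fun_prop)) (b1_ii _ (by fun_prop)),
    intervalIntegral.integral_add (b1_ii _ (by fun_prop)) (b1_ii _ (by fun_prop)), h1, h2]
  ring

/-- integration by parts on the circle -/
private theorem b1_parts (u g g' : ℝ → ℝ) (hu : ContDiff ℝ 1 u)
    (hper : Function.Periodic u (2 * π)) (hg : ∀ x, HasDerivAt g (g' x) x) (hg' : Continuous g')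
    (hgp : Function.Periodic g (2 * π)) :
    ∫ θ in (-π)..π, deriv u θ * g θ = -∫ θ in (-π)..π, u θ * g' θ := by
  have hd : ∀ x ∈ uIcc (-π) π, HasDerivAt u (deriv u x) x := fun x _ =>
    ((hu.differentiable (by norm_num)) x).hasDerivAt
  have h := intervalIntegral.integral_mul_deriv_eq_deriv_mul (u := g) (v := u) (u' := g')
    (v' := deriv u) (fun x _ => hg x) hd (b1_ii _ hg') (b1_ii _ (hu.continuous_deriv (by norm_num)))
  have e1 : u π = u (-π) := by
    have := hper (-π)
    rw [show -π + 2 * π = π by ring] at this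
    exact this
  have e2 : g π = g (-π) := by
    have := hgp (-π)
    rw [show -π + 2 * π = π by ring] at this
    exact this
  rw [e1, e2, sub_self, zero_sub] at h
  have h3 : ∫ θ in (-π)..π, deriv u θ * g θ = ∫ θ in (-π)..π, g θ * deriv u θ :=
    intervalIntegral.integral_congr fun θ _ => mul_comm _ _
  have h4 : ∫ θ in (-π)..π, u θ * g' θ = ∫ θ in (-π)..π, g' θ * u θ :=
    intervalIntegral.integral_congr fun θ _ => mul_comm _ _
  rw [h3, h4, h]

private theorem b1_cos_per (k : ℕ) : Function.Periodic (fun θ : ℝ => cos (k * θ)) (2 * π) := by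
  intro θ
  have : (k : ℝ) * (θ + 2 * π) = k * θ + k * (2 * π) := by ring
  simp only [this]
  exact Real.cos_add_nat_mul_two_pi _ _

private theorem b1_sin_per (k : ℕ) : Function.Periodic (fun θ : ℝ => sin (k * θ)) (2 * π) := by
  intro θ
  have : (k : ℝ) * (θ + 2 * π) = k * θ + k * (2 * π) := by ring
  simp only [this]
  exact Real.sin_add_nat_mul_two_pi _ _

private theorem b1_dcos (k : ℕ) (x : ℝ) :
    HasDerivAt (fun θ : ℝ => cos (k * θ)) (-(k * sin (k * x))) x := by
  have h := ((hasDerivAt_id x).const_mul (k : ℝ)).cos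
  simp only [id, mul_one] at h
  convert h using 1
  ring

private theorem b1_dsin (k : ℕ) (x : ℝ) :
    HasDerivAt (fun θ : ℝ => sin (k * θ)) (k * cos (k * x)) x := by
  have h := ((hasDerivAt_id x).const_mul (k : ℝ)).sin
  simp only [id, mul_one] at h
  convert h using 1
  ring

private theorem b1_ca_deriv (u : ℝ → ℝ) (hu : ContDiff ℝ 1 u)
    (hper : Function.Periodic u (2 * π)) (k : ℕ) : ca (deriv u) k = k * sa u k := by
  unfold ca sa
  rw [b1_parts u _ _ hu hper (b1_dcos k) (by fun_prop) (b1_cos_per k)]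
  have : ∫ θ in (-π)..π, u θ * -(k * sin (k * θ)) = -k * ∫ θ in (-π)..π, u θ * sin (k * θ) := by
    rw [← intervalIntegral.integral_const_mul]
    exact intervalIntegral.integral_congr fun θ _ => by ring
  rw [this]
  ring

private theorem b1_sa_deriv (u : ℝ → ℝ) (hu : ContDiff ℝ 1 u)
    (hper : Function.Periodic u (2 * π)) (k : ℕ) : sa (deriv u) k = -(k * ca u k) := by
  unfold ca sa
  rw [b1_parts u _ _ hu hper (b1_dsin k) (by fun_prop) (b1_sin_per k)]
  have : ∫ θ in (-π)..π, u θ * (k * cos (k * θ)) = k * ∫ θ in (-π)..π, u θ * cos (k * θ) := by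
    rw [← intervalIntegral.integral_const_mul]
    exact intervalIntegral.integral_congr fun θ _ => by ring
  rw [this]
  ring

private theorem b1_ma_deriv (u : ℝ → ℝ) (hu : ContDiff ℝ 1 u)
    (hper : Function.Periodic u (2 * π)) : ma (deriv u) = 0 := by
  unfold ma
  have := b1_parts u (fun _ => 1) (fun _ => 0) hu hper (fun x => hasDerivAt_const x 1)
    continuous_const (fun _ => rfl)
  simp only [mul_one, mul_zero, intervalIntegral.integral_zero, neg_zero] at this
  rw [this, mul_zero]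

private theorem b1_hasDeriv_rem (u : ℝ → ℝ) (hu : ContDiff ℝ 1 u)
    (hper : Function.Periodic u (2 * π)) (K : ℕ) (x : ℝ) :
    HasDerivAt (rem u K) (rem (deriv u) K x) x := by
  have hd : HasDerivAt u (deriv u x) x := ((hu.differentiable (by norm_num)) x).hasDerivAt
  have hs : HasDerivAt (fun θ => ∑ k ∈ Finset.Icc 1 K, (ca u k * cos (k * θ) +
      sa u k * sin (k * θ))) (∑ k ∈ Finset.Icc 1 K, (ca u k * (-(k * sin (k * x))) +
      sa u k * (k * cos (k * x)))) x :=
    HasDerivAt.fun_sum fun k _ => ((b1_dcos k x).const_mul _).add ((b1_dsin k x).const_mul _)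
  have h := (hd.sub_const (ma u)).sub hs
  have e : deriv u x - ∑ k ∈ Finset.Icc 1 K, (ca u k * (-(k * sin (k * x))) +
      sa u k * (k * cos (k * x))) = rem (deriv u) K x := by
    unfold rem
    rw [b1_ma_deriv u hu hper, sub_zero]
    congr 1
    refine Finset.sum_congr rfl fun k _ => ?_
    rw [b1_ca_deriv u hu hper, b1_sa_deriv u hu hper]
    ring
  rw [← e]
  exact h

private theorem b1_rem_per (u : ℝ → ℝ) (hper : Function.Periodic u (2 * π)) (K : ℕ) :
    Function.Periodic (rem u K) (2 * π) := by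
  intro θ
  unfold rem
  rw [hper θ]
  congr 1
  refine Finset.sum_congr rfl fun k _ => ?_
  have h1 := b1_cos_per k θ
  have h2 := b1_sin_per k θ
  simp only at h1 h2
  rw [h1, h2]

private theorem b1_lt : (-π : ℝ) < π := by linarith [Real.pi_pos]

/-- complex Fourier coefficient of a real function -/
private theorem b1_coeff (v : ℝ → ℝ) (hv : Continuous v) (n : ℤ) :
    fourierCoeffOn b1_lt (fun x => (v x : ℂ)) n =
      (1 / (2 * π) : ℂ) * (((∫ θ in (-π)..π, v θ * cos (n * θ) : ℝ) : ℂ) -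
        Complex.I * ((∫ θ in (-π)..π, v θ * sin (n * θ) : ℝ) : ℂ)) := by
  rw [fourierCoeffOn_eq_integral]
  have h1 : ∀ x : ℝ, fourier (-n) (x : AddCircle (π - -π)) • (v x : ℂ) =
      ((v x * cos (n * x) : ℝ) : ℂ) - Complex.I * ((v x * sin (n * x) : ℝ) : ℂ) := by
    intro x
    rw [fourier_coe_apply, smul_eq_mul]
    have e : (2 * π * Complex.I * ((-n : ℤ) : ℂ) * x / ((π - -π : ℝ) : ℂ)) =
        ((-(n * x) : ℝ) : ℂ) * Complex.I := by
      have hpi : (π : ℂ) ≠ 0 := by exact_mod_cast Real.pi_ne_zero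
      push_cast
      field_simp
      ring
    rw [e, Complex.exp_mul_I, ← Complex.ofReal_cos, ← Complex.ofReal_sin, Real.cos_neg,
      Real.sin_neg]
    push_cast
    ring
  simp only [h1]
  have e2 : ∫ x in (-π)..π, (((v x * cos (n * x) : ℝ) : ℂ) -
      Complex.I * ((v x * sin (n * x) : ℝ) : ℂ)) =
      ((∫ θ in (-π)..π, v θ * cos (n * θ) : ℝ) : ℂ) -
        Complex.I * ((∫ θ in (-π)..π, v θ * sin (n * θ) : ℝ) : ℂ) := by
    rw [intervalIntegral.integral_sub, intervalIntegral.integral_const_mul,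
      intervalIntegral.integral_ofReal, intervalIntegral.integral_ofReal]
    · exact Continuous.intervalIntegrable (by fun_prop) _ _
    · exact Continuous.intervalIntegrable (by fun_prop) _ _
  rw [e2, Complex.real_smul]
  congr 1
  push_cast
  ring

private theorem b1_memLp (v : ℝ → ℝ) (hv : Continuous v) :
    MemLp (fun x => (v x : ℂ)) 2 (volume.restrict (Ioc (-π) π)) := by
  have h1 : Continuous fun x => (v x : ℂ) := by fun_prop
  have h2 : MemLp (fun x => (v x : ℂ)) 2 (volume.restrict (Icc (-π) π)) := by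
    obtain ⟨C, hC⟩ := (isCompact_Icc (a := -π) (b := π)).exists_bound_of_continuousOn
      h1.continuousOn
    refine MemLp.of_bound h1.aestronglyMeasurable C ?_
    exact (ae_restrict_iff' measurableSet_Icc).2 (Filter.Eventually.of_forall hC)
  exact h2.mono_measure (Measure.restrict_mono Ioc_subset_Icc_self le_rfl)

private theorem b1_wirtinger (v v' : ℝ → ℝ) (hv : Continuous v) (hv' : Continuous v')
    (hd : ∀ x, HasDerivAt v (v' x) x) (hper : Function.Periodic v (2 * π)) (K : ℕ)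
    (h0 : ∫ θ in (-π)..π, v θ = 0)
    (hc : ∀ l ∈ Finset.Icc 1 K, ∫ θ in (-π)..π, v θ * cos (l * θ) = 0)
    (hs : ∀ l ∈ Finset.Icc 1 K, ∫ θ in (-π)..π, v θ * sin (l * θ) = 0) :
    ((K + 1 : ℝ) ^ 2 * ∫ θ in (-π)..π, v θ ^ 2) ≤ ∫ θ in (-π)..π, v' θ ^ 2 := by
  have hpi := Real.pi_pos
  have e1 : v π = v (-π) := by
    have := hper (-π)
    rw [show -π + 2 * π = π by ring] at this
    exact this
  have hP := hasSum_sq_fourierCoeffOn b1_lt (b1_memLp v hv)
  have hP' := hasSum_sq_fourierCoeffOn b1_lt (b1_memLp v' hv')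
  have hnorm : ∀ w : ℝ → ℝ, (∫ x in (-π)..π, ‖((w x : ℝ) : ℂ)‖ ^ 2) = ∫ x in (-π)..π, w x ^ 2 := by
    intro w
    refine intervalIntegral.integral_congr fun x _ => ?_
    simp only [Complex.norm_real, Real.norm_eq_abs, sq_abs]
  rw [hnorm] at hP hP'
  have hrel : ∀ n : ℤ, (K + 1 : ℝ) ^ 2 * ‖fourierCoeffOn b1_lt (fun x => (v x : ℂ)) n‖ ^ 2 ≤
      ‖fourierCoeffOn b1_lt (fun x => (v' x : ℂ)) n‖ ^ 2 := by
    intro n
    by_cases hn : n.natAbs ≤ K
    · -- the coefficient vanishes
      have hz : fourierCoeffOn b1_lt (fun x => (v x : ℂ)) n = 0 := by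
        rw [b1_coeff v hv]
        by_cases hn0 : n = 0
        · subst hn0
          simp [h0]
        · have hmem : n.natAbs ∈ Finset.Icc 1 K := Finset.mem_Icc.2 ⟨by omega, hn⟩
          have hcc := hc _ hmem
          have hss := hs _ hmem
          rcases Int.natAbs_eq n with hp | hp
          · have e : ((n.natAbs : ℕ) : ℝ) = (n : ℝ) := by
              rw [Nat.cast_natAbs, abs_of_nonneg (by omega : 0 ≤ n)]
            rw [e] at hcc hss
            rw [hcc, hss]
            simp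
          · have e : ((n.natAbs : ℕ) : ℝ) = -(n : ℝ) := by
              rw [Nat.cast_natAbs, abs_of_nonpos (by omega : n ≤ 0)]
              push_cast
              ring
            rw [e] at hcc hss
            have c1 : ∫ θ in (-π)..π, v θ * cos (n * θ) = 0 := by
              rw [← hcc]
              refine intervalIntegral.integral_congr fun θ _ => ?_
              simp only [neg_mul, Real.cos_neg]
            have c2 : ∫ θ in (-π)..π, v θ * sin (n * θ) = 0 := by
              have : ∫ θ in (-π)..π, v θ * sin (-(n : ℝ) * θ) =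
                  -∫ θ in (-π)..π, v θ * sin (n * θ) := by
                rw [← intervalIntegral.integral_neg]
                refine intervalIntegral.integral_congr fun θ _ => ?_
                simp only [neg_mul, Real.sin_neg]
                ring
              rw [this] at hss
              linarith
            rw [c1, c2]
            simp
      rw [hz]
      simp
    · push Not at hn
      have hn0 : n ≠ 0 := by
        rintro rfl
        simp at hn
      have h := fourierCoeffOn_of_hasDerivAt b1_lt (f := fun x => (v x : ℂ))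
        (f' := fun x => (v' x : ℂ)) hn0 (fun x _ => (hd x).ofReal_comp)
        (Continuous.intervalIntegrable (by fun_prop) _ _)
      have hne : (n : ℂ) ≠ 0 := by exact_mod_cast hn0
      have hpic : (π : ℂ) ≠ 0 := by exact_mod_cast Real.pi_ne_zero
      have h2 : fourierCoeffOn b1_lt (fun x => (v' x : ℂ)) n =
          (Complex.I * n) * fourierCoeffOn b1_lt (fun x => (v x : ℂ)) n := by
        rw [h]
        simp only [e1, sub_self, mul_zero, zero_sub]
        have hI : Complex.I ≠ 0 := Complex.I_ne_zero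
        push_cast
        field_simp
        ring
      rw [h2, norm_mul, norm_mul, Complex.norm_I, one_mul, mul_pow]
      refine mul_le_mul_of_nonneg_right ?_ (by positivity)
      rw [Complex.norm_intCast]
      have h3 : (K + 1 : ℝ) ≤ |(n : ℝ)| := by
        have h4 : ((n.natAbs : ℕ) : ℝ) = |(n : ℝ)| := by
          rw [← Int.cast_abs, Int.abs_eq_natAbs]
          simp
        rw [← h4]
        exact_mod_cast hn
      exact pow_le_pow_left₀ (by positivity) h3 2
  have hfin := hasSum_le hrel (hP.mul_left ((K + 1 : ℝ) ^ 2)) hP'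
  simp only [smul_eq_mul] at hfin
  have h5 : (0 : ℝ) < (π - -π)⁻¹ := by
    rw [inv_pos]; linarith
  have h6 : (π - -π)⁻¹ * ((K + 1 : ℝ) ^ 2 * ∫ θ in (-π)..π, v θ ^ 2) ≤
      (π - -π)⁻¹ * ∫ θ in (-π)..π, v' θ ^ 2 := by
    calc (π - -π)⁻¹ * ((K + 1 : ℝ) ^ 2 * ∫ θ in (-π)..π, v θ ^ 2)
        = (K + 1 : ℝ) ^ 2 * ((π - -π)⁻¹ * ∫ θ in (-π)..π, v θ ^ 2) := by ring
      _ ≤ _ := hfin
  exact le_of_mul_le_mul_left h6 h5

theorem angular (u : ℝ → ℝ) (hu : ContDiff ℝ 1 u) (hper : Function.Periodic u (2 * π)) (K : ℕ) :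
    (∫ θ in (-π)..π, u θ ^ 2 = 2 * π * ma u ^ 2
        + π * ∑ k ∈ Finset.Icc 1 K, (ca u k ^ 2 + sa u k ^ 2) + ∫ θ in (-π)..π, rem u K θ ^ 2) ∧
    (∫ θ in (-π)..π, deriv u θ ^ 2 =
        π * ∑ k ∈ Finset.Icc 1 K, (k : ℝ) ^ 2 * (ca u k ^ 2 + sa u k ^ 2)
          + ∫ θ in (-π)..π, deriv (rem u K) θ ^ 2) ∧
    ((K + 1 : ℝ) ^ 2 * ∫ θ in (-π)..π, rem u K θ ^ 2) ≤ ∫ θ in (-π)..π, deriv (rem u K) θ ^ 2 := by
  have hcu : Continuous u := hu.continuous
  have hcu' : Continuous (deriv u) := hu.continuous_deriv (by norm_num)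
  have hdr : deriv (rem u K) = rem (deriv u) K :=
    funext fun x => (b1_hasDeriv_rem u hu hper K x).deriv
  refine ⟨b1_pyth u hcu K, ?_, ?_⟩
  · rw [b1_pyth (deriv u) hcu' K, b1_ma_deriv u hu hper, hdr]
    have : ∀ k ∈ Finset.Icc 1 K, (ca (deriv u) k ^ 2 + sa (deriv u) k ^ 2) =
        (k : ℝ) ^ 2 * (ca u k ^ 2 + sa u k ^ 2) := by
      intro k _
      rw [b1_ca_deriv u hu hper, b1_sa_deriv u hu hper]
      ring
    rw [Finset.sum_congr rfl this]
    ring
  · rw [hdr]
    exact b1_wirtinger (rem u K) (rem (deriv u) K) (b1_rem_cont u hcu K)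
      (b1_rem_cont _ hcu' K) (b1_hasDeriv_rem u hu hper K) (b1_rem_per u hper K) K
      (b1_rem_int u hcu K) (fun l hl => b1_rem_cos u hcu K l hl)
      (fun l hl => b1_rem_sin u hcu K l hl)

end Pool.MP_ad5d82_an.Wl
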