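import Pool.Agent.Lib.MP_ad5d82_an.h24.BDefs
import Pool.Agent.Lib.MP_ad5d82_an.h24.B.B1
import Pool.Agent.Lib.MP_ad5d82_an.h24.W.W9
import Pool.Agent.Lib.MP_ad5d82_an.h24.W.W10

set_option autoImplicit false

namespace Pool.MP_ad5d82_an.Wl

open Real Set MeasureTheory
open scoped ContDiff

/-! ### B2: infrastructure -/

section infra
variable {a b : ℝ}

/-- continuous, supported in `a ≤ r ≤ b` -/
private def Nice (a b : ℝ) (P : ℝ → ℝ → ℝ) : Prop :=
  Continuous (Function.uncurry P) ∧ ∀ r θ, (r < a ∨ b < r) → P r θ = 0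

private def Nice1 (a b : ℝ) (p : ℝ → ℝ) : Prop := Continuous p ∧ ∀ r, (r < a ∨ b < r) → p r = 0

private def WB (a b : ℝ) (w : ℝ → ℝ) : Prop := Measurable w ∧ ∃ M, ∀ r, a ≤ r → r ≤ b → |w r| ≤ M

private theorem Nice.sec {P : ℝ → ℝ → ℝ} (hP : Nice a b P) (θ : ℝ) :
    Nice1 a b (fun r => P r θ) :=
  ⟨hP.1.comp (by fun_prop : Continuous fun r : ℝ => (r, θ)), fun r hr => hP.2 r θ hr⟩

private theorem Nice.mul {P Q : ℝ → ℝ → ℝ} (hP : Nice a b P) (hQ : Continuous (Function.uncurry Q)) :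
    Nice a b (fun r θ => P r θ * Q r θ) :=
  ⟨hP.1.mul hQ, fun r θ hr => by show P r θ * Q r θ = 0; rw [hP.2 r θ hr, zero_mul]⟩

private theorem Nice.sq {P : ℝ → ℝ → ℝ} (hP : Nice a b P) : Nice a b (fun r θ => P r θ ^ 2) :=
  ⟨hP.1.pow 2, fun r θ hr => by show P r θ ^ 2 = 0; rw [hP.2 r θ hr]; norm_num⟩

private theorem Nice1.sq {P : ℝ → ℝ} (hP : Nice1 a b P) : Nice1 a b (fun r => P r ^ 2) :=
  ⟨hP.1.pow 2, fun r hr => by show P r ^ 2 = 0; rw [hP.2 r hr]; norm_num⟩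

private theorem Nice1.integrable {p : ℝ → ℝ} (hp : Nice1 a b p) (S : Set ℝ) :
    Integrable p (volume.restrict S) := by
  refine Integrable.restrict (Continuous.integrable_of_hasCompactSupport hp.1 ?_)
  refine HasCompactSupport.intro (isCompact_Icc (a := a) (b := b)) fun r hr => hp.2 r ?_
  by_contra hcon
  push Not at hcon
  exact hr ⟨hcon.1, hcon.2⟩

private theorem w_eq {w : ℝ → ℝ} (p : ℝ → ℝ) (hp : ∀ r, (r < a ∨ b < r) → p r = 0) (r : ℝ) :
    w r * p r = (Icc a b).indicator w r * p r := by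
  by_cases hr : r ∈ Icc a b
  · rw [indicator_of_mem hr]
  · rw [indicator_of_notMem hr, zero_mul, hp r ?_, mul_zero]
    by_contra hcon
    push Not at hcon
    exact hr ⟨hcon.1, hcon.2⟩

private theorem WB.ind_bound {w : ℝ → ℝ} (hw : WB a b w) : ∃ M, ∀ r,
    |(Icc a b).indicator w r| ≤ M := by
  obtain ⟨M, hM⟩ := hw.2
  refine ⟨max M 0, fun r => ?_⟩
  by_cases hr : r ∈ Icc a b
  · rw [indicator_of_mem hr]
    exact (hM r hr.1 hr.2).trans (le_max_left _ _)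
  · rw [indicator_of_notMem hr, abs_zero]
    exact le_max_right _ _

private theorem int1 {w p : ℝ → ℝ} (hw : WB a b w) (hp : Nice1 a b p) (S : Set ℝ) :
    Integrable (fun r => w r * p r) (volume.restrict S) := by
  have e : (fun r => w r * p r) = fun r => (Icc a b).indicator w r * p r :=
    funext fun r => w_eq p hp.2 r
  rw [e]
  obtain ⟨M, hM⟩ := hw.ind_bound
  exact (hp.integrable S).bdd_mul (c := M)
    (hw.1.indicator measurableSet_Icc).aestronglyMeasurable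
    (Filter.Eventually.of_forall fun r => by rw [Real.norm_eq_abs]; exact hM r)

private theorem nice_int2 {P : ℝ → ℝ → ℝ} (hP : Nice a b P) (S : Set ℝ) :
    Integrable (Function.uncurry P) ((volume.restrict S).prod (volume.restrict (Ioc (-π) π))) := by
  have h1 : IntegrableOn (Function.uncurry P) (Icc a b ×ˢ Icc (-π) π) (volume.prod volume) :=
    hP.1.continuousOn.integrableOn_compact (isCompact_Icc.prod isCompact_Icc)
  have h2 : IntegrableOn (Function.uncurry P) (univ ×ˢ Icc (-π) π) (volume.prod volume) := by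
    refine h1.of_forall_sdiff_eq_zero (MeasurableSet.univ.prod measurableSet_Icc) ?_
    rintro ⟨r, θ⟩ ⟨⟨-, hθ⟩, hn⟩
    refine hP.2 r θ ?_
    by_contra hcon
    push Not at hcon
    exact hn ⟨⟨hcon.1, hcon.2⟩, hθ⟩
  rw [Measure.prod_restrict]
  exact h2.mono_set (Set.prod_mono (subset_univ _) Ioc_subset_Icc_self)

private theorem int2 {w : ℝ → ℝ} {P : ℝ → ℝ → ℝ} (hw : WB a b w) (hP : Nice a b P) (S : Set ℝ) :
    Integrable (Function.uncurry fun r θ => w r * P r θ)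
      ((volume.restrict S).prod (volume.restrict (Ioc (-π) π))) := by
  obtain ⟨M, hM⟩ := hw.ind_bound
  have e : (Function.uncurry fun r θ => w r * P r θ) =
      fun q : ℝ × ℝ => (Icc a b).indicator w q.1 * Function.uncurry P q := by
    funext ⟨r, θ⟩
    exact w_eq (fun r => P r θ) (fun r hr => hP.2 r θ hr) r
  rw [e]
  exact (nice_int2 hP S).bdd_mul (c := M)
    ((hw.1.indicator measurableSet_Icc).comp measurable_fst).aestronglyMeasurable
    (Filter.Eventually.of_forall fun q => by rw [Real.norm_eq_abs]; exact hM q.1)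

private theorem pi_le : -π ≤ π := by linarith [Real.pi_pos]

/-- Fubini -/
private theorem swap2 {w : ℝ → ℝ} {P : ℝ → ℝ → ℝ} (hw : WB a b w) (hP : Nice a b P) :
    ∫ r in Ioi (0 : ℝ), w r * (∫ θ in (-π)..π, P r θ) =
      ∫ θ in (-π)..π, ∫ r in Ioi (0 : ℝ), w r * P r θ := by
  have h1 := integral_integral_swap (int2 hw hP (Ioi (0 : ℝ)))
  rw [intervalIntegral.integral_of_le pi_le, ← h1]
  refine integral_congr_ae (Filter.Eventually.of_forall fun r => ?_)
  show w r * (∫ θ in (-π)..π, P r θ) = ∫ θ in Ioc (-π) π, w r * P r θ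
  rw [intervalIntegral.integral_of_le pi_le, integral_const_mul]

private theorem int_swap {w : ℝ → ℝ} {P : ℝ → ℝ → ℝ} (hw : WB a b w) (hP : Nice a b P) :
    IntervalIntegrable (fun θ => ∫ r in Ioi (0 : ℝ), w r * P r θ) volume (-π) π := by
  rw [intervalIntegrable_iff_integrableOn_Ioc_of_le pi_le]
  exact (int2 hw hP (Ioi (0 : ℝ))).integral_prod_right

/-- the point with polar coordinates `r`, `θ` -/
private noncomputable def pc (r θ : ℝ) : ℂ := r * (cos θ + sin θ * Complex.I)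

private theorem pc_norm (r θ : ℝ) : ‖pc r θ‖ = |r| := by
  have := Complex.norm_polarCoord_symm (r, θ)
  rwa [Complex.polarCoord_symm_apply] at this

/-- polar coordinates -/
private theorem polar_int {w : ℝ → ℝ} {P : ℝ → ℝ → ℝ}
    (hw : WB a b (fun r => r * w r)) (hP : Nice a b P)
    (g : ℂ → ℝ) (hg : ∀ r θ, 0 < r → g (pc r θ) = P r θ) :
    ∫ z : ℂ, w ‖z‖ * g z = ∫ r in Ioi (0 : ℝ), (r * w r) * (∫ θ in (-π)..π, P r θ) := by
  rw [← Complex.integral_comp_polarCoord_symm, polarCoord_target]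
  have h1 : ∫ p in Ioi (0 : ℝ) ×ˢ Ioo (-π) π, p.1 • (w ‖Complex.polarCoord.symm p‖ *
      g (Complex.polarCoord.symm p)) = ∫ p in Ioi (0 : ℝ) ×ˢ Ioo (-π) π,
        Function.uncurry (fun r θ => (r * w r) * P r θ) p := by
    refine setIntegral_congr_fun (measurableSet_Ioi.prod measurableSet_Ioo) ?_
    rintro ⟨r, θ⟩ ⟨hr, hθ⟩
    have hr' : 0 < r := hr
    show r • (w ‖Complex.polarCoord.symm (r, θ)‖ * g (Complex.polarCoord.symm (r, θ))) =
      (r * w r) * P r θ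
    rw [Complex.norm_polarCoord_symm, Complex.polarCoord_symm_apply]
    show r • (w |r| * g (pc r θ)) = _
    rw [hg r θ hr', abs_of_pos hr', smul_eq_mul]
    ring
  rw [h1]
  have h2 := int2 hw hP (Ioi (0 : ℝ))
  have h3 : ∫ p in Ioi (0 : ℝ) ×ˢ Ioo (-π) π, Function.uncurry (fun r θ => (r * w r) * P r θ) p =
      ∫ p in Ioi (0 : ℝ) ×ˢ Ioc (-π) π, Function.uncurry (fun r θ => (r * w r) * P r θ) p := by
    refine setIntegral_congr_set ?_
    exact Measure.set_prod_ae_eq (Filter.EventuallyEq.refl _ _) Ioo_ae_eq_Ioc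
  rw [h3, Measure.volume_eq_prod, setIntegral_prod]
  · refine integral_congr_ae (Filter.Eventually.of_forall fun r => ?_)
    show ∫ θ in Ioc (-π) π, (r * w r) * P r θ = (r * w r) * (∫ θ in (-π)..π, P r θ)
    rw [intervalIntegral.integral_of_le pi_le, integral_const_mul]
  · rw [IntegrableOn, ← Measure.prod_restrict]
    exact h2


/-! smooth periodic functions -/

private structure SP (a b : ℝ) (P : ℝ → ℝ → ℝ) : Prop where
  sm : ContDiff ℝ ∞ (Function.uncurry P)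
  out : ∀ r θ, (r < a ∨ b < r) → P r θ = 0
  per : ∀ r, Function.Periodic (P r) (2 * π)

private noncomputable def dr (P : ℝ → ℝ → ℝ) (r θ : ℝ) : ℝ := deriv (fun r => P r θ) r
private noncomputable def dt (P : ℝ → ℝ → ℝ) (r θ : ℝ) : ℝ := deriv (P r) θ

private theorem SP.nice {P : ℝ → ℝ → ℝ} (h : SP a b P) : Nice a b P := ⟨h.sm.continuous, h.out⟩

private theorem SP.hasDr {P : ℝ → ℝ → ℝ} (h : SP a b P) (r θ : ℝ) :
    HasDerivAt (fun r => P r θ) (dr P r θ) r := by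
  have h1 : ContDiff ℝ ∞ (fun r => P r θ) :=
    h.sm.comp (contDiff_id.prodMk contDiff_const)
  exact (h1.differentiable (by simp) r).hasDerivAt

private theorem SP.hasDt {P : ℝ → ℝ → ℝ} (h : SP a b P) (r θ : ℝ) :
    HasDerivAt (P r) (dt P r θ) θ := by
  have h1 : ContDiff ℝ ∞ (P r) :=
    h.sm.comp (contDiff_const.prodMk contDiff_id)
  exact (h1.differentiable (by simp) θ).hasDerivAt

private theorem SP.dr_eq {P : ℝ → ℝ → ℝ} (h : SP a b P) (r θ : ℝ) :
    dr P r θ = fderiv ℝ (Function.uncurry P) (r, θ) (1, 0) := by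
  have h1 : HasFDerivAt (Function.uncurry P) (fderiv ℝ (Function.uncurry P) (r, θ)) (r, θ) :=
    (h.sm.differentiable (by simp) _).hasFDerivAt
  have h2 : HasDerivAt (fun r : ℝ => (r, θ)) ((1 : ℝ), (0 : ℝ)) r :=
    (hasDerivAt_id' r).prodMk (hasDerivAt_const r θ)
  exact (h1.comp_hasDerivAt r h2).deriv

private theorem SP.dt_eq {P : ℝ → ℝ → ℝ} (h : SP a b P) (r θ : ℝ) :
    dt P r θ = fderiv ℝ (Function.uncurry P) (r, θ) (0, 1) := by
  have h1 : HasFDerivAt (Function.uncurry P) (fderiv ℝ (Function.uncurry P) (r, θ)) (r, θ) :=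
    (h.sm.differentiable (by simp) _).hasFDerivAt
  have h2 : HasDerivAt (fun θ : ℝ => (r, θ)) ((0 : ℝ), (1 : ℝ)) θ :=
    (hasDerivAt_const θ r).prodMk (hasDerivAt_id' θ)
  exact (h1.comp_hasDerivAt θ h2).deriv

private theorem isOpen_out (a b : ℝ) : IsOpen {r : ℝ | r < a ∨ b < r} :=
  (isOpen_gt' a).union (isOpen_lt' b)

private theorem SP.dr_SP {P : ℝ → ℝ → ℝ} (h : SP a b P) : SP a b (dr P) := by
  refine ⟨?_, fun r θ hr => ?_, fun r θ => ?_⟩
  · have e : Function.uncurry (dr P) = fun q => fderiv ℝ (Function.uncurry P) q (1, 0) := by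
      funext ⟨r, θ⟩
      exact h.dr_eq r θ
    rw [e]
    exact (h.sm.fderiv_right (m := ∞) (by simp)).clm_apply contDiff_const
  · have h1 : (fun r => P r θ) =ᶠ[nhds r] fun _ => 0 :=
      Filter.eventually_of_mem ((isOpen_out a b).mem_nhds hr) fun r' hr' => h.out r' θ hr'
    show deriv (fun r => P r θ) r = 0
    rw [h1.deriv_eq, deriv_const]
  · show deriv (fun r => P r (θ + 2 * π)) r = deriv (fun r => P r θ) r
    congr 1
    funext r
    exact h.per r θ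

private theorem SP.dt_SP {P : ℝ → ℝ → ℝ} (h : SP a b P) : SP a b (dt P) := by
  refine ⟨?_, fun r θ hr => ?_, fun r θ => ?_⟩
  · have e : Function.uncurry (dt P) = fun q => fderiv ℝ (Function.uncurry P) q (0, 1) := by
      funext ⟨r, θ⟩
      exact h.dt_eq r θ
    rw [e]
    exact (h.sm.fderiv_right (m := ∞) (by simp)).clm_apply contDiff_const
  · have e : P r = fun _ => 0 := funext fun θ => h.out r θ hr
    show deriv (P r) θ = 0
    rw [e, deriv_const]
  · show deriv (P r) (θ + 2 * π) = deriv (P r) θ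
    rw [← deriv_comp_add_const]
    congr 1
    funext θ
    exact h.per r θ

/-! parametric integrals -/

private theorem par_nice {P : ℝ → ℝ → ℝ} (h : Nice a b P) (m : ℝ → ℝ) (hm : Continuous m) :
    Nice1 a b (fun r => ∫ θ in (-π)..π, P r θ * m θ) := by
  refine ⟨?_, fun r hr => ?_⟩
  · refine intervalIntegral.continuous_parametric_intervalIntegral_of_continuous' ?_ _ _
    exact h.1.mul (hm.comp continuous_snd)
  · have : ∀ θ, P r θ * m θ = 0 := fun θ => by rw [h.2 r θ hr, zero_mul]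
    simp only [this]
    simp

private theorem par_deriv {P : ℝ → ℝ → ℝ} (h : SP a b P) (m : ℝ → ℝ) (hm : Continuous m) (r : ℝ) :
    HasDerivAt (fun r => ∫ θ in (-π)..π, P r θ * m θ) (∫ θ in (-π)..π, dr P r θ * m θ) r := by
  have hc : Continuous (Function.uncurry fun r θ => dr P r θ * m θ) :=
    h.dr_SP.sm.continuous.mul (hm.comp continuous_snd)
  have hc0 : Continuous (Function.uncurry fun r θ => P r θ * m θ) :=
    h.sm.continuous.mul (hm.comp continuous_snd)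
  obtain ⟨M, hM⟩ := ((isCompact_Icc (a := r - 1) (b := r + 1)).prod
    (isCompact_Icc (a := -π) (b := π))).exists_bound_of_continuousOn hc.continuousOn
  refine (intervalIntegral.hasDerivAt_integral_of_dominated_loc_of_deriv_le
    (F := fun r θ => P r θ * m θ) (F' := fun r θ => dr P r θ * m θ) (bound := fun _ => M)
    (s := Icc (r - 1) (r + 1)) (Icc_mem_nhds (by linarith) (by linarith)) ?_ ?_ ?_ ?_ ?_ ?_).2
  · refine Filter.Eventually.of_forall fun x => ?_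
    exact (hc0.comp (by fun_prop : Continuous fun θ : ℝ => (x, θ))).aestronglyMeasurable
  · exact (hc0.comp (by fun_prop : Continuous fun θ : ℝ => (r, θ))).intervalIntegrable _ _
  · exact (hc.comp (by fun_prop : Continuous fun θ : ℝ => (r, θ))).aestronglyMeasurable
  · refine Filter.Eventually.of_forall fun θ hθ x hx => ?_
    rw [uIoc_of_le pi_le] at hθ
    exact hM (x, θ) ⟨hx, Ioc_subset_Icc_self hθ⟩
  · exact intervalIntegrable_const
  · refine Filter.Eventually.of_forall fun θ hθ x hx => ?_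
    exact (h.hasDr x θ).mul_const (m θ)

private theorem c1_of {p q : ℝ → ℝ} (h : ∀ r, HasDerivAt p (q r) r) (hq : Continuous q) :
    ContDiff ℝ 1 p := by
  rw [contDiff_one_iff_deriv]
  refine ⟨fun r => (h r).differentiableAt, ?_⟩
  have : deriv p = q := funext fun r => (h r).deriv
  rw [this]
  exact hq

private theorem cosk_cont (k : ℕ) : Continuous fun θ : ℝ => cos (k * θ) := by fun_prop
private theorem sink_cont (k : ℕ) : Continuous fun θ : ℝ => sin (k * θ) := by fun_prop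

private theorem ca_nice {P : ℝ → ℝ → ℝ} (h : Nice a b P) (k : ℕ) :
    Nice1 a b (fun r => ca (P r) k) := by
  have h1 := par_nice h _ (cosk_cont k)
  exact ⟨continuous_const.mul h1.1, fun r hr => mul_eq_zero_of_right _ (h1.2 r hr)⟩

private theorem sa_nice {P : ℝ → ℝ → ℝ} (h : Nice a b P) (k : ℕ) :
    Nice1 a b (fun r => sa (P r) k) := by
  have h1 := par_nice h _ (sink_cont k)
  exact ⟨continuous_const.mul h1.1, fun r hr => mul_eq_zero_of_right _ (h1.2 r hr)⟩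

private theorem ma_nice {P : ℝ → ℝ → ℝ} (h : Nice a b P) :
    Nice1 a b (fun r => ma (P r)) := by
  have h1 := par_nice h (fun _ => 1) continuous_const
  simp only [mul_one] at h1
  exact ⟨continuous_const.mul h1.1, fun r hr => mul_eq_zero_of_right _ (h1.2 r hr)⟩

private theorem ca_deriv {P : ℝ → ℝ → ℝ} (h : SP a b P) (k : ℕ) (r : ℝ) :
    HasDerivAt (fun r => ca (P r) k) (ca (dr P r) k) r :=
  (par_deriv h _ (cosk_cont k) r).const_mul (1 / π)

private theorem sa_deriv {P : ℝ → ℝ → ℝ} (h : SP a b P) (k : ℕ) (r : ℝ) :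
    HasDerivAt (fun r => sa (P r) k) (sa (dr P r) k) r :=
  (par_deriv h _ (sink_cont k) r).const_mul (1 / π)

private theorem ma_deriv {P : ℝ → ℝ → ℝ} (h : SP a b P) (r : ℝ) :
    HasDerivAt (fun r => ma (P r)) (ma (dr P r)) r := by
  have h1 := (par_deriv h (fun _ => 1) continuous_const r).const_mul (1 / (2 * π))
  simp only [mul_one] at h1
  exact h1

private theorem rem_nice {P : ℝ → ℝ → ℝ} (h : Nice a b P) (K : ℕ) :
    Nice a b (fun r θ => rem (P r) K θ) := by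
  refine ⟨?_, fun r θ hr => ?_⟩
  · have h1 : Continuous fun q : ℝ × ℝ => ma (P q.1) := (ma_nice h).1.comp continuous_fst
    have h2 : ∀ k, Continuous fun q : ℝ × ℝ => ca (P q.1) k := fun k =>
      (ca_nice h k).1.comp continuous_fst
    have h3 : ∀ k, Continuous fun q : ℝ × ℝ => sa (P q.1) k := fun k =>
      (sa_nice h k).1.comp continuous_fst
    have h4 : Continuous fun q : ℝ × ℝ => P q.1 q.2 := h.1
    show Continuous fun q : ℝ × ℝ => P q.1 q.2 - ma (P q.1) -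
      ∑ k ∈ Finset.Icc 1 K, (ca (P q.1) k * cos (k * q.2) + sa (P q.1) k * sin (k * q.2))
    refine (h4.sub h1).sub (continuous_finsetSum _ fun k _ => ?_)
    exact ((h2 k).mul ((cosk_cont k).comp continuous_snd)).add
      ((h3 k).mul ((sink_cont k).comp continuous_snd))
  · show P r θ - ma (P r) -
      ∑ k ∈ Finset.Icc 1 K, (ca (P r) k * cos (k * θ) + sa (P r) k * sin (k * θ)) = 0
    have z1 : ma (P r) = 0 := (ma_nice h).2 r hr
    have z2 : ∀ k, ca (P r) k = 0 := fun k => (ca_nice h k).2 r hr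
    have z3 : ∀ k, sa (P r) k = 0 := fun k => (sa_nice h k).2 r hr
    rw [h.2 r θ hr, z1, Finset.sum_eq_zero, sub_zero, sub_zero]
    intro k _
    rw [z2, z3, zero_mul, zero_mul, add_zero]

private theorem rem_deriv {P : ℝ → ℝ → ℝ} (h : SP a b P) (K : ℕ) (r θ : ℝ) :
    HasDerivAt (fun r => rem (P r) K θ) (rem (dr P r) K θ) r := by
  refine ((h.hasDr r θ).sub (ma_deriv h r)).sub (HasDerivAt.fun_sum fun k _ => ?_)
  exact ((ca_deriv h k r).mul_const _).add ((sa_deriv h k r).mul_const _)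

private theorem angular_SP {P : ℝ → ℝ → ℝ} (h : SP a b P) (K : ℕ) (r : ℝ) :
    (∫ θ in (-π)..π, P r θ ^ 2 = 2 * π * ma (P r) ^ 2
        + π * ∑ k ∈ Finset.Icc 1 K, (ca (P r) k ^ 2 + sa (P r) k ^ 2) +
          ∫ θ in (-π)..π, rem (P r) K θ ^ 2) ∧
    ((K + 1 : ℝ) ^ 2 * ∫ θ in (-π)..π, rem (P r) K θ ^ 2) ≤ ∫ θ in (-π)..π, dt P r θ ^ 2 := by
  have hc : ContDiff ℝ 1 (P r) := by
    have h1 : ContDiff ℝ ∞ (P r) := h.sm.comp (contDiff_const.prodMk contDiff_id)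
    exact h1.of_le (by exact_mod_cast le_top)
  obtain ⟨h1, h2, h3⟩ := angular (P r) hc (h.per r) K
  refine ⟨h1, h3.trans ?_⟩
  show _ ≤ ∫ θ in (-π)..π, deriv (P r) θ ^ 2
  rw [h2]
  have h4 : 0 ≤ π * ∑ k ∈ Finset.Icc 1 K, (k : ℝ) ^ 2 * (ca (P r) k ^ 2 + sa (P r) k ^ 2) :=
    mul_nonneg Real.pi_pos.le (Finset.sum_nonneg fun k _ => by (clear * -; positivity))
  linarith

/-- decomposition of a weighted integral -/
private theorem decomp {P : ℝ → ℝ → ℝ} (h : SP a b P) (K : ℕ) {w : ℝ → ℝ} (hw : WB a b w) :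
    ∫ r in Ioi (0 : ℝ), w r * (∫ θ in (-π)..π, P r θ ^ 2) =
      2 * π * (∫ r in Ioi (0 : ℝ), w r * ma (P r) ^ 2) +
      π * ∑ k ∈ Finset.Icc 1 K, ((∫ r in Ioi (0 : ℝ), w r * ca (P r) k ^ 2) +
        ∫ r in Ioi (0 : ℝ), w r * sa (P r) k ^ 2) +
      ∫ θ in (-π)..π, ∫ r in Ioi (0 : ℝ), w r * rem (P r) K θ ^ 2 := by
  have hn := h.nice
  have i0 : Integrable (fun r => w r * ma (P r) ^ 2) (volume.restrict (Ioi (0 : ℝ))) :=
    int1 hw (ma_nice hn).sq _
  have i1 : ∀ k, Integrable (fun r => w r * ca (P r) k ^ 2) (volume.restrict (Ioi (0 : ℝ))) :=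
    fun k => int1 hw (ca_nice hn k).sq _
  have i2 : ∀ k, Integrable (fun r => w r * sa (P r) k ^ 2) (volume.restrict (Ioi (0 : ℝ))) :=
    fun k => int1 hw (sa_nice hn k).sq _
  have hr := (rem_nice hn K).sq
  have i3 : Integrable (fun r => w r * ∫ θ in (-π)..π, rem (P r) K θ ^ 2)
      (volume.restrict (Ioi (0 : ℝ))) := by
    have h1 := par_nice hr (fun _ => 1) continuous_const
    simp only [mul_one] at h1
    exact int1 hw h1 _
  rw [← swap2 hw hr]
  have e : ∀ r, w r * (∫ θ in (-π)..π, P r θ ^ 2) =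
      2 * π * (w r * ma (P r) ^ 2) +
      π * (∑ k ∈ Finset.Icc 1 K, (w r * ca (P r) k ^ 2 + w r * sa (P r) k ^ 2)) +
      w r * ∫ θ in (-π)..π, rem (P r) K θ ^ 2 := by
    intro r
    rw [(angular_SP h K r).1, ← Finset.sum_congr rfl fun k _ =>
      mul_add (w r) (ca (P r) k ^ 2) (sa (P r) k ^ 2), ← Finset.mul_sum]
    ring
  simp only [e]
  have i4 : Integrable (fun r => ∑ k ∈ Finset.Icc 1 K, (w r * ca (P r) k ^ 2 +
      w r * sa (P r) k ^ 2)) (volume.restrict (Ioi (0 : ℝ))) :=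
    integrable_finsetSum _ fun k _ => (i1 k).add (i2 k)
  rw [integral_add (f := fun r => 2 * π * (w r * ma (P r) ^ 2) +
      π * (∑ k ∈ Finset.Icc 1 K, (w r * ca (P r) k ^ 2 + w r * sa (P r) k ^ 2)))
      (g := fun r => w r * ∫ θ in (-π)..π, rem (P r) K θ ^ 2)
      ((i0.const_mul _).add (i4.const_mul _)) i3,
    integral_add (f := fun r => 2 * π * (w r * ma (P r) ^ 2))
      (g := fun r => π * (∑ k ∈ Finset.Icc 1 K, (w r * ca (P r) k ^ 2 + w r * sa (P r) k ^ 2)))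
      (i0.const_mul _) (i4.const_mul _), integral_const_mul, integral_const_mul,
    integral_finsetSum (f := fun k r => w r * ca (P r) k ^ 2 + w r * sa (P r) k ^ 2) _
      fun k _ => (i1 k).add (i2 k)]
  congr 3
  exact Finset.sum_congr rfl fun k _ => integral_add (i1 k) (i2 k)

/-! ### polar lifts -/

private noncomputable def Lf (g : ℂ → ℝ) (r θ : ℝ) : ℝ := if 0 < r then g (pc r θ) else 0

private theorem Lf_pos (g : ℂ → ℝ) {r : ℝ} (hr : 0 < r) (θ : ℝ) : Lf g r θ = g (pc r θ) := if_pos hr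

private theorem Lf_out {g : ℂ → ℝ} (hg : ∀ z, ‖z‖ < a ∨ b < ‖z‖ → g z = 0) (r θ : ℝ)
    (hr : r < a ∨ b < r) : Lf g r θ = 0 := by
  unfold Lf
  split_ifs with h
  · refine hg _ ?_
    rw [pc_norm, abs_of_pos h]
    exact hr
  · rfl

private theorem pc_smooth : ContDiff ℝ ∞ (fun q : ℝ × ℝ => pc q.1 q.2) := by
  unfold pc
  have h1 : ContDiff ℝ ∞ (fun q : ℝ × ℝ => ((q.1 : ℝ) : ℂ)) :=
    Complex.ofRealCLM.contDiff.comp contDiff_fst
  have h2 : ContDiff ℝ ∞ (fun q : ℝ × ℝ => ((cos q.2 : ℝ) : ℂ)) :=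
    Complex.ofRealCLM.contDiff.comp (Real.contDiff_cos.comp contDiff_snd)
  have h3 : ContDiff ℝ ∞ (fun q : ℝ × ℝ => ((sin q.2 : ℝ) : ℂ)) :=
    Complex.ofRealCLM.contDiff.comp (Real.contDiff_sin.comp contDiff_snd)
  exact h1.mul (h2.add (h3.mul (contDiff_const (c := Complex.I))))

private theorem Lf_SP (ha : 0 < a) {g : ℂ → ℝ} (hs : ContDiff ℝ ∞ g)
    (hg : ∀ z, ‖z‖ < a ∨ b < ‖z‖ → g z = 0) : SP a b (Lf g) := by
  refine ⟨?_, Lf_out hg, fun r θ => ?_⟩
  · rw [contDiff_iff_contDiffAt]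
    rintro ⟨r, θ⟩
    rcases lt_or_ge 0 r with hr | hr
    · have h1 : Function.uncurry (Lf g) =ᶠ[nhds (r, θ)] fun q => g (pc q.1 q.2) := by
        refine Filter.eventually_of_mem ((isOpen_Ioi.preimage continuous_fst).mem_nhds hr) ?_
        rintro ⟨r', θ'⟩ hr'
        exact Lf_pos g hr' θ'
      exact ((hs.comp pc_smooth).contDiffAt).congr_of_eventuallyEq h1
    · have h1 : Function.uncurry (Lf g) =ᶠ[nhds (r, θ)] fun _ => 0 := by
        refine Filter.eventually_of_mem ((isOpen_Iio.preimage continuous_fst).mem_nhds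
          (lt_of_le_of_lt hr ha)) ?_
        rintro ⟨r', θ'⟩ hr'
        exact Lf_out hg r' θ' (Or.inl hr')
      exact contDiffAt_const.congr_of_eventuallyEq h1
  · unfold Lf pc
    rw [Real.cos_add_two_pi, Real.sin_add_two_pi]

private theorem lin_comb (L : ℂ →L[ℝ] ℝ) (x y : ℝ) : L (x + y * Complex.I) = x * L 1 + y * L Complex.I := by
  have h1 : (x : ℂ) + y * Complex.I = x • (1 : ℂ) + y • Complex.I := by
    simp
  rw [h1, map_add, map_smul, map_smul, smul_eq_mul, smul_eq_mul]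

private theorem Lf_dr (ha : 0 < a) {g : ℂ → ℝ} (hs : ContDiff ℝ ∞ g)
    (hg : ∀ z, ‖z‖ < a ∨ b < ‖z‖ → g z = 0) {r : ℝ} (hr : 0 < r) (θ : ℝ) :
    dr (Lf g) r θ = cos θ * fderiv ℝ g (pc r θ) 1 + sin θ * fderiv ℝ g (pc r θ) Complex.I := by
  have h1 : (fun r => Lf g r θ) =ᶠ[nhds r] fun r => g (pc r θ) :=
    Filter.eventually_of_mem (isOpen_Ioi.mem_nhds hr) fun r' hr' => Lf_pos g hr' θ
  show deriv (fun r => Lf g r θ) r = _
  rw [h1.deriv_eq]
  have h2 : HasDerivAt (fun r : ℝ => pc r θ) ((cos θ : ℂ) + sin θ * Complex.I) r := by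
    unfold pc
    have h3 : HasDerivAt (fun r : ℝ => (r : ℂ)) 1 r := Complex.ofRealCLM.hasDerivAt
    have := h3.mul_const ((cos θ : ℂ) + sin θ * Complex.I)
    rw [one_mul] at this
    simpa using this
  have h3 : HasFDerivAt g (fderiv ℝ g (pc r θ)) (pc r θ) := (hs.differentiable (by simp) _).hasFDerivAt
  have h5 : HasDerivAt (fun r => g (pc r θ)) (fderiv ℝ g (pc r θ)
      ((cos θ : ℂ) + sin θ * Complex.I)) r := h3.comp_hasDerivAt r h2
  rw [h5.deriv]
  exact lin_comb (fderiv ℝ g (pc r θ)) (cos θ) (sin θ)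

private theorem Lf_dt (ha : 0 < a) {g : ℂ → ℝ} (hs : ContDiff ℝ ∞ g)
    (hg : ∀ z, ‖z‖ < a ∨ b < ‖z‖ → g z = 0) {r : ℝ} (hr : 0 < r) (θ : ℝ) :
    dt (Lf g) r θ = r * (-sin θ * fderiv ℝ g (pc r θ) 1 + cos θ * fderiv ℝ g (pc r θ) Complex.I) := by
  have h1 : Lf g r = fun θ => g (pc r θ) := funext fun θ => Lf_pos g hr θ
  show deriv (Lf g r) θ = _
  rw [h1]
  have h2 : HasDerivAt (fun θ : ℝ => pc r θ) (((-(r * sin θ) : ℝ) : ℂ) +
      ((r * cos θ : ℝ) : ℂ) * Complex.I) θ := by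
    unfold pc
    have h3 : HasDerivAt (fun θ : ℝ => ((cos θ : ℝ) : ℂ)) ((-sin θ : ℝ) : ℂ) θ :=
      (Real.hasDerivAt_cos θ).ofReal_comp
    have h4 : HasDerivAt (fun θ : ℝ => ((sin θ : ℝ) : ℂ)) ((cos θ : ℝ) : ℂ) θ :=
      (Real.hasDerivAt_sin θ).ofReal_comp
    have h5 := (h3.add (h4.mul_const Complex.I)).const_mul (r : ℂ)
    refine (h5.congr_deriv ?_).congr_of_eventuallyEq (Filter.Eventually.of_forall fun θ => ?_)
    · push_cast
      ring
    · show _ = (r : ℂ) * (((cos θ : ℝ) : ℂ) + ((sin θ : ℝ) : ℂ) * Complex.I)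
      push_cast
      ring
  have h3 : HasFDerivAt g (fderiv ℝ g (pc r θ)) (pc r θ) := (hs.differentiable (by simp) _).hasFDerivAt
  have h5 : HasDerivAt (fun θ => g (pc r θ)) (fderiv ℝ g (pc r θ) (((-(r * sin θ) : ℝ) : ℂ) +
      ((r * cos θ : ℝ) : ℂ) * Complex.I)) θ := h3.comp_hasDerivAt θ h2
  rw [h5.deriv, lin_comb (fderiv ℝ g (pc r θ)) (-(r * sin θ)) (r * cos θ)]
  ring

private theorem trig_pc (k : ℕ) {r : ℝ} (hr : 0 < r) (θ : ℝ) :
    trig k true (pc r θ) = cos (k * θ) ∧ trig k false (pc r θ) = sin (k * θ) := by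
  have h1 : pc r θ / ((‖pc r θ‖ : ℝ) : ℂ) = cos θ + sin θ * Complex.I := by
    rw [pc_norm, abs_of_pos hr]
    unfold pc
    have : (r : ℂ) ≠ 0 := by exact_mod_cast hr.ne'
    field_simp
  unfold trig
  simp only [if_true, Bool.false_eq_true, if_false]
  have h4 : (pc r θ / ((‖pc r θ‖ : ℝ) : ℂ)) ^ k =
      ((cos (k * θ) : ℝ) : ℂ) + ((sin (k * θ) : ℝ) : ℂ) * Complex.I := by
    rw [h1]
    push_cast
    exact Complex.cos_add_sin_mul_I_pow k θ
  rw [h4]
  generalize cos (k * θ) = x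
  generalize sin (k * θ) = y
  constructor
  · simp
  · simp

/-! ### weights -/

private noncomputable def W0 (r : ℝ) : ℝ := r * 1
private noncomputable def W1 (ρ r : ℝ) : ℝ := r * wgt ρ r
private noncomputable def W2 (ρ r : ℝ) : ℝ := r * (if r < 0.96 * ρ then 1 else 0)
private noncomputable def W3 (μ : ℕ) (F : ℝ → ℝ) (r : ℝ) : ℝ := r * VV μ F r
private noncomputable def W4 (r : ℝ) : ℝ := r⁻¹

private theorem WB_of_cont {w : ℝ → ℝ} (hw : Continuous w) : WB a b w := by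
  refine ⟨hw.measurable, ?_⟩
  obtain ⟨M, hM⟩ := (isCompact_Icc (a := a) (b := b)).exists_bound_of_continuousOn hw.continuousOn
  exact ⟨M, fun r h1 h2 => hM r ⟨h1, h2⟩⟩

private theorem W0_WB : WB a b W0 := WB_of_cont (by unfold W0; fun_prop)

private theorem wgt_bd (ρ r : ℝ) : 0 ≤ wgt ρ r ∧ wgt ρ r ≤ 1 := by
  unfold wgt
  exact ⟨le_min zero_le_one (by positivity), min_le_left _ _⟩

private theorem W1_WB (ha : 0 < a) (ρ : ℝ) : WB a b (W1 ρ) := by
  refine ⟨?_, b, fun r h1 h2 => ?_⟩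
  · unfold W1 wgt
    exact measurable_id.mul (measurable_const.min ((measurable_const.div measurable_id).pow_const 4))
  · obtain ⟨h3, h4⟩ := wgt_bd ρ r
    have hr : 0 < r := lt_of_lt_of_le ha h1
    unfold W1
    rw [abs_mul, abs_of_pos hr, abs_of_nonneg h3]
    nlinarith only [h1, h2, h4, ha]

private theorem W2_WB (ha : 0 < a) (ρ : ℝ) : WB a b (W2 ρ) := by
  refine ⟨?_, b, fun r h1 h2 => ?_⟩
  · unfold W2
    exact measurable_id.mul (Measurable.ite measurableSet_Iio measurable_const measurable_const)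
  · have hr : 0 < r := lt_of_lt_of_le ha h1
    unfold W2
    split_ifs
    · rw [mul_one, abs_of_pos hr]
      exact h2
    · rw [mul_zero, abs_zero]
      linarith

private theorem VV_cont (μ : ℕ) {F : ℝ → ℝ} (hF : Continuous F) : Continuous (VV μ F) := by
  unfold VV yy
  fun_prop

private theorem W3_WB (μ : ℕ) {F : ℝ → ℝ} (hF : Continuous F) : WB a b (W3 μ F) := by
  have := VV_cont μ hF
  exact WB_of_cont (by unfold W3; fun_prop)

private theorem W4_WB (ha : 0 < a) : WB a b W4 := by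
  refine ⟨measurable_inv, a⁻¹, fun r h1 h2 => ?_⟩
  have hr : 0 < r := lt_of_lt_of_le ha h1
  unfold W4
  rw [abs_of_pos (inv_pos.2 hr)]
  exact inv_anti₀ ha h1

private noncomputable def II (w p : ℝ → ℝ) : ℝ := ∫ r in Ioi (0 : ℝ), w r * p r ^ 2

private noncomputable def OO (ρ : ℝ) (p : ℝ → ℝ) : ℝ := ∫ r in Ioi (0 : ℝ), om (r - ρ) * p r * r

private theorem II_nonneg {w : ℝ → ℝ} (hw : ∀ r, 0 < r → 0 ≤ w r) (p : ℝ → ℝ) : 0 ≤ II w p :=
  setIntegral_nonneg measurableSet_Ioi fun r hr => mul_nonneg (hw r hr) (sq_nonneg _)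

private theorem W1_nonneg (ρ r : ℝ) (hr : 0 < r) : 0 ≤ W1 ρ r := mul_nonneg hr.le (wgt_bd ρ r).1

private theorem W2_nonneg (ρ r : ℝ) (hr : 0 < r) : 0 ≤ W2 ρ r := by
  unfold W2
  split_ifs
  · linarith
  · rw [mul_zero]

private theorem t1 (ρ : ℝ) (p : ℝ → ℝ) :
    ∫ r in Ioi (0 : ℝ), wgt ρ r * p r ^ 2 * r = II (W1 ρ) p := by
  unfold II W1
  exact integral_congr_ae (Filter.Eventually.of_forall fun r => by ring)

private theorem t2 (ρ : ℝ) (p : ℝ → ℝ) :
    ∫ r in Ioo 0 (0.96 * ρ), p r ^ 2 * r = II (W2 ρ) p := by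
  unfold II W2
  have e : Ioo 0 (0.96 * ρ) = Ioi (0 : ℝ) ∩ Iio (0.96 * ρ) := rfl
  rw [e, ← setIntegral_indicator measurableSet_Iio]
  refine integral_congr_ae (Filter.Eventually.of_forall fun r => ?_)
  show (Iio (0.96 * ρ)).indicator (fun r => p r ^ 2 * r) r =
    r * (if r < 0.96 * ρ then 1 else 0) * p r ^ 2
  by_cases h : r < 0.96 * ρ
  · rw [indicator_of_mem (show r ∈ Iio (0.96 * ρ) from h), if_pos h]
    ring
  · rw [indicator_of_notMem (show r ∉ Iio (0.96 * ρ) from h), if_neg h]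
    ring

private theorem t3 (μ : ℕ) {F : ℝ → ℝ} (hF : Continuous F) {p q : ℝ → ℝ} (hp : Nice1 a b p)
    (hq : Nice1 a b q) (hd : ∀ r, HasDerivAt p (q r) r) :
    ∫ r in Ioi (0 : ℝ), (deriv p r ^ 2 + VV μ F r * p r ^ 2) * r = II W0 q + II (W3 μ F) p := by
  have h1 := int1 (W0_WB (a := a) (b := b)) hq.sq (Ioi (0 : ℝ))
  have h2 := int1 (W3_WB (a := a) (b := b) μ hF) hp.sq (Ioi (0 : ℝ))
  unfold II
  rw [← integral_add h1 h2]
  refine integral_congr_ae (Filter.Eventually.of_forall fun r => ?_)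
  show (deriv p r ^ 2 + VV μ F r * p r ^ 2) * r = W0 r * q r ^ 2 + W3 μ F r * p r ^ 2
  rw [(hd r).deriv]
  unfold W0 W3
  ring

private theorem t4 (p : ℝ → ℝ) : ∫ r in Ioi (0 : ℝ), p r ^ 2 / r = II W4 p := by
  unfold II W4
  exact integral_congr_ae (Filter.Eventually.of_forall fun r => by
    show p r ^ 2 / r = r⁻¹ * p r ^ 2
    rw [div_eq_inv_mul])

private theorem Nice1.cs {p : ℝ → ℝ} (hp : Nice1 a b p) : HasCompactSupport p := by
  refine HasCompactSupport.intro (isCompact_Icc (a := a) (b := b)) fun r hr => hp.2 r ?_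
  by_contra hcon
  push Not at hcon
  exact hr ⟨hcon.1, hcon.2⟩

/-- the one-dimensional inequality of W9 in our notation -/
private theorem key9 {μ : ℕ} {c1 c ρ : ℝ} (hc : c ≤ c1) {F : ℝ → ℝ} (hF : Continuous F)
    (H9 : ∀ f : ℝ → ℝ, ContDiff ℝ 1 f → HasCompactSupport f → (∀ r, r ≤ 0.92 * ρ → f r = 0) →
      c1 * (ρ ^ 2)⁻¹ * (∫ r in Ioi (0 : ℝ), wgt ρ r * f r ^ 2 * r)
        + c1 * (∫ r in Ioo 0 (0.96 * ρ), f r ^ 2 * r)
      ≤ (∫ r in Ioi (0 : ℝ), (deriv f r ^ 2 + VV μ F r * f r ^ 2) * r)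
        + ρ ^ 2 * (∫ r in Ioi (0 : ℝ), om (r - ρ) * f r * r) ^ 2)
    {p q : ℝ → ℝ} (hp : Nice1 a b p) (hq : Nice1 a b q) (hd : ∀ r, HasDerivAt p (q r) r)
    (hv : ∀ r, r ≤ 0.92 * ρ → p r = 0) :
    c * (ρ ^ 2)⁻¹ * II (W1 ρ) p + c * II (W2 ρ) p ≤ II W0 q + II (W3 μ F) p + ρ ^ 2 * OO ρ p ^ 2 := by
  have h1 := H9 p (c1_of hd hq.1) hp.cs hv
  rw [t1, t2, t3 μ hF hp hq hd] at h1
  refine le_trans ?_ h1
  have n1 := II_nonneg (W1_nonneg ρ) p
  have n2 := II_nonneg (W2_nonneg ρ) p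
  have n3 : 0 ≤ (ρ ^ 2)⁻¹ := by positivity
  have m1 : c * ((ρ ^ 2)⁻¹ * II (W1 ρ) p) ≤ c1 * ((ρ ^ 2)⁻¹ * II (W1 ρ) p) :=
    mul_le_mul_of_nonneg_right hc (by positivity)
  have m2 : c * II (W2 ρ) p ≤ c1 * II (W2 ρ) p := mul_le_mul_of_nonneg_right hc n2
  nlinarith only [m1, m2, m1, m2]

/-- the one-dimensional inequality of W10 in our notation -/
private theorem key10 {μ : ℕ} {c1 c ρ : ℝ} (hc : c ≤ c1) {F : ℝ → ℝ} (hF : Continuous F) (k : ℕ)
    (H10 : ∀ f : ℝ → ℝ, ContDiff ℝ 1 f → HasCompactSupport f → (∀ r, r ≤ 0.92 * ρ → f r = 0) →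
      c1 * (ρ ^ 2)⁻¹ * (∫ r in Ioi (0 : ℝ), wgt ρ r * f r ^ 2 * r)
        + c1 * (∫ r in Ioo 0 (0.96 * ρ), f r ^ 2 * r)
      ≤ (∫ r in Ioi (0 : ℝ), (deriv f r ^ 2 + VV μ F r * f r ^ 2) * r)
        + k ^ 2 * (∫ r in Ioi (0 : ℝ), f r ^ 2 / r))
    {p q : ℝ → ℝ} (hp : Nice1 a b p) (hq : Nice1 a b q) (hd : ∀ r, HasDerivAt p (q r) r)
    (hv : ∀ r, r ≤ 0.92 * ρ → p r = 0) :
    c * (ρ ^ 2)⁻¹ * II (W1 ρ) p + c * II (W2 ρ) p ≤
      II W0 q + II (W3 μ F) p + (k : ℝ) ^ 2 * II W4 p := by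
  have h1 := H10 p (c1_of hd hq.1) hp.cs hv
  rw [t1, t2, t3 μ hF hp hq hd, t4] at h1
  refine le_trans ?_ h1
  have n1 := II_nonneg (W1_nonneg ρ) p
  have n2 := II_nonneg (W2_nonneg ρ) p
  have n3 : 0 ≤ (ρ ^ 2)⁻¹ := by positivity
  have m1 : c * ((ρ ^ 2)⁻¹ * II (W1 ρ) p) ≤ c1 * ((ρ ^ 2)⁻¹ * II (W1 ρ) p) :=
    mul_le_mul_of_nonneg_right hc (by positivity)
  have m2 : c * II (W2 ρ) p ≤ c1 * II (W2 ρ) p := mul_le_mul_of_nonneg_right hc n2
  nlinarith only [m1, m2, m1, m2]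

end infra

/-! ### B2 the scalar two-dimensional form -/
theorem polar_form (μ : ℕ) (hμ : 1 ≤ μ) (K : ℕ) (hK : kmu μ < K + 1) :
    ∃ c > 0, ∃ ρ₀ : ℝ, ∀ ρ ε F, Wall ρ ε F → ρ₀ ≤ ρ → ∀ f : ℂ → ℝ, ContDiff ℝ ∞ f →
      HasCompactSupport f → (∀ z, ‖z‖ ≤ 0.92 * ρ → f z = 0) →
      c * (ρ ^ 2)⁻¹ * (∫ z : ℂ, wgt ρ ‖z‖ * f z ^ 2)
        + c * (∫ z in {z : ℂ | ‖z‖ < 0.96 * ρ}, f z ^ 2)
      ≤ (∫ z : ℂ, (fderiv ℝ f z 1 ^ 2 + fderiv ℝ f z Complex.I ^ 2 + VV μ F ‖z‖ * f z ^ 2))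
        + ρ ^ 2 * ∑ k ∈ Finset.range (K + 1),
          ((∫ z : ℂ, om (‖z‖ - ρ) * trig k true z * f z) ^ 2
            + (∫ z : ℂ, om (‖z‖ - ρ) * trig k false z * f z) ^ 2) := by
  have hK' : kmu μ < ((K + 1 : ℕ) : ℝ) := by push_cast; exact hK
  obtain ⟨c1, hc1, ρ1, h9⟩ := form_penalty μ hμ
  obtain ⟨c2, hc2, ρ2, h10⟩ := form_high μ hμ (K + 1) hK'
  refine ⟨min c1 c2, lt_min hc1 hc2, max ρ1 ρ2, fun ρ ε F hW hρ f hf hcs hvan => ?_⟩
  have H9 := h9 ρ ε F hW ((le_max_left _ _).trans hρ)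
  have H10 := h10 ρ ε F hW ((le_max_right _ _).trans hρ)
  obtain ⟨c, hc⟩ : ∃ c, c = min c1 c2 := ⟨_, rfl⟩
  rw [← hc]
  have hcc1 : c ≤ c1 := by rw [hc]; exact min_le_left _ _
  have hcc2 : c ≤ c2 := by rw [hc]; exact min_le_right _ _
  have hρ100 : 100 ≤ ρ := hW.hρ
  have hF : Continuous F := hW.smooth.continuous
  obtain ⟨a, haρ⟩ : ∃ a, a = 0.92 * ρ := ⟨_, rfl⟩
  have ha : 0 < a := by rw [haρ]; linarith only [hρ100]
  obtain ⟨b, hb⟩ : ∃ b, ∀ z : ℂ, b < ‖z‖ → f z = 0 := by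
    obtain ⟨b, hb⟩ := hcs.isCompact.isBounded.subset_closedBall (0 : ℂ)
    refine ⟨b, fun z hz => ?_⟩
    by_contra hne
    have h1 : z ∈ tsupport f := subset_tsupport _ hne
    have h2 := hb h1
    rw [mem_closedBall_zero_iff] at h2
    linarith
  have hv : ∀ z : ℂ, ‖z‖ < a ∨ b < ‖z‖ → f z = 0 := by
    rintro z (hz | hz)
    · exact hvan z (by rw [← haρ]; exact hz.le)
    · exact hb z hz
  have hv' : ∀ z : ℂ, ‖z‖ < a ∨ b < ‖z‖ → fderiv ℝ f z = 0 := by
    intro z hz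
    have h1 : f =ᶠ[nhds z] fun _ => 0 :=
      Filter.eventually_of_mem (((isOpen_out a b).preimage continuous_norm).mem_nhds hz)
        fun w hw => hv w hw
    rw [h1.fderiv_eq]
    simp
  have hfd : ContDiff ℝ ∞ (fderiv ℝ f) := hf.fderiv_right (m := ∞) (by simp)
  have sG : SP a b (Lf f) := Lf_SP ha hf hv
  have sX : SP a b (Lf fun z => fderiv ℝ f z 1) :=
    Lf_SP ha (hfd.clm_apply contDiff_const) fun z hz => by rw [hv' z hz]; simp
  have sY : SP a b (Lf fun z => fderiv ℝ f z Complex.I) :=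
    Lf_SP ha (hfd.clm_apply contDiff_const) fun z hz => by rw [hv' z hz]; simp
  obtain ⟨G, hG⟩ : ∃ G, G = Lf f := ⟨_, rfl⟩
  obtain ⟨X, hX⟩ : ∃ X, X = Lf fun z => fderiv ℝ f z 1 := ⟨_, rfl⟩
  obtain ⟨Y, hY⟩ : ∃ Y, Y = Lf fun z => fderiv ℝ f z Complex.I := ⟨_, rfl⟩
  rw [← hG] at sG
  rw [← hX] at sX
  rw [← hY] at sY
  have sD : SP a b (dr G) := sG.dr_SP
  have nG := sG.nice
  have nD := sD.nice
  have hGp : ∀ r θ, 0 < r → f (pc r θ) = G r θ := fun r θ hr => by rw [hG, Lf_pos f hr]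
  have hXp : ∀ r θ, 0 < r → fderiv ℝ f (pc r θ) 1 = X r θ := fun r θ hr => by
    rw [hX, Lf_pos (fun z => fderiv ℝ f z 1) hr]
  have hYp : ∀ r θ, 0 < r → fderiv ℝ f (pc r θ) Complex.I = Y r θ := fun r θ hr => by
    rw [hY, Lf_pos (fun z => fderiv ℝ f z Complex.I) hr]
  have hD : ∀ r θ, 0 < r → dr G r θ = cos θ * X r θ + sin θ * Y r θ := fun r θ hr => by
    rw [hG, Lf_dr ha hf hv hr, hXp r θ hr, hYp r θ hr]
  obtain ⟨Q, hQ⟩ : ∃ Q : ℝ → ℝ → ℝ, Q = fun r θ => -sin θ * X r θ + cos θ * Y r θ := ⟨_, rfl⟩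
  have hT : ∀ r θ, 0 < r → dt G r θ = r * Q r θ := fun r θ hr => by
    rw [hG, Lf_dt ha hf hv hr, hXp r θ hr, hYp r θ hr, hQ]
  have nQ : Nice a b Q := by
    rw [hQ]
    have cX : Continuous fun q : ℝ × ℝ => X q.1 q.2 := sX.sm.continuous
    have cY : Continuous fun q : ℝ × ℝ => Y q.1 q.2 := sY.sm.continuous
    refine ⟨?_, fun r θ hr => ?_⟩
    · show Continuous fun q : ℝ × ℝ => -sin q.2 * X q.1 q.2 + cos q.2 * Y q.1 q.2
      fun_prop
    · show -sin θ * X r θ + cos θ * Y r θ = 0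
      rw [sX.out r θ hr, sY.out r θ hr, mul_zero, mul_zero, add_zero]
  -- values for small radii
  have hG0 : ∀ r, r ≤ 0.92 * ρ → ∀ θ, G r θ = 0 := by
    intro r hr θ
    rw [hG]
    unfold Lf
    split_ifs with h
    · refine hvan _ ?_
      rw [pc_norm, abs_of_pos h]
      exact hr
    · rfl
  have zma : ∀ r, r ≤ 0.92 * ρ → ma (G r) = 0 := by
    intro r hr
    unfold ma
    simp [hG0 r hr]
  have zca : ∀ k r, r ≤ 0.92 * ρ → ca (G r) k = 0 := by
    intro k r hr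
    unfold ca
    simp [hG0 r hr]
  have zsa : ∀ k r, r ≤ 0.92 * ρ → sa (G r) k = 0 := by
    intro k r hr
    unfold sa
    simp [hG0 r hr]
  have zrem : ∀ θ r, r ≤ 0.92 * ρ → rem (G r) K θ = 0 := by
    intro θ r hr
    unfold rem
    rw [hG0 r hr, zma r hr, Finset.sum_eq_zero]
    · norm_num
    · intro k _
      rw [zca k r hr, zsa k r hr, zero_mul, zero_mul, add_zero]
  -- polar forms
  have P1 : ∫ z : ℂ, wgt ρ ‖z‖ * f z ^ 2 =
      ∫ r in Ioi (0 : ℝ), W1 ρ r * (∫ θ in (-π)..π, G r θ ^ 2) :=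
    polar_int (w := wgt ρ) (W1_WB ha ρ) nG.sq (fun z => f z ^ 2) fun r θ hr => by rw [hGp r θ hr]
  have P2 : ∫ z in {z : ℂ | ‖z‖ < 0.96 * ρ}, f z ^ 2 =
      ∫ r in Ioi (0 : ℝ), W2 ρ r * (∫ θ in (-π)..π, G r θ ^ 2) := by
    have h1 := polar_int (w := fun r => if r < 0.96 * ρ then 1 else 0) (W2_WB ha ρ) nG.sq
      (fun z => f z ^ 2) fun r θ hr => by rw [hGp r θ hr]
    have h2 : MeasurableSet {z : ℂ | ‖z‖ < 0.96 * ρ} :=
      (isOpen_lt continuous_norm continuous_const).measurableSet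
    rw [← integral_indicator h2]
    refine Eq.trans ?_ h1
    refine integral_congr_ae (Filter.Eventually.of_forall fun z => ?_)
    show {z : ℂ | ‖z‖ < 0.96 * ρ}.indicator (fun z => f z ^ 2) z =
      (if ‖z‖ < 0.96 * ρ then 1 else 0) * f z ^ 2
    by_cases h : ‖z‖ < 0.96 * ρ
    · rw [indicator_of_mem (show z ∈ {z : ℂ | ‖z‖ < 0.96 * ρ} from h), if_pos h, one_mul]
    · rw [indicator_of_notMem (show z ∉ {z : ℂ | ‖z‖ < 0.96 * ρ} from h), if_neg h, zero_mul]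
  have jD : Nice1 a b (fun r => ∫ θ in (-π)..π, dr G r θ ^ 2) := by
    have h1 := par_nice nD.sq (fun _ => 1) continuous_const
    simp only [mul_one] at h1
    exact h1
  have jQ : Nice1 a b (fun r => ∫ θ in (-π)..π, Q r θ ^ 2) := by
    have h1 := par_nice nQ.sq (fun _ => 1) continuous_const
    simp only [mul_one] at h1
    exact h1
  have jG : Nice1 a b (fun r => ∫ θ in (-π)..π, G r θ ^ 2) := by
    have h1 := par_nice nG.sq (fun _ => 1) continuous_const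
    simp only [mul_one] at h1
    exact h1
  have jR : Nice1 a b (fun r => ∫ θ in (-π)..π, rem (G r) K θ ^ 2) := by
    have h1 := par_nice (rem_nice nG K).sq (fun _ => 1) continuous_const
    simp only [mul_one] at h1
    exact h1
  have P3 : ∫ z : ℂ, (fderiv ℝ f z 1 ^ 2 + fderiv ℝ f z Complex.I ^ 2 + VV μ F ‖z‖ * f z ^ 2) =
      (∫ r in Ioi (0 : ℝ), W0 r * (∫ θ in (-π)..π, dr G r θ ^ 2)) +
      (∫ r in Ioi (0 : ℝ), W0 r * (∫ θ in (-π)..π, Q r θ ^ 2)) +
      ∫ r in Ioi (0 : ℝ), W3 μ F r * (∫ θ in (-π)..π, G r θ ^ 2) := by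
    have cX : Continuous fun q : ℝ × ℝ => X q.1 q.2 := sX.sm.continuous
    have cY : Continuous fun q : ℝ × ℝ => Y q.1 q.2 := sY.sm.continuous
    have cG : Continuous fun q : ℝ × ℝ => G q.1 q.2 := sG.sm.continuous
    have cV : Continuous fun q : ℝ × ℝ => VV μ F q.1 := (VV_cont μ hF).comp continuous_fst
    have hN : Nice a b (fun r θ => X r θ ^ 2 + Y r θ ^ 2 + VV μ F r * G r θ ^ 2) := by
      refine ⟨?_, fun r θ hr => ?_⟩
      · show Continuous fun q : ℝ × ℝ => X q.1 q.2 ^ 2 + Y q.1 q.2 ^ 2 + VV μ F q.1 * G q.1 q.2 ^ 2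
        fun_prop
      · show X r θ ^ 2 + Y r θ ^ 2 + VV μ F r * G r θ ^ 2 = 0
        rw [sX.out r θ hr, sY.out r θ hr, sG.out r θ hr]
        norm_num
    have h1 := polar_int (w := fun _ => 1) W0_WB hN
      (fun z => fderiv ℝ f z 1 ^ 2 + fderiv ℝ f z Complex.I ^ 2 + VV μ F ‖z‖ * f z ^ 2)
      fun r θ hr => by
        show fderiv ℝ f (pc r θ) 1 ^ 2 + fderiv ℝ f (pc r θ) Complex.I ^ 2 +
          VV μ F ‖pc r θ‖ * f (pc r θ) ^ 2 = _
        rw [hXp r θ hr, hYp r θ hr, hGp r θ hr, pc_norm, abs_of_pos hr]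
    simp only [one_mul] at h1
    rw [h1]
    have i1 := int1 (W0_WB (a := a) (b := b)) jD (Ioi (0 : ℝ))
    have i2 := int1 (W0_WB (a := a) (b := b)) jQ (Ioi (0 : ℝ))
    have i3 := int1 (W3_WB (a := a) (b := b) μ hF) jG (Ioi (0 : ℝ))
    have i12 : Integrable (fun r => W0 r * (∫ θ in (-π)..π, dr G r θ ^ 2) +
        W0 r * (∫ θ in (-π)..π, Q r θ ^ 2)) (volume.restrict (Ioi (0 : ℝ))) := i1.add i2
    rw [← integral_add i1 i2, ← integral_add i12 i3]
    refine setIntegral_congr_fun measurableSet_Ioi fun r hr => ?_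
    have hr' : 0 < r := hr
    show r * 1 * (∫ θ in (-π)..π, (X r θ ^ 2 + Y r θ ^ 2 + VV μ F r * G r θ ^ 2)) =
      W0 r * (∫ θ in (-π)..π, dr G r θ ^ 2) + W0 r * (∫ θ in (-π)..π, Q r θ ^ 2) +
      W3 μ F r * (∫ θ in (-π)..π, G r θ ^ 2)
    have e1 : ∀ θ, X r θ ^ 2 + Y r θ ^ 2 + VV μ F r * G r θ ^ 2 =
        dr G r θ ^ 2 + Q r θ ^ 2 + VV μ F r * G r θ ^ 2 := by
      intro θ
      have h2 : dr G r θ ^ 2 + Q r θ ^ 2 = X r θ ^ 2 + Y r θ ^ 2 := by
        rw [hD r θ hr', hQ]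
        linear_combination (X r θ ^ 2 + Y r θ ^ 2) * Real.sin_sq_add_cos_sq θ
      rw [h2]
    simp only [e1]
    have cD : Continuous fun θ => dr G r θ := (sD.sm.continuous).comp (by fun_prop : Continuous fun θ : ℝ => (r, θ))
    have cQ : Continuous fun θ => Q r θ := nQ.1.comp (by fun_prop : Continuous fun θ : ℝ => (r, θ))
    have cG' : Continuous fun θ => G r θ := (sG.sm.continuous).comp (by fun_prop : Continuous fun θ : ℝ => (r, θ))
    have iD : IntervalIntegrable (fun θ => dr G r θ ^ 2) volume (-π) π :=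
      (cD.pow 2).intervalIntegrable _ _
    have iQ : IntervalIntegrable (fun θ => Q r θ ^ 2) volume (-π) π :=
      (cQ.pow 2).intervalIntegrable _ _
    have iV : IntervalIntegrable (fun θ => VV μ F r * G r θ ^ 2) volume (-π) π :=
      (continuous_const.mul (cG'.pow 2)).intervalIntegrable _ _
    have iDQ : IntervalIntegrable (fun θ => dr G r θ ^ 2 + Q r θ ^ 2) volume (-π) π := iD.add iQ
    rw [intervalIntegral.integral_add iDQ iV, intervalIntegral.integral_add iD iQ,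
      intervalIntegral.integral_const_mul]
    unfold W0 W3
    ring
  -- angular part
  have P4 : ((K + 1 : ℕ) : ℝ) ^ 2 * (∫ θ in (-π)..π, II W4 (fun r => rem (G r) K θ)) ≤
      ∫ r in Ioi (0 : ℝ), W0 r * (∫ θ in (-π)..π, Q r θ ^ 2) := by
    have h1 : ∫ θ in (-π)..π, II W4 (fun r => rem (G r) K θ) =
        ∫ r in Ioi (0 : ℝ), W4 r * (∫ θ in (-π)..π, rem (G r) K θ ^ 2) :=
      (swap2 (W4_WB ha) (rem_nice nG K).sq).symm
    rw [h1, ← integral_const_mul]
    have i1 := int1 (W4_WB (b := b) ha) jR (Ioi (0 : ℝ))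
    have i2 := int1 (W0_WB (a := a) (b := b)) jQ (Ioi (0 : ℝ))
    refine setIntegral_mono_on (i1.const_mul _) i2 measurableSet_Ioi fun r hr => ?_
    have hr' : 0 < r := hr
    have h2 := (angular_SP sG K r).2
    have h3 : ∫ θ in (-π)..π, dt G r θ ^ 2 = r ^ 2 * ∫ θ in (-π)..π, Q r θ ^ 2 := by
      rw [← intervalIntegral.integral_const_mul]
      refine intervalIntegral.integral_congr fun θ _ => ?_
      show dt G r θ ^ 2 = r ^ 2 * Q r θ ^ 2
      rw [hT r θ hr', mul_pow]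
    rw [h3] at h2
    unfold W4 W0
    push_cast
    calc ((K : ℝ) + 1) ^ 2 * (r⁻¹ * ∫ θ in (-π)..π, rem (G r) K θ ^ 2)
        = r⁻¹ * (((K : ℝ) + 1) ^ 2 * ∫ θ in (-π)..π, rem (G r) K θ ^ 2) := by ring
      _ ≤ r⁻¹ * (r ^ 2 * ∫ θ in (-π)..π, Q r θ ^ 2) :=
          mul_le_mul_of_nonneg_left h2 (inv_pos.2 hr').le
      _ = r * 1 * ∫ θ in (-π)..π, Q r θ ^ 2 := by field_simp
  -- decompositions
  have d1 : ∫ r in Ioi (0 : ℝ), W1 ρ r * (∫ θ in (-π)..π, G r θ ^ 2) =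
      2 * π * II (W1 ρ) (fun r => ma (G r)) +
      π * ∑ k ∈ Finset.Icc 1 K, (II (W1 ρ) (fun r => ca (G r) k) +
        II (W1 ρ) (fun r => sa (G r) k)) +
      ∫ θ in (-π)..π, II (W1 ρ) (fun r => rem (G r) K θ) := decomp sG K (W1_WB ha ρ)
  have d2 : ∫ r in Ioi (0 : ℝ), W2 ρ r * (∫ θ in (-π)..π, G r θ ^ 2) =
      2 * π * II (W2 ρ) (fun r => ma (G r)) +
      π * ∑ k ∈ Finset.Icc 1 K, (II (W2 ρ) (fun r => ca (G r) k) +
        II (W2 ρ) (fun r => sa (G r) k)) +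
      ∫ θ in (-π)..π, II (W2 ρ) (fun r => rem (G r) K θ) := decomp sG K (W2_WB ha ρ)
  have d3 : ∫ r in Ioi (0 : ℝ), W3 μ F r * (∫ θ in (-π)..π, G r θ ^ 2) =
      2 * π * II (W3 μ F) (fun r => ma (G r)) +
      π * ∑ k ∈ Finset.Icc 1 K, (II (W3 μ F) (fun r => ca (G r) k) +
        II (W3 μ F) (fun r => sa (G r) k)) +
      ∫ θ in (-π)..π, II (W3 μ F) (fun r => rem (G r) K θ) := decomp sG K (W3_WB μ hF)
  have d0 : ∫ r in Ioi (0 : ℝ), W0 r * (∫ θ in (-π)..π, dr G r θ ^ 2) =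
      2 * π * II W0 (fun r => ma (dr G r)) +
      π * ∑ k ∈ Finset.Icc 1 K, (II W0 (fun r => ca (dr G r) k) +
        II W0 (fun r => sa (dr G r) k)) +
      ∫ θ in (-π)..π, II W0 (fun r => rem (dr G r) K θ) := decomp sD K W0_WB
  -- one-dimensional inequalities
  have k0 := key9 hcc1 hF H9 (ma_nice nG) (ma_nice nD) (ma_deriv sG) zma
  have k1 := fun k => key9 hcc1 hF H9 (ca_nice nG k) (ca_nice nD k) (ca_deriv sG k) (zca k)
  have k2 := fun k => key9 hcc1 hF H9 (sa_nice nG k) (sa_nice nD k) (sa_deriv sG k) (zsa k)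
  have k3 := fun θ => key10 hcc2 hF (K + 1) H10 ((rem_nice nG K).sec θ) ((rem_nice nD K).sec θ)
    (fun r => rem_deriv sG K r θ) (zrem θ)
  have j1 : IntervalIntegrable (fun θ => II (W1 ρ) (fun r => rem (G r) K θ)) volume (-π) π :=
    int_swap (W1_WB ha ρ) (rem_nice nG K).sq
  have j2 : IntervalIntegrable (fun θ => II (W2 ρ) (fun r => rem (G r) K θ)) volume (-π) π :=
    int_swap (W2_WB ha ρ) (rem_nice nG K).sq
  have j3 : IntervalIntegrable (fun θ => II (W3 μ F) (fun r => rem (G r) K θ)) volume (-π) π :=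
    int_swap (W3_WB μ hF) (rem_nice nG K).sq
  have j4 : IntervalIntegrable (fun θ => II W4 (fun r => rem (G r) K θ)) volume (-π) π :=
    int_swap (W4_WB ha) (rem_nice nG K).sq
  have j0 : IntervalIntegrable (fun θ => II W0 (fun r => rem (dr G r) K θ)) volume (-π) π :=
    int_swap W0_WB (rem_nice nD K).sq
  have kI : c * (ρ ^ 2)⁻¹ * (∫ θ in (-π)..π, II (W1 ρ) (fun r => rem (G r) K θ)) +
      c * (∫ θ in (-π)..π, II (W2 ρ) (fun r => rem (G r) K θ)) ≤
      (∫ θ in (-π)..π, II W0 (fun r => rem (dr G r) K θ)) +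
      (∫ θ in (-π)..π, II (W3 μ F) (fun r => rem (G r) K θ)) +
      ((K + 1 : ℕ) : ℝ) ^ 2 * (∫ θ in (-π)..π, II W4 (fun r => rem (G r) K θ)) := by
    rw [← intervalIntegral.integral_const_mul, ← intervalIntegral.integral_const_mul,
      ← intervalIntegral.integral_const_mul,
      ← intervalIntegral.integral_add (j1.const_mul _) (j2.const_mul _),
      ← intervalIntegral.integral_add j0 j3,
      ← intervalIntegral.integral_add (j0.add j3) (j4.const_mul _)]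
    exact intervalIntegral.integral_mono_on pi_le ((j1.const_mul _).add (j2.const_mul _))
      ((j0.add j3).add (j4.const_mul _)) fun θ _ => k3 θ
  -- penalty terms
  have hom : Continuous om := by
    unfold om
    exact Real.smoothTransition.continuous.comp (by fun_prop)
  have homW : WB a b (fun r => r * om (r - ρ)) :=
    WB_of_cont (continuous_id.mul (hom.comp (continuous_id.sub continuous_const)))
  have Tc : ∀ k, ∫ z : ℂ, om (‖z‖ - ρ) * trig k true z * f z = π * OO ρ (fun r => ca (G r) k) := by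
    intro k
    have h1 := polar_int (w := fun s => om (s - ρ)) homW
      (nG.mul (Q := fun _ θ => cos (k * θ)) ((cosk_cont k).comp continuous_snd))
      (fun z => trig k true z * f z) fun r θ hr => by
        show trig k true (pc r θ) * f (pc r θ) = G r θ * cos (k * θ)
        rw [(trig_pc k hr θ).1, hGp r θ hr, mul_comm]
    have h2 : ∫ z : ℂ, om (‖z‖ - ρ) * trig k true z * f z =
        ∫ z : ℂ, om (‖z‖ - ρ) * (trig k true z * f z) :=
      integral_congr_ae (Filter.Eventually.of_forall fun z => mul_assoc _ _ _)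
    rw [h2, h1]
    unfold OO
    rw [← integral_const_mul]
    refine integral_congr_ae (Filter.Eventually.of_forall fun r => ?_)
    show r * om (r - ρ) * (∫ θ in (-π)..π, G r θ * cos (k * θ)) =
      π * (om (r - ρ) * (1 / π * ∫ θ in (-π)..π, G r θ * cos (k * θ)) * r)
    field_simp
  have Ts : ∀ k, ∫ z : ℂ, om (‖z‖ - ρ) * trig k false z * f z = π * OO ρ (fun r => sa (G r) k) := by
    intro k
    have h1 := polar_int (w := fun s => om (s - ρ)) homW
      (nG.mul (Q := fun _ θ => sin (k * θ)) ((sink_cont k).comp continuous_snd))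
      (fun z => trig k false z * f z) fun r θ hr => by
        show trig k false (pc r θ) * f (pc r θ) = G r θ * sin (k * θ)
        rw [(trig_pc k hr θ).2, hGp r θ hr, mul_comm]
    have h2 : ∫ z : ℂ, om (‖z‖ - ρ) * trig k false z * f z =
        ∫ z : ℂ, om (‖z‖ - ρ) * (trig k false z * f z) :=
      integral_congr_ae (Filter.Eventually.of_forall fun z => mul_assoc _ _ _)
    rw [h2, h1]
    unfold OO
    rw [← integral_const_mul]
    refine integral_congr_ae (Filter.Eventually.of_forall fun r => ?_)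
    show r * om (r - ρ) * (∫ θ in (-π)..π, G r θ * sin (k * θ)) =
      π * (om (r - ρ) * (1 / π * ∫ θ in (-π)..π, G r θ * sin (k * θ)) * r)
    field_simp
  have T0 : ∫ z : ℂ, om (‖z‖ - ρ) * trig 0 true z * f z = 2 * π * OO ρ (fun r => ma (G r)) := by
    rw [Tc 0]
    unfold OO
    rw [← integral_const_mul, ← integral_const_mul]
    refine integral_congr_ae (Filter.Eventually.of_forall fun r => ?_)
    show π * (om (r - ρ) * (1 / π * ∫ θ in (-π)..π, G r θ * cos ((0 : ℕ) * θ)) * r) =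
      2 * π * (om (r - ρ) * (1 / (2 * π) * ∫ θ in (-π)..π, G r θ) * r)
    simp only [Nat.cast_zero, zero_mul, Real.cos_zero, mul_one]
    field_simp
  have hrange : Finset.range (K + 1) = insert 0 (Finset.Icc 1 K) := by
    ext k
    simp only [Finset.mem_range, Finset.mem_insert, Finset.mem_Icc]
    omega
  have h0n : 0 ∉ Finset.Icc 1 K := by simp
  rw [P1, P2, P3, d1, d2, d3, d0, hrange, Finset.sum_insert h0n, T0]
  have hπ : 3 < π := Real.pi_gt_three
  -- sum over the modes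
  have hS : ∀ k, π * (c * (ρ ^ 2)⁻¹ * (II (W1 ρ) (fun r => ca (G r) k) +
      II (W1 ρ) (fun r => sa (G r) k)) + c * (II (W2 ρ) (fun r => ca (G r) k) +
      II (W2 ρ) (fun r => sa (G r) k))) ≤
      π * ((II W0 (fun r => ca (dr G r) k) + II W0 (fun r => sa (dr G r) k)) +
        (II (W3 μ F) (fun r => ca (G r) k) + II (W3 μ F) (fun r => sa (G r) k))) +
      ρ ^ 2 * ((∫ z : ℂ, om (‖z‖ - ρ) * trig k true z * f z) ^ 2 +
        (∫ z : ℂ, om (‖z‖ - ρ) * trig k false z * f z) ^ 2) := by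
    intro k
    rw [Tc, Ts]
    have q1 := mul_le_mul_of_nonneg_left (k1 k) (by linarith : (0 : ℝ) ≤ π)
    have q2 := mul_le_mul_of_nonneg_left (k2 k) (by linarith : (0 : ℝ) ≤ π)
    have q3 : ∀ x : ℝ, π * (ρ ^ 2 * x ^ 2) ≤ ρ ^ 2 * (π * x) ^ 2 := by
      intro x
      have h1 : 0 ≤ (π * (π - 1)) * (ρ ^ 2 * x ^ 2) :=
        mul_nonneg (mul_nonneg (by linarith) (by linarith)) (by (clear * - hρ100; positivity))
      have h2 : ρ ^ 2 * (π * x) ^ 2 - π * (ρ ^ 2 * x ^ 2) = (π * (π - 1)) * (ρ ^ 2 * x ^ 2) := by ring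
      linarith
    have q4 := q3 (OO ρ (fun r => ca (G r) k))
    have q5 := q3 (OO ρ (fun r => sa (G r) k))
    linarith only [q1, q2, q4, q5]
  have hSum := Finset.sum_le_sum fun k (_ : k ∈ Finset.Icc 1 K) => hS k
  simp only [← Finset.mul_sum, Finset.sum_add_distrib, mul_add] at hSum
  have q0 := mul_le_mul_of_nonneg_left k0 (by linarith only [hπ] : (0 : ℝ) ≤ 2 * π)
  have q6 : 2 * π * (ρ ^ 2 * OO ρ (fun r => ma (G r)) ^ 2) ≤
      ρ ^ 2 * (2 * π * OO ρ (fun r => ma (G r))) ^ 2 := by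
    have h1 : 0 ≤ (2 * π * (2 * π - 1)) * (ρ ^ 2 * OO ρ (fun r => ma (G r)) ^ 2) :=
      mul_nonneg (mul_nonneg (by linarith only [hπ]) (by linarith)) (by positivity)
    have h2 : ρ ^ 2 * (2 * π * OO ρ (fun r => ma (G r))) ^ 2 -
        2 * π * (ρ ^ 2 * OO ρ (fun r => ma (G r)) ^ 2) =
        (2 * π * (2 * π - 1)) * (ρ ^ 2 * OO ρ (fun r => ma (G r)) ^ 2) := by ring
    linarith
  have q7 : 0 ≤ ρ ^ 2 * (∫ z : ℂ, om (‖z‖ - ρ) * trig 0 false z * f z) ^ 2 := by (clear * - hρ100; positivity)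
  simp only [Finset.sum_add_distrib, mul_add]
  linarith only [P4, hSum, kI, q0, q6, q7]

end Pool.MP_ad5d82_an.Wl
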