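import Pool.Agent.Lib.MP_ad5d82_an.h24.BDefs
import Pool.Agent.Lib.MP_ad5d82_an.h24.B.B2

set_option autoImplicit false

namespace Pool.MP_ad5d82_an.Wl

open Real Set MeasureTheory
open scoped ContDiff

/-! ### auxiliary: the transition angle -/

/-- the transition angle -/
noncomputable def b3Th (w : ℂ) : ℝ :=
  π / 2 * Real.smoothTransition ((‖w‖ ^ 2 - 0.8464) / 0.0372)

theorem b3Th_contDiff : ContDiff ℝ ∞ b3Th := by
  unfold b3Th
  have h1 : ContDiff ℝ ∞ (fun w : ℂ => ‖w‖ ^ 2) := contDiff_norm_sq ℝ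
  exact contDiff_const.mul
    (Real.smoothTransition.contDiff.comp ((h1.sub contDiff_const).div_const _))

theorem b3Th_zero {w : ℂ} (hw : ‖w‖ ≤ 0.92) : b3Th w = 0 := by
  have h0 := norm_nonneg w
  have h : (‖w‖ ^ 2 - 0.8464) / 0.0372 ≤ 0 := by
    apply div_nonpos_of_nonpos_of_nonneg
    · nlinarith only [h0, hw]
    · norm_num
  unfold b3Th
  rw [Real.smoothTransition.zero_of_nonpos h]
  ring

theorem b3Th_one {w : ℂ} (hw : 0.94 ≤ ‖w‖) : b3Th w = π / 2 := by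
  have h0 := norm_nonneg w
  have h : 1 ≤ (‖w‖ ^ 2 - 0.8464) / 0.0372 := by
    rw [le_div_iff₀ (by norm_num)]
    nlinarith only [hw]
  unfold b3Th
  rw [Real.smoothTransition.one_of_one_le h]
  ring

theorem b3Th_fderiv_zero {w : ℂ} (hw : ‖w‖ < 0.92) : fderiv ℝ b3Th w = 0 := by
  have h1 : b3Th =ᶠ[nhds w] fun _ => (0 : ℝ) := by
    have : {z : ℂ | ‖z‖ < 0.92} ∈ nhds w :=
      (isOpen_lt continuous_norm continuous_const).mem_nhds hw
    filter_upwards [this] with z hz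
    exact b3Th_zero (le_of_lt hz)
  rw [h1.fderiv_eq]
  simp

theorem b3Th_fderiv_one {w : ℂ} (hw : 0.94 < ‖w‖) : fderiv ℝ b3Th w = 0 := by
  have h1 : b3Th =ᶠ[nhds w] fun _ => π / 2 := by
    have : {z : ℂ | 0.94 < ‖z‖} ∈ nhds w :=
      (isOpen_lt continuous_const continuous_norm).mem_nhds hw
    filter_upwards [this] with z hz
    exact b3Th_one (le_of_lt hz)
  rw [h1.fderiv_eq]
  simp

theorem b3Th_bound : ∃ C : ℝ, 0 ≤ C ∧ ∀ w, ‖fderiv ℝ b3Th w‖ ≤ C := by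
  have hc : Continuous (fun w => ‖fderiv ℝ b3Th w‖) :=
    (b3Th_contDiff.continuous_fderiv (by simp)).norm
  obtain ⟨C, hC⟩ := (isCompact_closedBall (0 : ℂ) 1).bddAbove_image hc.continuousOn
  refine ⟨max C 0, le_max_right _ _, fun w => ?_⟩
  by_cases hw : ‖w‖ ≤ 1
  · refine le_trans ?_ (le_max_left _ _)
    apply hC
    exact ⟨w, by simpa using hw, rfl⟩
  · push Not at hw
    rw [b3Th_fderiv_one (by linarith)]
    simp

/-- scaled and translated transition angle -/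
noncomputable def b3T (ρ : ℝ) (ξ x : ℂ) : ℝ := b3Th (ρ⁻¹ • (x - ξ))

theorem b3T_contDiff (ρ : ℝ) (ξ : ℂ) : ContDiff ℝ ∞ (b3T ρ ξ) := by
  unfold b3T
  have h : ContDiff ℝ ∞ (fun x : ℂ => ρ⁻¹ • (x - ξ)) :=
    (contDiff_id.sub contDiff_const).const_smul ρ⁻¹
  exact b3Th_contDiff.comp h

theorem b3T_norm {ρ : ℝ} (hρ : 0 < ρ) (ξ x : ℂ) : ‖ρ⁻¹ • (x - ξ)‖ = ‖x - ξ‖ / ρ := by
  rw [norm_smul, Real.norm_eq_abs, abs_of_pos (inv_pos.2 hρ)]
  field_simp

theorem b3T_zero {ρ : ℝ} (hρ : 0 < ρ) {ξ x : ℂ} (h : ‖x - ξ‖ ≤ 0.92 * ρ) : b3T ρ ξ x = 0 := by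
  apply b3Th_zero
  rw [b3T_norm hρ, div_le_iff₀ hρ]
  exact h

theorem b3T_one {ρ : ℝ} (hρ : 0 < ρ) {ξ x : ℂ} (h : 0.94 * ρ ≤ ‖x - ξ‖) : b3T ρ ξ x = π / 2 := by
  apply b3Th_one
  rw [b3T_norm hρ, le_div_iff₀ hρ]
  exact h

theorem b3T_fderiv {ρ : ℝ} (ξ x v : ℂ) :
    fderiv ℝ (b3T ρ ξ) x v = ρ⁻¹ * fderiv ℝ b3Th (ρ⁻¹ • (x - ξ)) v := by
  have h1 : HasFDerivAt (fun x : ℂ => ρ⁻¹ • (x - ξ)) (ρ⁻¹ • ContinuousLinearMap.id ℝ ℂ) x :=
    ((hasFDerivAt_id x).sub_const ξ).const_smul ρ⁻¹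
  have h2 : HasFDerivAt b3Th (fderiv ℝ b3Th (ρ⁻¹ • (x - ξ))) (ρ⁻¹ • (x - ξ)) :=
    ((b3Th_contDiff.differentiable (by simp)) _).hasFDerivAt
  have h3 := (h2.comp x h1).fderiv
  have h4 : (b3Th ∘ fun x : ℂ => ρ⁻¹ • (x - ξ)) = b3T ρ ξ := rfl
  rw [h4] at h3
  rw [h3]
  simp

theorem b3T_fderiv_zero {ρ : ℝ} (hρ : 0 < ρ) {ξ x : ℂ} (v : ℂ) (h : ‖x - ξ‖ < 0.92 * ρ) :
    fderiv ℝ (b3T ρ ξ) x v = 0 := by
  rw [b3T_fderiv, b3Th_fderiv_zero (by rw [b3T_norm hρ, div_lt_iff₀ hρ]; exact h)]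
  simp

theorem b3T_fderiv_one {ρ : ℝ} (hρ : 0 < ρ) {ξ x : ℂ} (v : ℂ) (h : 0.94 * ρ < ‖x - ξ‖) :
    fderiv ℝ (b3T ρ ξ) x v = 0 := by
  rw [b3T_fderiv, b3Th_fderiv_one (by rw [b3T_norm hρ, lt_div_iff₀ hρ]; exact h)]
  simp

theorem b3T_fderiv_bound {C : ℝ} (hC : ∀ w, ‖fderiv ℝ b3Th w‖ ≤ C) (hC0 : 0 ≤ C) {ρ : ℝ}
    (hρ : 0 < ρ) (ξ x v : ℂ) (hv : ‖v‖ ≤ 1) :
    fderiv ℝ (b3T ρ ξ) x v ^ 2 ≤ C ^ 2 * (ρ ^ 2)⁻¹ := by
  rw [b3T_fderiv, mul_pow]
  have h1 : |fderiv ℝ b3Th (ρ⁻¹ • (x - ξ)) v| ≤ C := by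
    have := (fderiv ℝ b3Th (ρ⁻¹ • (x - ξ))).le_opNorm v
    rw [Real.norm_eq_abs] at this
    calc _ ≤ _ := this
      _ ≤ C * 1 := by
        apply mul_le_mul (hC _) hv (norm_nonneg _) hC0
      _ = C := mul_one C
  have h2 : fderiv ℝ b3Th (ρ⁻¹ • (x - ξ)) v ^ 2 ≤ C ^ 2 := by
    rw [← sq_abs]
    exact pow_le_pow_left₀ (abs_nonneg _) h1 2
  rw [inv_pow, mul_comm]
  exact mul_le_mul_of_nonneg_right h2 (by positivity)

/-! ### auxiliary: translated polar form -/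

theorem b3_polar (μ : ℕ) (hμ : 1 ≤ μ) (K : ℕ) (hK : kmu μ < K + 1) :
    ∃ c > 0, ∃ ρ₀ : ℝ, ∀ ρ ε F, Wall ρ ε F → ρ₀ ≤ ρ → ∀ ξ : ℂ, ∀ f : ℂ → ℝ, ContDiff ℝ ∞ f →
      HasCompactSupport f → (∀ x, ‖x - ξ‖ ≤ 0.92 * ρ → f x = 0) →
      c * (ρ ^ 2)⁻¹ * (∫ x : ℂ, wgt ρ ‖x - ξ‖ * f x ^ 2)
        + c * (∫ x in {x : ℂ | ‖x - ξ‖ < 0.96 * ρ}, f x ^ 2)
      ≤ (∫ x : ℂ, (fderiv ℝ f x 1 ^ 2 + fderiv ℝ f x Complex.I ^ 2 + VV μ F ‖x - ξ‖ * f x ^ 2))
        + ρ ^ 2 * ∑ k ∈ Finset.range (K + 1),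
          ((∫ x : ℂ, om (‖x - ξ‖ - ρ) * trig k true (x - ξ) * f x) ^ 2
            + (∫ x : ℂ, om (‖x - ξ‖ - ρ) * trig k false (x - ξ) * f x) ^ 2) := by
  obtain ⟨c, hc, ρ₀, h⟩ := polar_form μ hμ K hK
  refine ⟨c, hc, ρ₀, fun ρ ε F hW hρ ξ f hf hfc hf0 => ?_⟩
  have h1 := h ρ ε F hW hρ (fun z => f (z + ξ)) (hf.comp (contDiff_id.add contDiff_const))
    (hfc.comp_homeomorph (Homeomorph.addRight ξ)) (fun z hz => hf0 _ (by simpa using hz))
  have e0 : ∀ G : ℂ → ℝ, ∫ z : ℂ, G (z + ξ) = ∫ x : ℂ, G x := fun G =>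
    integral_add_right_eq_self G ξ
  have e1 : (∫ z : ℂ, wgt ρ ‖z‖ * f (z + ξ) ^ 2) = ∫ x : ℂ, wgt ρ ‖x - ξ‖ * f x ^ 2 := by
    rw [← e0 (fun x => wgt ρ ‖x - ξ‖ * f x ^ 2)]
    simp
  have e2 : (∫ z in {z : ℂ | ‖z‖ < 0.96 * ρ}, f (z + ξ) ^ 2) =
      ∫ x in {x : ℂ | ‖x - ξ‖ < 0.96 * ρ}, f x ^ 2 := by
    have m1 : MeasurableSet {z : ℂ | ‖z‖ < 0.96 * ρ} :=
      (isOpen_lt continuous_norm continuous_const).measurableSet
    have m2 : MeasurableSet {x : ℂ | ‖x - ξ‖ < 0.96 * ρ} :=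
      (isOpen_lt (by fun_prop) continuous_const).measurableSet
    rw [← integral_indicator m1, ← integral_indicator m2,
      ← e0 (({x : ℂ | ‖x - ξ‖ < 0.96 * ρ}).indicator fun x => f x ^ 2)]
    congr 1
    ext z
    simp [indicator]
  have e3 : (∫ z : ℂ, (fderiv ℝ (fun z => f (z + ξ)) z 1 ^ 2 +
      fderiv ℝ (fun z => f (z + ξ)) z Complex.I ^ 2 + VV μ F ‖z‖ * f (z + ξ) ^ 2)) =
      ∫ x : ℂ, (fderiv ℝ f x 1 ^ 2 + fderiv ℝ f x Complex.I ^ 2 + VV μ F ‖x - ξ‖ * f x ^ 2) := by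
    rw [← e0 (fun x => fderiv ℝ f x 1 ^ 2 + fderiv ℝ f x Complex.I ^ 2 +
      VV μ F ‖x - ξ‖ * f x ^ 2)]
    congr 1
    ext z
    rw [fderiv_comp_add_right]
    simp
  have e4 : ∀ (k : ℕ) (b : Bool), (∫ z : ℂ, om (‖z‖ - ρ) * trig k b z * f (z + ξ)) =
      ∫ x : ℂ, om (‖x - ξ‖ - ρ) * trig k b (x - ξ) * f x := by
    intro k b
    rw [← e0 (fun x => om (‖x - ξ‖ - ρ) * trig k b (x - ξ) * f x)]
    simp
  rw [e1, e2, e3] at h1
  simp only [e4] at h1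
  exact h1

/-! ### auxiliary: weights -/

theorem b3_wgt_nonneg (ρ r : ℝ) : 0 ≤ wgt ρ r := by
  unfold wgt
  exact le_min zero_le_one (by positivity)

theorem b3_wgt_le_one (ρ r : ℝ) : wgt ρ r ≤ 1 := min_le_left _ _

theorem b3_wgt_meas (ρ : ℝ) : Measurable (wgt ρ) := by
  unfold wgt
  exact measurable_const.min ((measurable_const.div measurable_id).pow_const 4)

theorem b3_y_le_wgt {ρ ε : ℝ} {F : ℝ → ℝ} (h : Wall ρ ε F) {r : ℝ} (hr : 0 < r) :
    yy F r ≤ wgt ρ r := by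
  have hρ : 0 < ρ := by linarith [h.hρ]
  have hy1 : yy F r ≤ 1 := by
    unfold yy
    rw [Real.exp_le_one_iff]
    linarith [s_le h hr.le, h.hε]
  unfold wgt
  apply le_min hy1
  rcases le_total r ρ with hrr | hrr
  · refine hy1.trans ?_
    have : 1 ≤ ρ / r := by rwa [le_div_iff₀ hr, one_mul]
    exact one_le_pow₀ this
  · have h1 := s_out h hrr
    have hl : 0 ≤ Real.log (r / ρ) := Real.log_nonneg (by rwa [le_div_iff₀ hρ, one_mul])
    have h2 : F (r ^ 2) ≤ 4 * Real.log (ρ / r) := by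
      have h3 : Real.log (ρ / r) = -Real.log (r / ρ) := by
        rw [← Real.log_inv, inv_div]
      have h4 : 0 < Real.log 2 := Real.log_pos (by norm_num)
      have h5 : 4 * Real.log (r / ρ) ≤ 0.45 * ρ * Real.log (r / ρ) := by
        apply mul_le_mul_of_nonneg_right _ hl
        linarith [h.hρ]
      rw [h3]
      linarith
    unfold yy
    calc exp (F (r ^ 2)) ≤ exp (4 * Real.log (ρ / r)) := Real.exp_le_exp.2 h2
      _ = (ρ / r) ^ 4 := by
        have hp : 0 < ρ / r := by positivity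
        have : (4 : ℝ) * Real.log (ρ / r) = Real.log ((ρ / r) ^ 4) := by
          rw [Real.log_pow]; norm_num
        rw [this, Real.exp_log (by positivity)]

theorem b3_wgt_comp {ρ r s : ℝ} (hs : 0 < s) (hr : 0 < r) (hsr : s ≤ 1.1 * r) :
    wgt ρ r ≤ 2 * wgt ρ s := by
  unfold wgt
  rcases le_total 1 ((ρ / s) ^ 4) with h1 | h1
  · rw [min_eq_left h1]
    linarith [min_le_left (1 : ℝ) ((ρ / r) ^ 4)]
  · rw [min_eq_right h1]
    refine (min_le_right _ _).trans ?_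
    rw [div_pow, div_pow]
    have h2 : s ^ 4 ≤ 2 * r ^ 4 := by
      calc s ^ 4 ≤ (1.1 * r) ^ 4 := pow_le_pow_left₀ hs.le hsr 4
        _ = 1.4641 * r ^ 4 := by ring
        _ ≤ 2 * r ^ 4 := by linarith [pow_pos hr 4]
    rw [div_le_iff₀ (by positivity)]
    have h3 : 2 * (ρ ^ 4 / s ^ 4) * r ^ 4 = ρ ^ 4 * ((2 * r ^ 4) / s ^ 4) := by ring
    rw [h3]
    have h4 : 1 ≤ 2 * r ^ 4 / s ^ 4 := by rwa [le_div_iff₀ (by positivity), one_mul]
    have h5 : 0 ≤ ρ ^ 4 := by positivity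
    nlinarith only [h4, h5]

/-- the potential is almost `≥ 1` inside -/
theorem b3_v_in {ρ ε : ℝ} {F : ℝ → ℝ} (h : Wall ρ ε F) (hρ : 400 ≤ ρ) {r : ℝ} (hr : 0 ≤ r)
    (hr' : r ≤ 0.94 * ρ) {m : ℝ} (hm : 1 ≤ m) :
    0.99 ≤ exp (2 * F (r ^ 2)) * (m + 1) - exp (F (r ^ 2)) := by
  have h1 := s_decay h hr (by linarith)
  have h2 : max r 16 ≤ 0.94 * ρ := max_le hr' (by linarith)
  have h3 : exp (-0.4 * (ρ - max r 16)) ≤ exp (-9) := by
    apply Real.exp_le_exp.2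
    linarith
  have h4 : exp (-9 : ℝ) ≤ 0.002 := by
    have h5 : (500 : ℝ) ≤ exp 9 := by
      have h6 : (2.7 : ℝ) ≤ exp 1 := by linarith only [Real.exp_one_gt_d9]
      have h7 : exp (9 : ℝ) = exp 1 ^ 9 := by
        rw [← Real.exp_nat_mul]; norm_num
      rw [h7]
      calc (500 : ℝ) ≤ 2.7 ^ 9 := by norm_num
        _ ≤ exp 1 ^ 9 := pow_le_pow_left₀ (by norm_num) h6 9
    rw [Real.exp_neg]
    calc (exp 9)⁻¹ ≤ (500 : ℝ)⁻¹ := by
          apply inv_anti₀ (by norm_num) h5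
      _ = 0.002 := by norm_num
  have h5 : 0.998 ≤ exp (F (r ^ 2)) := by
    have := Real.add_one_le_exp (F (r ^ 2))
    linarith only [h1, h3, h4, this]
  have h6 : exp (2 * F (r ^ 2)) = exp (F (r ^ 2)) ^ 2 := by
    rw [← Real.exp_nat_mul]; norm_num
  rw [h6]
  nlinarith only [h5, hm, sq_nonneg (exp (F (r ^ 2)))]

theorem b3_v_ge {s m : ℝ} (hm : 1 ≤ m) : -exp s ≤ exp (2 * s) * (m + 1) - exp s := by
  have := Real.exp_pos (2 * s)
  nlinarith

theorem b3_VV {μ : ℕ} (hμ : 1 ≤ μ) (F : ℝ → ℝ) (r : ℝ) :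
    exp (2 * F (r ^ 2)) * ((μ : ℝ) + 1) - exp (F (r ^ 2)) = (μ : ℝ)⁻¹ * VV μ F r := by
  have h6 : exp (2 * F (r ^ 2)) = exp (F (r ^ 2)) ^ 2 := by
    rw [← Real.exp_nat_mul]; norm_num
  have h7 : (μ : ℝ) ≠ 0 := by positivity
  unfold VV yy
  rw [h6]
  field_simp

theorem b3_int_comb {a b c d e f : ℂ → ℝ} (ha : Integrable a) (hb : Integrable b)
    (hc : Integrable c) (hd : Integrable d) (he : Integrable e) (hf : Integrable f)
    (h : ∀ x, a x + b x + c x ≤ d x - e x + f x) :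
    (∫ x, a x) + (∫ x, b x) + ∫ x, c x ≤ (∫ x, d x) - (∫ x, e x) + ∫ x, f x := by
  have h1 := integral_mono ((ha.add hb).add hc) ((hd.sub he).add hf) h
  rw [integral_add' (ha.add hb) hc, integral_add' ha hb, integral_add' (hd.sub he) hf,
    integral_sub' hd he] at h1
  exact h1

theorem b3_integrable {f G : ℂ → ℝ} (hfc : HasCompactSupport f) (hG : Continuous G)
    (h0 : ∀ x, x ∉ tsupport f → G x = 0) : Integrable G :=
  hG.integrable_of_hasCompactSupport (HasCompactSupport.intro hfc h0)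

theorem b3_wint (ρ : ℝ) (ξ : ℂ) {g : ℂ → ℝ} (hg : Integrable g) :
    Integrable (fun x => wgt ρ ‖x - ξ‖ * g x) := by
  have hm : Measurable (fun x : ℂ => wgt ρ ‖x - ξ‖) :=
    (b3_wgt_meas ρ).comp (by fun_prop)
  refine hg.norm.mono' (hm.aestronglyMeasurable.mul hg.aestronglyMeasurable) ?_
  filter_upwards with x
  rw [norm_mul, Real.norm_eq_abs, abs_of_nonneg (b3_wgt_nonneg _ _)]
  exact mul_le_of_le_one_left (norm_nonneg _) (b3_wgt_le_one _ _)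

theorem b3_core {n v s k t1 t2 a1 a2 p : ℝ} (hsk : s ^ 2 + k ^ 2 = 1) :
    n * (a1 ^ 2 + a2 ^ 2) + v * p ^ 2 -
      (n * ((k * t1 * p + s * a1) ^ 2 + (k * t2 * p + s * a2) ^ 2) + v * (s * p) ^ 2) =
    n * ((s * t1 * p - k * a1) ^ 2 + (s * t2 * p - k * a2) ^ 2) + v * (k * p) ^ 2
      - n * (t1 ^ 2 + t2 ^ 2) * p ^ 2 := by
  linear_combination
    (-(n * (a1 ^ 2 + t1 ^ 2 * p ^ 2 + a2 ^ 2 + t2 ^ 2 * p ^ 2) + v * p ^ 2)) * hsk

theorem b3_algebra {n c₂ c₆ c r G N L J X Y Z T Tx D : ℝ} (hn : 0 < n) (hn1 : n ≤ 1)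
    (hc₂ : 0 < c₂) (hc₆ : 0 < c₆) (hc₆a : c₆ ≤ c₂ * n) (hc₆b : c₆ ≤ 0.07)
    (hca : c ≤ 0.07 * n) (hcb : c ≤ c₆ * n / 8) (hc : 0 < c) (hr : 1 ≤ r)
    (hG : 0 ≤ G) (hL : 0 ≤ L) (hX : 0 ≤ X) (hZ : 0 ≤ Z) (hT : 0 ≤ T) (hTx : 0 ≤ Tx) (hD : 0 ≤ D)
    (E1 : J + 0.14 * n * G + 0.07 * Z ≤ N + c₂ * n * Y)
    (E0 : c₂ * (r ^ 2)⁻¹ * X + c₂ * Y ≤ J / n + r ^ 2 * L)
    (E2 : n * D ≤ N + T) (E3 : T ≤ X + Z) (E4 : Tx ≤ 2 * T) :
    c * G + c * (r ^ 3)⁻¹ * (D + Tx) ≤ N + r ^ 2 * L := by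
  have hr0 : 0 < r := by linarith only [hc₆, hc₆b, hr]
  set q : ℝ := (r ^ 2)⁻¹ with hq
  have hq0 : 0 < q := by positivity
  have hq1 : q ≤ 1 := by
    rw [hq]
    apply inv_le_one_of_one_le₀
    nlinarith only [hr]
  have hq3 : (r ^ 3)⁻¹ ≤ q := by
    rw [hq]
    apply inv_anti₀ (by positivity)
    nlinarith only [hr, pow_pos hr0 2]
  -- multiply E0 by n
  have F0 : c₂ * n * q * X + c₂ * n * Y ≤ J + r ^ 2 * L := by
    have h1 := mul_le_mul_of_nonneg_left E0 hn.le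
    have h2 : n * (J / n + r ^ 2 * L) = J + n * (r ^ 2 * L) := by field_simp
    rw [h2] at h1
    have h3 : n * (r ^ 2 * L) ≤ r ^ 2 * L :=
      mul_le_of_le_one_left (by positivity) hn1
    have h4 : n * (c₂ * q * X + c₂ * Y) = c₂ * n * q * X + c₂ * n * Y := by ring
    linarith only [h1, h3]
  have F1 : 0.14 * n * G + 0.07 * Z + c₂ * n * q * X ≤ N + r ^ 2 * L := by linarith
  have F2 : c₆ * q * X ≤ c₂ * n * q * X := by
    have h1 : 0 ≤ q * X := by positivity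
    have h2 := mul_le_mul_of_nonneg_right hc₆a h1
    have h3 : c₆ * (q * X) = c₆ * q * X := by ring
    have h4 : c₂ * n * (q * X) = c₂ * n * q * X := by ring
    linarith only [h2]
  have F3 : c₆ * q * Z ≤ 0.07 * Z := by
    have h1 : c₆ * q ≤ 0.07 * 1 := mul_le_mul hc₆b hq1 hq0.le (by norm_num)
    exact mul_le_mul_of_nonneg_right (by linarith only [h1]) hZ
  have F4 : c₆ * q * T ≤ c₆ * q * X + c₆ * q * Z := by
    have := mul_le_mul_of_nonneg_left E3 (by positivity : 0 ≤ c₆ * q)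
    linarith only [this]
  have F5 : 0.14 * n * G + c₆ * q * T ≤ N + r ^ 2 * L := by linarith only [E1, F0, F2, F3, F4]
  have hLr : 0 ≤ r ^ 2 * L := by positivity
  set R : ℝ := N + r ^ 2 * L with hR
  have F6 : n * D - T ≤ R := by linarith only [E2, hLr]
  set t : ℝ := c₆ / 4 * q with ht
  have ht0 : 0 ≤ t := by positivity
  have ht1 : t ≤ 1 / 2 := by
    have h1 : c₆ * q ≤ 0.07 * 1 := mul_le_mul hc₆b hq1 hq0.le (by norm_num)
    have h2 : c₆ / 4 * q = c₆ * q / 4 := by ring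
    rw [ht, h2]
    linarith only [h1, hc₆, hc₆b]
  have F7 : (1 - t) * (0.14 * n * G + c₆ * q * T) + t * (n * D - T) ≤ R := by
    have h1 := mul_le_mul_of_nonneg_left F5 (by linarith only [hc₆, hc₆b, ht1] : 0 ≤ 1 - t)
    have h2 := mul_le_mul_of_nonneg_left F6 ht0
    have h3 : (1 - t) * R + t * R = R := by ring
    linarith only [h1, h2]
  have F8 : 0.07 * n * G + c₆ / 4 * q * (T + n * D) ≤ R := by
    have h3 : 0 ≤ 0.14 * n * G + c₆ * q * T := by positivity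
    have h4 : (1 / 2) * (0.14 * n * G + c₆ * q * T) ≤ (1 - t) * (0.14 * n * G + c₆ * q * T) :=
      mul_le_mul_of_nonneg_right (by linarith only [ht1]) h3
    have h5 : t * (n * D - T) = c₆ / 4 * q * (n * D) - c₆ / 4 * q * T := by rw [ht]; ring
    have h6 : (1 / 2) * (0.14 * n * G + c₆ * q * T) +
        (c₆ / 4 * q * (n * D) - c₆ / 4 * q * T) =
        0.07 * n * G + c₆ / 4 * q * (T + n * D) := by ring
    linarith only [F7, h4, h5]
  have F9 : c * (r ^ 3)⁻¹ * (D + Tx) ≤ c₆ / 4 * q * (T + n * D) := by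
    have h1 : c * (r ^ 3)⁻¹ ≤ c₆ * n / 8 * q :=
      mul_le_mul hcb hq3 (by positivity) (by positivity)
    have h2 : c * (r ^ 3)⁻¹ * (D + Tx) ≤ c₆ * n / 8 * q * (D + Tx) :=
      mul_le_mul_of_nonneg_right h1 (by positivity)
    have h3 : n / 8 * (D + Tx) ≤ 1 / 4 * (T + n * D) := by
      have : n * Tx ≤ 2 * T := by
        calc n * Tx ≤ 1 * Tx := mul_le_mul_of_nonneg_right hn1 hTx
          _ ≤ 2 * T := by linarith only [E4]
      have h9 : 0 ≤ n * D := by positivity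
      linarith only [h9, this]
    have h4 := mul_le_mul_of_nonneg_left h3 (by positivity : 0 ≤ c₆ * q)
    calc _ ≤ _ := h2
      _ = c₆ * q * (n / 8 * (D + Tx)) := by ring
      _ ≤ c₆ * q * (1 / 4 * (T + n * D)) := h4
      _ = _ := by ring
  have F10 : c * G ≤ 0.07 * n * G := mul_le_mul_of_nonneg_right hca hG
  linarith only [F10, F8, F9]

/-- the scalar wall inequality -/
theorem b3_scalar (μ : ℕ) (hμ : 1 ≤ μ) (K : ℕ) (hK : kmu μ < K + 1) :
    ∃ c > 0, ∀ R₀ Ξ : ℝ, 1 ≤ R₀ → 0 ≤ Ξ → ∃ ρ₀ : ℝ, ∀ ρ ε F, Wall ρ ε F → ρ₀ ≤ ρ →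
      ∀ ξ : ℂ, ‖ξ‖ ≤ Ξ → ∀ f : ℂ → ℝ, ContDiff ℝ ∞ f → HasCompactSupport f →
      c * (∫ x in {x : ℂ | R₀ < ‖x‖ ∧ ‖x‖ < 0.9 * ρ},
          (fderiv ℝ f x 1 ^ 2 + fderiv ℝ f x Complex.I ^ 2 + f x ^ 2))
        + c * (ρ ^ 3)⁻¹ * (∫ x in {x : ℂ | 0.9 * ρ ≤ ‖x‖},
          (fderiv ℝ f x 1 ^ 2 + fderiv ℝ f x Complex.I ^ 2 + wgt ρ ‖x‖ * f x ^ 2))
      ≤ (∫ x in {x : ℂ | R₀ < ‖x‖},
          ((μ : ℝ)⁻¹ * (fderiv ℝ f x 1 ^ 2 + fderiv ℝ f x Complex.I ^ 2)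
            + (exp (2 * SS F (x - ξ)) * ((μ : ℝ) + 1) - exp (SS F (x - ξ))) * f x ^ 2))
        - 0.85 * (∫ x in {x : ℂ | R₀ < ‖x‖ ∧ ‖x‖ < 0.9 * ρ}, f x ^ 2)
        + ρ ^ 2 * ∑ k ∈ Finset.range (K + 1),
          ((∫ x : ℂ, om (‖x - ξ‖ - ρ) * trig k true (x - ξ) * f x) ^ 2
            + (∫ x : ℂ, om (‖x - ξ‖ - ρ) * trig k false (x - ξ) * f x) ^ 2) := by
  obtain ⟨c₂, hc₂, ρ₂, hB⟩ := b3_polar μ hμ K hK
  obtain ⟨C, hC0, hC⟩ := b3Th_bound
  have hm1 : (1 : ℝ) ≤ μ := by exact_mod_cast hμ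
  obtain ⟨n, hn⟩ : ∃ n : ℝ, n = (μ : ℝ)⁻¹ := ⟨_, rfl⟩
  have hn0 : 0 < n := by rw [hn]; positivity
  have hn1 : n ≤ 1 := by rw [hn]; exact inv_le_one_of_one_le₀ hm1
  obtain ⟨c₆, hc₆d⟩ : ∃ c₆ : ℝ, c₆ = min (c₂ * n) 0.07 := ⟨_, rfl⟩
  have hc₆ : 0 < c₆ := by rw [hc₆d]; exact lt_min (by positivity) (by norm_num)
  have hc₆a : c₆ ≤ c₂ * n := by rw [hc₆d]; exact min_le_left _ _
  have hc₆b : c₆ ≤ 0.07 := by rw [hc₆d]; exact min_le_right _ _
  obtain ⟨c, hcd⟩ : ∃ c : ℝ, c = min (0.07 * n) (c₆ * n / 8) := ⟨_, rfl⟩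
  have hc : 0 < c := by rw [hcd]; exact lt_min (by positivity) (by positivity)
  have hca : c ≤ 0.07 * n := by rw [hcd]; exact min_le_left _ _
  have hcb : c ≤ c₆ * n / 8 := by rw [hcd]; exact min_le_right _ _
  refine ⟨c, hc, fun R₀ Ξ hR hΞ =>
    ⟨max ρ₂ (max 400 (max (100 * (R₀ + Ξ + 1)) (2 * C ^ 2 / c₆))), ?_⟩⟩
  intro ρ ε F hW hρ ξ hξ f hf hfc
  have hρ2 : ρ₂ ≤ ρ := (le_max_left _ _).trans hρ
  have hρ3 := (le_max_right _ _).trans hρ
  have hρ400 : 400 ≤ ρ := (le_max_left _ _).trans hρ3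
  have hρ4 := (le_max_right _ _).trans hρ3
  have hρR : 100 * (R₀ + Ξ + 1) ≤ ρ := (le_max_left _ _).trans hρ4
  have hρC : 2 * C ^ 2 / c₆ ≤ ρ := (le_max_right _ _).trans hρ4
  have hρ0 : 0 < ρ := by linarith only [hc₆, hc₆b, hρ400]
  have hξ0 := norm_nonneg ξ
  -- the transition angle
  obtain ⟨θ, hθd⟩ : ∃ θ : ℂ → ℝ, θ = b3T ρ ξ := ⟨_, rfl⟩
  have hθ : ContDiff ℝ ∞ θ := by rw [hθd]; exact b3T_contDiff ρ ξ
  have hθ0 : ∀ x, ‖x - ξ‖ ≤ 0.92 * ρ → θ x = 0 := by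
    intro x hx; rw [hθd]; exact b3T_zero hρ0 hx
  have hθ1 : ∀ x, 0.94 * ρ ≤ ‖x - ξ‖ → θ x = π / 2 := by
    intro x hx; rw [hθd]; exact b3T_one hρ0 hx
  have hθ0' : ∀ x v, ‖x - ξ‖ < 0.92 * ρ → fderiv ℝ θ x v = 0 := by
    intro x v hx; rw [hθd]; exact b3T_fderiv_zero hρ0 v hx
  have hθ1' : ∀ x v, 0.94 * ρ < ‖x - ξ‖ → fderiv ℝ θ x v = 0 := by
    intro x v hx; rw [hθd]; exact b3T_fderiv_one hρ0 v hx
  have hθb : ∀ x, n * (fderiv ℝ θ x 1 ^ 2 + fderiv ℝ θ x Complex.I ^ 2) ≤ c₆ := by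
    intro x
    have h1 := b3T_fderiv_bound hC hC0 hρ0 ξ x 1 (by simp)
    have h2 := b3T_fderiv_bound hC hC0 hρ0 ξ x Complex.I (by simp)
    rw [← hθd] at h1 h2
    have h3 : 2 * C ^ 2 * (ρ ^ 2)⁻¹ ≤ c₆ := by
      rw [div_le_iff₀ hc₆] at hρC
      rw [← div_eq_mul_inv, div_le_iff₀ (by positivity)]
      calc 2 * C ^ 2 ≤ ρ * c₆ := hρC
        _ ≤ ρ ^ 2 * c₆ := by
          apply mul_le_mul_of_nonneg_right _ hc₆.le
          nlinarith only [hρ400]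
        _ = c₆ * ρ ^ 2 := by ring
    have h4 : fderiv ℝ θ x 1 ^ 2 + fderiv ℝ θ x Complex.I ^ 2 ≤ c₆ := by linarith only [h1, h2, h3]
    calc _ ≤ 1 * (fderiv ℝ θ x 1 ^ 2 + fderiv ℝ θ x Complex.I ^ 2) :=
          mul_le_mul_of_nonneg_right hn1 (by positivity)
      _ ≤ c₆ := by linarith only [h1, h2, h3]
  -- smooth functions
  have hfd : ∀ x, DifferentiableAt ℝ f x := fun x => (hf.differentiable (by simp)) x
  have hθdif : ∀ x, DifferentiableAt ℝ θ x := fun x => (hθ.differentiable (by simp)) x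
  have hfder : ∀ v : ℂ, Continuous fun x => fderiv ℝ f x v := fun v =>
    (hf.continuous_fderiv (by simp)).clm_apply continuous_const
  have hθder : ∀ v : ℂ, Continuous fun x => fderiv ℝ θ x v := fun v =>
    (hθ.continuous_fderiv (by simp)).clm_apply continuous_const
  have hfder0 : ∀ x, x ∉ tsupport f → ∀ v, fderiv ℝ f x v = 0 := by
    intro x hx v
    have h1 : fderiv ℝ f x = 0 := by
      by_contra hne
      exact hx (support_fderiv_subset ℝ hne)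
    rw [h1]; rfl
  have hf0 : ∀ x, x ∉ tsupport f → f x = 0 := fun x hx => image_eq_zero_of_notMem_tsupport hx
  -- g₁
  obtain ⟨g₁, hg₁d⟩ : ∃ g₁ : ℂ → ℝ, g₁ = fun x => sin (θ x) * f x := ⟨_, rfl⟩
  have hg₁v : ∀ x, g₁ x = sin (θ x) * f x := fun x => by rw [hg₁d]
  have hg₁ : ContDiff ℝ ∞ g₁ := by
    rw [hg₁d]; exact (Real.contDiff_sin.comp hθ).mul hf
  have hg₁c : HasCompactSupport g₁ := by
    rw [hg₁d]; exact hfc.mul_left
  have hg₁der : ∀ x v, fderiv ℝ g₁ x v =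
      cos (θ x) * fderiv ℝ θ x v * f x + sin (θ x) * fderiv ℝ f x v := by
    intro x v
    have h1 : HasFDerivAt (fun x => sin (θ x)) (cos (θ x) • fderiv ℝ θ x) x :=
      (hθdif x).hasFDerivAt.sin
    have h2 := (h1.mul (hfd x).hasFDerivAt).fderiv
    have h3 : ((fun x => sin (θ x)) * f) = g₁ := by rw [hg₁d]; rfl
    rw [h3] at h2
    rw [h2]
    simp
    ring
  -- the potential
  obtain ⟨V, hVd⟩ : ∃ V : ℂ → ℝ, V = fun x => exp (2 * SS F (x - ξ)) * ((μ : ℝ) + 1)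
      - exp (SS F (x - ξ)) := ⟨_, rfl⟩
  have hVv : ∀ x, exp (2 * SS F (x - ξ)) * ((μ : ℝ) + 1) - exp (SS F (x - ξ)) = V x :=
    fun x => by rw [hVd]
  have hVcont : Continuous V := by
    have hFc : Continuous F := hW.smooth.continuous
    have hSc : Continuous fun x : ℂ => SS F (x - ξ) := by
      unfold SS
      exact hFc.comp (by fun_prop)
    rw [hVd]
    fun_prop
  have hVin : ∀ x, ‖x - ξ‖ ≤ 0.94 * ρ → 0.99 ≤ V x := by
    intro x hx
    rw [← hVv]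
    exact b3_v_in hW hρ400 (norm_nonneg _) hx hm1
  have hVge : ∀ x, 0 < ‖x - ξ‖ → -wgt ρ ‖x - ξ‖ ≤ V x := by
    intro x hx
    have h1 := b3_v_ge (s := SS F (x - ξ)) hm1
    rw [hVv] at h1
    have h2 := b3_y_le_wgt hW hx
    unfold yy at h2
    unfold SS at h1
    linarith
  have hVVV : ∀ x, n * VV μ F ‖x - ξ‖ = V x := by
    intro x
    rw [← hVv, hn]
    exact (b3_VV hμ F ‖x - ξ‖).symm
  -- sets
  have mD : MeasurableSet {x : ℂ | R₀ < ‖x‖} :=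
    (isOpen_lt continuous_const continuous_norm).measurableSet
  have mA : MeasurableSet {x : ℂ | R₀ < ‖x‖ ∧ ‖x‖ < 0.9 * ρ} :=
    ((isOpen_lt continuous_const continuous_norm).inter
      (isOpen_lt continuous_norm continuous_const)).measurableSet
  have mB : MeasurableSet {x : ℂ | 0.9 * ρ ≤ ‖x‖} :=
    (isClosed_le continuous_const continuous_norm).measurableSet
  have mW : MeasurableSet {x : ℂ | ‖x - ξ‖ < 0.96 * ρ} :=
    (isOpen_lt (by fun_prop) continuous_const).measurableSet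
  -- geometry
  have gD : ∀ x : ℂ, ¬ (R₀ < ‖x‖) → ‖x - ξ‖ < 0.92 * ρ := by
    intro x hx
    push Not at hx
    have := norm_sub_le x ξ
    linarith
  have gA : ∀ x : ℂ, ‖x‖ < 0.9 * ρ → ‖x - ξ‖ < 0.92 * ρ := by
    intro x hx
    have := norm_sub_le x ξ
    linarith
  have gB : ∀ x : ℂ, 0.9 * ρ ≤ ‖x‖ → 0 < ‖x - ξ‖ ∧ ‖x - ξ‖ ≤ 1.1 * ‖x‖ := by
    intro x hx
    have h1 := norm_sub_le x ξ
    have h2 := norm_sub_norm_le x ξ
    constructor <;> linarith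
  have gBD : ∀ x : ℂ, 0.9 * ρ ≤ ‖x‖ → R₀ < ‖x‖ := by
    intro x hx
    linarith
  -- continuity and integrability
  have hfcont : Continuous f := hf.continuous
  have hFc : Continuous F := hW.smooth.continuous
  have hVVc : Continuous fun x : ℂ => VV μ F ‖x - ξ‖ := by
    have h1 : Continuous fun x : ℂ => F (‖x - ξ‖ ^ 2) := hFc.comp (by fun_prop)
    unfold VV yy
    fun_prop
  have hd1 := hfder 1
  have hd2 := hfder Complex.I
  have hθc : Continuous θ := hθ.continuous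
  have iI : Integrable (fun x => n * (fderiv ℝ f x 1 ^ 2 + fderiv ℝ f x Complex.I ^ 2)
      + V x * f x ^ 2) := b3_integrable hfc (by fun_prop) (by
        intro x hx; rw [hf0 x hx, hfder0 x hx, hfder0 x hx]; ring)
  have iGr : Integrable (fun x => fderiv ℝ f x 1 ^ 2 + fderiv ℝ f x Complex.I ^ 2) :=
    b3_integrable hfc (by fun_prop) (by
      intro x hx; rw [hfder0 x hx, hfder0 x hx]; ring)
  have iG : Integrable (fun x => fderiv ℝ f x 1 ^ 2 + fderiv ℝ f x Complex.I ^ 2 + f x ^ 2) :=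
    b3_integrable hfc (by fun_prop) (by
      intro x hx; rw [hf0 x hx, hfder0 x hx, hfder0 x hx]; ring)
  have if2 : Integrable (fun x => f x ^ 2) :=
    b3_integrable hfc (by fun_prop) (by intro x hx; rw [hf0 x hx]; ring)
  have hg₁cont : Continuous g₁ := hg₁.continuous
  have ig1 : Integrable (fun x => g₁ x ^ 2) :=
    b3_integrable hfc (by fun_prop) (by intro x hx; rw [hg₁v, hf0 x hx]; ring)
  have hg₁d1 : Continuous fun x => fderiv ℝ g₁ x 1 :=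
    (hg₁.continuous_fderiv (by simp)).clm_apply continuous_const
  have hg₁d2 : Continuous fun x => fderiv ℝ g₁ x Complex.I :=
    (hg₁.continuous_fderiv (by simp)).clm_apply continuous_const
  have iI1 : Integrable (fun x => fderiv ℝ g₁ x 1 ^ 2 + fderiv ℝ g₁ x Complex.I ^ 2
      + VV μ F ‖x - ξ‖ * g₁ x ^ 2) := b3_integrable hfc (by fun_prop) (by
        intro x hx; rw [hg₁der, hg₁der, hg₁v, hf0 x hx, hfder0 x hx, hfder0 x hx]; ring)
  have iz : Integrable (fun x => (cos (θ x) * f x) ^ 2) :=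
    b3_integrable hfc (by fun_prop) (by intro x hx; rw [hf0 x hx]; ring)
  have iwf : Integrable (fun x => wgt ρ ‖x - ξ‖ * f x ^ 2) := b3_wint ρ ξ if2
  have iwg : Integrable (fun x => wgt ρ ‖x - ξ‖ * g₁ x ^ 2) := b3_wint ρ ξ ig1
  have iwx : Integrable (fun x => wgt ρ ‖x‖ * f x ^ 2) := by
    have := b3_wint ρ 0 if2
    simpa using this
  -- E0
  have hL : ∀ (k : ℕ) (b : Bool), (∫ x : ℂ, om (‖x - ξ‖ - ρ) * trig k b (x - ξ) * g₁ x) =
      ∫ x : ℂ, om (‖x - ξ‖ - ρ) * trig k b (x - ξ) * f x := by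
    intro k b
    congr 1
    ext x
    by_cases hx : 0.94 * ρ ≤ ‖x - ξ‖
    · rw [hg₁v, hθ1 x hx, Real.sin_pi_div_two, one_mul]
    · push Not at hx
      have h1 : om (‖x - ξ‖ - ρ) = 0 := by
        unfold om
        apply Real.smoothTransition.zero_of_nonpos
        have : ‖x - ξ‖ - ρ ≤ -1 := by linarith only [hc₆, hc₆b, hx, hρ400]
        nlinarith only [hc₆, hc₆b, hx, hρ400]
      rw [h1]
      ring
  have E0 := hB ρ ε F hW hρ2 ξ g₁ hg₁ hg₁c (by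
    intro x hx
    rw [hg₁v, hθ0 x hx, Real.sin_zero, zero_mul])
  simp only [hL] at E0
  -- E1
  have E1 := b3_int_comb
    (a := fun x => n * (fderiv ℝ g₁ x 1 ^ 2 + fderiv ℝ g₁ x Complex.I ^ 2
      + VV μ F ‖x - ξ‖ * g₁ x ^ 2))
    (b := ({x : ℂ | R₀ < ‖x‖ ∧ ‖x‖ < 0.9 * ρ}).indicator fun x =>
      0.14 * n * (fderiv ℝ f x 1 ^ 2 + fderiv ℝ f x Complex.I ^ 2 + f x ^ 2))
    (c := ({x : ℂ | 0.9 * ρ ≤ ‖x‖}).indicator fun x => 0.07 * (cos (θ x) * f x) ^ 2)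
    (d := ({x : ℂ | R₀ < ‖x‖}).indicator fun x =>
      n * (fderiv ℝ f x 1 ^ 2 + fderiv ℝ f x Complex.I ^ 2) + V x * f x ^ 2)
    (e := ({x : ℂ | R₀ < ‖x‖ ∧ ‖x‖ < 0.9 * ρ}).indicator fun x => 0.85 * f x ^ 2)
    (f := ({x : ℂ | ‖x - ξ‖ < 0.96 * ρ}).indicator fun x => c₂ * n * g₁ x ^ 2)
    (iI1.const_mul n) ((iG.const_mul _).indicator mA) ((iz.const_mul _).indicator mB)
    (iI.indicator mD) ((if2.const_mul _).indicator mA) ((ig1.const_mul _).indicator mW) (by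
      intro x
      have hWnn : 0 ≤ ({x : ℂ | ‖x - ξ‖ < 0.96 * ρ}).indicator
          (fun x => c₂ * n * g₁ x ^ 2) x := by
        apply indicator_nonneg
        intro y _
        positivity
      by_cases hxD : R₀ < ‖x‖
      · by_cases hxA : ‖x‖ < 0.9 * ρ
        · -- region A
          have h1 := gA x hxA
          have h2 : x ∈ {x : ℂ | R₀ < ‖x‖ ∧ ‖x‖ < 0.9 * ρ} := ⟨hxD, hxA⟩
          have h3 : x ∉ {x : ℂ | 0.9 * ρ ≤ ‖x‖} := by
            intro h; exact absurd hxA (not_lt.2 h)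
          have h4 : x ∈ {x : ℂ | R₀ < ‖x‖} := hxD
          rw [indicator_of_mem h2, indicator_of_notMem h3, indicator_of_mem h4,
            indicator_of_mem h2]
          rw [hg₁der, hg₁der, hg₁v, hθ0 x h1.le, hθ0' x _ h1, hθ0' x _ h1, Real.sin_zero]
          have h5 := hVin x (by linarith only [h1, hc₆, hc₆b, hρ400])
          have h6 : 0.14 * n * (fderiv ℝ f x 1 ^ 2 + fderiv ℝ f x Complex.I ^ 2) ≤
              n * (fderiv ℝ f x 1 ^ 2 + fderiv ℝ f x Complex.I ^ 2) := by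
            have : 0 ≤ n * (fderiv ℝ f x 1 ^ 2 + fderiv ℝ f x Complex.I ^ 2) := by (clear * - hn0; positivity)
            linarith only [this]
          have h7 : 0.14 * n * f x ^ 2 ≤ (V x - 0.85) * f x ^ 2 := by
            apply mul_le_mul_of_nonneg_right _ (sq_nonneg _)
            linarith only [h5, hn1]
          linarith only [h6, h7, hWnn]
        · -- region B
          push Not at hxA
          have h2 : x ∉ {x : ℂ | R₀ < ‖x‖ ∧ ‖x‖ < 0.9 * ρ} := by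
            intro h; exact absurd h.2 (not_lt.2 hxA)
          have h3 : x ∈ {x : ℂ | 0.9 * ρ ≤ ‖x‖} := hxA
          have h4 : x ∈ {x : ℂ | R₀ < ‖x‖} := hxD
          rw [indicator_of_notMem h2, indicator_of_mem h3, indicator_of_mem h4,
            indicator_of_notMem h2]
          by_cases hr : ‖x - ξ‖ ≤ 0.94 * ρ
          · have h5 : x ∈ {x : ℂ | ‖x - ξ‖ < 0.96 * ρ} := by
              show ‖x - ξ‖ < 0.96 * ρ
              linarith only [hc₆, hc₆b, hr, hρ400]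
            rw [indicator_of_mem h5]
            have h6 := b3_core (n := n) (v := V x) (s := sin (θ x)) (k := cos (θ x))
              (t1 := fderiv ℝ θ x 1) (t2 := fderiv ℝ θ x Complex.I) (a1 := fderiv ℝ f x 1)
              (a2 := fderiv ℝ f x Complex.I) (p := f x) (Real.sin_sq_add_cos_sq _)
            rw [hg₁der, hg₁der, hg₁v]
            have h7 := mul_le_mul_of_nonneg_right (hθb x) (sq_nonneg (f x))
            have h8 : f x ^ 2 = (sin (θ x) * f x) ^ 2 + (cos (θ x) * f x) ^ 2 := by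
              rw [mul_pow, mul_pow, ← add_mul, Real.sin_sq_add_cos_sq, one_mul]
            have h9 : c₆ * f x ^ 2 ≤ c₂ * n * (sin (θ x) * f x) ^ 2
                + 0.07 * (cos (θ x) * f x) ^ 2 := by
              rw [h8, mul_add]
              exact add_le_add (mul_le_mul_of_nonneg_right hc₆a (sq_nonneg _))
                (mul_le_mul_of_nonneg_right hc₆b (sq_nonneg _))
            have h10 := mul_le_mul_of_nonneg_right (hVin x hr) (sq_nonneg (cos (θ x) * f x))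
            have h11 : 0 ≤ n * ((sin (θ x) * fderiv ℝ θ x 1 * f x
                - cos (θ x) * fderiv ℝ f x 1) ^ 2 + (sin (θ x) * fderiv ℝ θ x Complex.I * f x
                - cos (θ x) * fderiv ℝ f x Complex.I) ^ 2) := by (clear * - hn0; positivity)
            have h12 : 0 ≤ (cos (θ x) * f x) ^ 2 := sq_nonneg _
            have h13 : n * ((cos (θ x) * fderiv ℝ θ x 1 * f x + sin (θ x) * fderiv ℝ f x 1) ^ 2
                + (cos (θ x) * fderiv ℝ θ x Complex.I * f x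
                  + sin (θ x) * fderiv ℝ f x Complex.I) ^ 2
                + VV μ F ‖x - ξ‖ * (sin (θ x) * f x) ^ 2) =
                n * ((cos (θ x) * fderiv ℝ θ x 1 * f x + sin (θ x) * fderiv ℝ f x 1) ^ 2
                + (cos (θ x) * fderiv ℝ θ x Complex.I * f x
                  + sin (θ x) * fderiv ℝ f x Complex.I) ^ 2)
                + V x * (sin (θ x) * f x) ^ 2 := by
              rw [← hVVV x]; ring
            rw [h13]
            linarith only [h10, h11, h12, h6, h7, h9]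
          · push Not at hr
            rw [hg₁der, hg₁der, hg₁v, hθ1 x hr.le, hθ1' x _ hr, hθ1' x _ hr,
              Real.sin_pi_div_two, Real.cos_pi_div_two]
            have h13 : n * ((0 * 0 * f x + 1 * fderiv ℝ f x 1) ^ 2
                + (0 * 0 * f x + 1 * fderiv ℝ f x Complex.I) ^ 2
                + VV μ F ‖x - ξ‖ * (1 * f x) ^ 2) =
                n * (fderiv ℝ f x 1 ^ 2 + fderiv ℝ f x Complex.I ^ 2) + V x * f x ^ 2 := by
              rw [← hVVV x]; ring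
            rw [h13]
            linarith only [hWnn]
      · have h1 := gD x hxD
        have h2 : x ∉ {x : ℂ | R₀ < ‖x‖ ∧ ‖x‖ < 0.9 * ρ} := fun h => hxD h.1
        have h3 : x ∉ {x : ℂ | 0.9 * ρ ≤ ‖x‖} := fun h => hxD (gBD x h)
        have h4 : x ∉ {x : ℂ | R₀ < ‖x‖} := hxD
        rw [indicator_of_notMem h2, indicator_of_notMem h3, indicator_of_notMem h4,
          indicator_of_notMem h2]
        rw [hg₁der, hg₁der, hg₁v, hθ0 x h1.le, hθ0' x _ h1, hθ0' x _ h1, Real.sin_zero]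
        linarith only [hWnn])
  rw [integral_indicator mA, integral_indicator mB, integral_indicator mD, integral_indicator mA,
    integral_indicator mW, integral_const_mul, integral_const_mul, integral_const_mul,
    integral_const_mul, integral_const_mul] at E1
  -- E2
  have E2 := b3_int_comb
    (a := ({x : ℂ | 0.9 * ρ ≤ ‖x‖}).indicator fun x =>
      n * (fderiv ℝ f x 1 ^ 2 + fderiv ℝ f x Complex.I ^ 2))
    (b := fun _ => 0) (c := fun _ => 0)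
    (d := ({x : ℂ | R₀ < ‖x‖}).indicator fun x =>
      n * (fderiv ℝ f x 1 ^ 2 + fderiv ℝ f x Complex.I ^ 2) + V x * f x ^ 2)
    (e := ({x : ℂ | R₀ < ‖x‖ ∧ ‖x‖ < 0.9 * ρ}).indicator fun x => 0.85 * f x ^ 2)
    (f := ({x : ℂ | 0.9 * ρ ≤ ‖x‖}).indicator fun x => wgt ρ ‖x - ξ‖ * f x ^ 2)
    ((iGr.const_mul _).indicator mB) (integrable_zero _ _ _) (integrable_zero _ _ _)
    (iI.indicator mD) ((if2.const_mul _).indicator mA) (iwf.indicator mB) (by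
      intro x
      by_cases hxD : R₀ < ‖x‖
      · by_cases hxA : ‖x‖ < 0.9 * ρ
        · have h1 := gA x hxA
          have h2 : x ∈ {x : ℂ | R₀ < ‖x‖ ∧ ‖x‖ < 0.9 * ρ} := ⟨hxD, hxA⟩
          have h3 : x ∉ {x : ℂ | 0.9 * ρ ≤ ‖x‖} := by
            intro h; exact absurd hxA (not_lt.2 h)
          have h4 : x ∈ {x : ℂ | R₀ < ‖x‖} := hxD
          rw [indicator_of_notMem h3, indicator_of_mem h4, indicator_of_mem h2,
            indicator_of_notMem h3]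
          have h5 := hVin x (by linarith only [h1, hc₆, hc₆b, hρ400])
          have h6 : 0 ≤ n * (fderiv ℝ f x 1 ^ 2 + fderiv ℝ f x Complex.I ^ 2) := by (clear * - hn0; positivity)
          have h7 : 0 ≤ (V x - 0.85) * f x ^ 2 := mul_nonneg (by linarith only [h5, hc₆, hc₆b]) (sq_nonneg _)
          linarith only [h6, h7]
        · push Not at hxA
          have h2 : x ∉ {x : ℂ | R₀ < ‖x‖ ∧ ‖x‖ < 0.9 * ρ} := by
            intro h; exact absurd h.2 (not_lt.2 hxA)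
          have h3 : x ∈ {x : ℂ | 0.9 * ρ ≤ ‖x‖} := hxA
          have h4 : x ∈ {x : ℂ | R₀ < ‖x‖} := hxD
          rw [indicator_of_mem h3, indicator_of_mem h4, indicator_of_notMem h2,
            indicator_of_mem h3]
          have h5 := hVge x (gB x hxA).1
          have h6 := mul_le_mul_of_nonneg_right h5 (sq_nonneg (f x))
          linarith only [h6]
      · have h2 : x ∉ {x : ℂ | R₀ < ‖x‖ ∧ ‖x‖ < 0.9 * ρ} := fun h => hxD h.1
        have h3 : x ∉ {x : ℂ | 0.9 * ρ ≤ ‖x‖} := fun h => hxD (gBD x h)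
        have h4 : x ∉ {x : ℂ | R₀ < ‖x‖} := hxD
        rw [indicator_of_notMem h3, indicator_of_notMem h4, indicator_of_notMem h2,
          indicator_of_notMem h3]
        norm_num)
  rw [integral_indicator mB, integral_indicator mD, integral_indicator mA,
    integral_indicator mB, integral_const_mul, integral_const_mul, integral_zero, add_zero,
    add_zero] at E2
  -- E3
  have E3 := b3_int_comb
    (a := ({x : ℂ | 0.9 * ρ ≤ ‖x‖}).indicator fun x => wgt ρ ‖x - ξ‖ * f x ^ 2)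
    (b := fun _ => 0) (c := fun _ => 0)
    (d := fun x => wgt ρ ‖x - ξ‖ * g₁ x ^ 2) (e := fun _ => 0)
    (f := ({x : ℂ | 0.9 * ρ ≤ ‖x‖}).indicator fun x => (cos (θ x) * f x) ^ 2)
    (iwf.indicator mB) (integrable_zero _ _ _) (integrable_zero _ _ _)
    iwg (integrable_zero _ _ _) (iz.indicator mB) (by
      intro x
      have hw0 := b3_wgt_nonneg ρ ‖x - ξ‖
      by_cases hxB : x ∈ {x : ℂ | 0.9 * ρ ≤ ‖x‖}
      · rw [indicator_of_mem hxB, indicator_of_mem hxB, hg₁v]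
        have h8 : f x ^ 2 = (sin (θ x) * f x) ^ 2 + (cos (θ x) * f x) ^ 2 := by
          rw [mul_pow, mul_pow, ← add_mul, Real.sin_sq_add_cos_sq, one_mul]
        have h9 : wgt ρ ‖x - ξ‖ * (cos (θ x) * f x) ^ 2 ≤ 1 * (cos (θ x) * f x) ^ 2 :=
          mul_le_mul_of_nonneg_right (b3_wgt_le_one _ _) (sq_nonneg _)
        have h10 : wgt ρ ‖x - ξ‖ * f x ^ 2 = wgt ρ ‖x - ξ‖ * (sin (θ x) * f x) ^ 2
            + wgt ρ ‖x - ξ‖ * (cos (θ x) * f x) ^ 2 := by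
          rw [← mul_add, ← h8]
        linarith only [h10, h9]
      · rw [indicator_of_notMem hxB, indicator_of_notMem hxB]
        have : 0 ≤ wgt ρ ‖x - ξ‖ * g₁ x ^ 2 := by (clear * - hw0; positivity)
        linarith only [this])
  rw [integral_indicator mB, integral_indicator mB, integral_zero, add_zero, add_zero,
    sub_zero] at E3
  -- E4
  have E4 : (∫ x in {x : ℂ | 0.9 * ρ ≤ ‖x‖}, wgt ρ ‖x‖ * f x ^ 2) ≤
      2 * ∫ x in {x : ℂ | 0.9 * ρ ≤ ‖x‖}, wgt ρ ‖x - ξ‖ * f x ^ 2 := by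
    rw [← integral_const_mul]
    apply setIntegral_mono_on iwx.integrableOn (iwf.const_mul 2).integrableOn mB
    intro x hx
    have hx' : 0.9 * ρ ≤ ‖x‖ := hx
    have h1 := b3_wgt_comp (ρ := ρ) (gB x hx').1 (by linarith only [hc₆, hc₆b, hx', hρ400]) (gB x hx').2
    have h2 := mul_le_mul_of_nonneg_right h1 (sq_nonneg (f x))
    linarith only [h2]
  -- E6
  have E6 : (∫ x in {x : ℂ | 0.9 * ρ ≤ ‖x‖},
      (fderiv ℝ f x 1 ^ 2 + fderiv ℝ f x Complex.I ^ 2 + wgt ρ ‖x‖ * f x ^ 2)) =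
      (∫ x in {x : ℂ | 0.9 * ρ ≤ ‖x‖}, (fderiv ℝ f x 1 ^ 2 + fderiv ℝ f x Complex.I ^ 2)) +
      ∫ x in {x : ℂ | 0.9 * ρ ≤ ‖x‖}, wgt ρ ‖x‖ * f x ^ 2 :=
    integral_add iGr.integrableOn iwx.integrableOn
  simp only [hVv]
  rw [← hn, E6]
  refine b3_algebra (n := n) (c₂ := c₂) (c₆ := c₆)
    (J := n * ∫ x : ℂ, (fderiv ℝ g₁ x 1 ^ 2 + fderiv ℝ g₁ x Complex.I ^ 2
      + VV μ F ‖x - ξ‖ * g₁ x ^ 2))
    (X := ∫ x : ℂ, wgt ρ ‖x - ξ‖ * g₁ x ^ 2)
    (Y := ∫ x in {x : ℂ | ‖x - ξ‖ < 0.96 * ρ}, g₁ x ^ 2)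
    (Z := ∫ x in {x : ℂ | 0.9 * ρ ≤ ‖x‖}, (cos (θ x) * f x) ^ 2)
    (T := ∫ x in {x : ℂ | 0.9 * ρ ≤ ‖x‖}, wgt ρ ‖x - ξ‖ * f x ^ 2)
    hn0 hn1 hc₂ hc₆ hc₆a hc₆b hca hcb hc (by linarith only [hc₆, hc₆b, hρ400]) ?_ ?_ ?_ ?_ ?_ ?_ ?_ E1 ?_ E2 E3 E4
  · exact integral_nonneg fun x => by (clear * -; positivity)
  · (clear * -; positivity)
  · exact integral_nonneg fun x => mul_nonneg (b3_wgt_nonneg _ _) (sq_nonneg _)
  · exact integral_nonneg fun x => sq_nonneg _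
  · exact integral_nonneg fun x => mul_nonneg (b3_wgt_nonneg _ _) (sq_nonneg _)
  · exact integral_nonneg fun x => mul_nonneg (b3_wgt_nonneg _ _) (sq_nonneg _)
  · exact integral_nonneg fun x => by (clear * -; positivity)
  · rw [mul_div_assoc, mul_comm n (_ / n), div_mul_cancel₀ _ hn0.ne']
    exact E0

variable {ι : Type} [Fintype ι] [DecidableEq ι]

theorem b3_mu_pos (S : Sys ι) (j : ι) : 1 ≤ S.μ j := by
  by_cases h : j = S.o
  · rw [h, S.μ_o]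
  · exact (S.one_lt j h).le

theorem b3_kmax (S : Sys ι) (j : ι) : kmu (S.μ j) < (Kmax S j : ℝ) + 1 := by
  unfold Kmax
  by_cases h : j = S.o
  · rw [if_pos h, h, S.μ_o]
    unfold kmu
    norm_num
  · rw [if_neg h]
    exact Nat.lt_floor_add_one _

theorem b3_modes_sum (S : Sys ι) (g : ι × ℕ × Bool → ℝ) (h0 : ∀ j, g (j, 0, false) = 0) :
    ∑ i ∈ modes S, g i =
      ∑ j, ∑ k ∈ Finset.range (Kmax S j + 1), (g (j, k, true) + g (j, k, false)) := by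
  unfold modes
  rw [Finset.sum_filter_of_ne]
  · rw [Finset.sum_biUnion]
    · apply Finset.sum_congr rfl
      intro j _
      rw [Finset.sum_biUnion]
      · apply Finset.sum_congr rfl
        intro k _
        rw [Finset.sum_image]
        · rw [Fintype.sum_bool]
        · intro a _ b _ hab
          simpa using hab
      · intro k _ k' _ hkk
        simp only [Function.onFun]
        rw [Finset.disjoint_left]
        intro x hx hx'
        simp only [Finset.mem_image, Finset.mem_univ, true_and] at hx hx'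
        obtain ⟨b, hb⟩ := hx
        obtain ⟨b', hb'⟩ := hx'
        rw [← hb] at hb'
        simp only [Prod.mk.injEq, true_and] at hb'
        exact hkk hb'.1.symm
    · intro j _ j' _ hjj
      simp only [Function.onFun]
      rw [Finset.disjoint_left]
      intro x hx hx'
      simp only [Finset.mem_biUnion, Finset.mem_image, Finset.mem_univ, true_and] at hx hx'
      obtain ⟨k, _, b, hb⟩ := hx
      obtain ⟨k', _, b', hb'⟩ := hx'
      rw [← hb] at hb'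
      simp only [Prod.mk.injEq] at hb'
      exact hjj hb'.1.symm
  · intro i _ hi hi0
    obtain ⟨j, k, b⟩ := i
    simp only at hi0
    subst hi0
    cases b
    · exact absurd (h0 j) hi
    · rfl

theorem b3_ell_zero (ρ : ℝ) (ξ : ℂ) (U : Fld ι) (j : ι) : ell ρ (j, 0, false) ξ U = 0 := by
  unfold ell trig
  simp

theorem b3_comp_fderiv {H : ℂ → Ev ι} (hH : ContDiff ℝ ∞ H) (j : ι) (x v : ℂ) :
    fderiv ℝ (fun x => H x j) x v = (fderiv ℝ H x v) j := by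
  have h1 : HasFDerivAt H (fderiv ℝ H x) x := ((hH.differentiable (by simp)) x).hasFDerivAt
  have h2 := ((EuclideanSpace.proj (𝕜 := ℝ) j).hasFDerivAt.comp x h1).fderiv
  have h3 : (⇑(EuclideanSpace.proj (𝕜 := ℝ) j) ∘ H) = fun x => H x j := rfl
  rw [h3] at h2
  rw [h2]
  rfl

theorem b3_comp_smooth {H : ℂ → Ev ι} (hH : ContDiff ℝ ∞ H) (j : ι) :
    ContDiff ℝ ∞ (fun x => H x j) :=
  (contDiff_euclidean.1 hH) j

theorem b3_comp_supp {H : ℂ → Ev ι} (hH : HasCompactSupport H) (j : ι) :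
    HasCompactSupport (fun x => H x j) := by
  have := hH.comp_left (g := fun v : Ev ι => v j) (by simp)
  exact this

/-! ### B3 the wall inequality (WI) for test functions -/
theorem WI_smooth (S : Sys ι) :
    ∃ c > 0, ∀ R₀ Ξ : ℝ, 1 ≤ R₀ → 0 ≤ Ξ → ∃ ρ₀ : ℝ, ∀ ρ ε F, Wall ρ ε F → ρ₀ ≤ ρ →
      ∀ ξ : ℂ, ‖ξ‖ ≤ Ξ → ∀ H : ℂ → Ev ι, ContDiff ℝ ∞ H → HasCompactSupport H →
      c * (∫ x in {x : ℂ | R₀ < ‖x‖ ∧ ‖x‖ < 0.9 * ρ}, (gsq (jet H x) + ‖H x‖ ^ 2))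
        + c * (ρ ^ 3)⁻¹ * (∫ x in {x : ℂ | 0.9 * ρ ≤ ‖x‖}, (gsq (jet H x) + wgt ρ ‖x‖ * ‖H x‖ ^ 2))
      ≤ (∫ x in {x : ℂ | R₀ < ‖x‖}, (gP S (jet H x) + qV S (SS F (x - ξ)) (H x)))
        - 0.85 * (∫ x in {x : ℂ | R₀ < ‖x‖ ∧ ‖x‖ < 0.9 * ρ}, ‖H x‖ ^ 2)
        + ρ ^ 2 * ∑ i ∈ modes S, ell ρ i ξ (jet H) ^ 2 := by
  choose c hc h using fun j => b3_scalar (S.μ j) (b3_mu_pos S j) (Kmax S j) (b3_kmax S j)
  have hne : (Finset.univ : Finset ι).Nonempty := ⟨S.o, Finset.mem_univ _⟩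
  obtain ⟨c₀, hc₀d⟩ : ∃ c₀ : ℝ, c₀ = Finset.univ.inf' hne c := ⟨_, rfl⟩
  have hc₀ : 0 < c₀ := by
    rw [hc₀d, Finset.lt_inf'_iff]
    intro j _
    exact hc j
  have hc₀le : ∀ j, c₀ ≤ c j := by
    intro j
    rw [hc₀d]
    exact Finset.inf'_le _ (Finset.mem_univ j)
  refine ⟨c₀, hc₀, fun R₀ Ξ hR hΞ => ?_⟩
  choose ρ₀ hρ₀ using fun j => h j R₀ Ξ hR hΞ
  refine ⟨Finset.univ.sup' hne ρ₀, ?_⟩
  intro ρ ε F hW hρ ξ hξ H hH hHc
  have hρj : ∀ j, ρ₀ j ≤ ρ := fun j => (Finset.le_sup' ρ₀ (Finset.mem_univ j)).trans hρ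
  have hρ0 : 0 < ρ := by linarith [hW.hρ]
  have key := fun j => hρ₀ j ρ ε F hW (hρj j) ξ hξ (fun x => H x j) (b3_comp_smooth hH j)
    (b3_comp_supp hHc j)
  -- integrability
  have hF : ∀ j, Continuous fun x => H x j := fun j => (b3_comp_smooth hH j).continuous
  have hd : ∀ j (v : ℂ), Continuous fun x => fderiv ℝ (fun x => H x j) x v := fun j v =>
    ((b3_comp_smooth hH j).continuous_fderiv (by simp)).clm_apply continuous_const
  have hd0 : ∀ j x, x ∉ tsupport (fun x => H x j) → ∀ v, fderiv ℝ (fun x => H x j) x v = 0 := by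
    intro j x hx v
    have h1 : fderiv ℝ (fun x => H x j) x = 0 := by
      by_contra hne
      exact hx (support_fderiv_subset ℝ hne)
    rw [h1]; rfl
  have hf0 : ∀ j x, x ∉ tsupport (fun x => H x j) → H x j = 0 := fun j x hx =>
    image_eq_zero_of_notMem_tsupport (f := fun x => H x j) hx
  have hV : ∀ m : ℝ, Continuous fun x : ℂ =>
      exp (2 * SS F (x - ξ)) * (m + 1) - exp (SS F (x - ξ)) := by
    intro m
    have hFc : Continuous F := hW.smooth.continuous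
    have hSc : Continuous fun x : ℂ => SS F (x - ξ) := by
      unfold SS
      exact hFc.comp (by fun_prop)
    fun_prop
  have iG : ∀ j, Integrable (fun x => fderiv ℝ (fun x => H x j) x 1 ^ 2
      + fderiv ℝ (fun x => H x j) x Complex.I ^ 2 + H x j ^ 2) := by
    intro j
    have h1 := hF j
    have h2 := hd j 1
    have h3 := hd j Complex.I
    exact b3_integrable (b3_comp_supp hHc j) (by fun_prop) (by
      intro x hx; rw [hf0 j x hx, hd0 j x hx, hd0 j x hx]; ring)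
  have iGr : ∀ j, Integrable (fun x => fderiv ℝ (fun x => H x j) x 1 ^ 2
      + fderiv ℝ (fun x => H x j) x Complex.I ^ 2) := by
    intro j
    have h2 := hd j 1
    have h3 := hd j Complex.I
    exact b3_integrable (b3_comp_supp hHc j) (by fun_prop) (by
      intro x hx; rw [hd0 j x hx, hd0 j x hx]; ring)
  have if2 : ∀ j, Integrable (fun x => H x j ^ 2) := by
    intro j
    have h1 := hF j
    exact b3_integrable (b3_comp_supp hHc j) (by fun_prop) (by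
      intro x hx; rw [hf0 j x hx]; ring)
  have iI : ∀ j, Integrable (fun x => (S.μ j : ℝ)⁻¹ * (fderiv ℝ (fun x => H x j) x 1 ^ 2
      + fderiv ℝ (fun x => H x j) x Complex.I ^ 2)
      + (exp (2 * SS F (x - ξ)) * ((S.μ j : ℝ) + 1) - exp (SS F (x - ξ))) * H x j ^ 2) := by
    intro j
    have h1 := hF j
    have h2 := hd j 1
    have h3 := hd j Complex.I
    have h4 := hV (S.μ j)
    exact b3_integrable (b3_comp_supp hHc j) (by fun_prop) (by
      intro x hx; rw [hf0 j x hx, hd0 j x hx, hd0 j x hx]; ring)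
  have iwx : ∀ j, Integrable (fun x => wgt ρ ‖x‖ * H x j ^ 2) := by
    intro j
    have := b3_wint ρ 0 (if2 j)
    simpa using this
  have iB : ∀ j, Integrable (fun x => fderiv ℝ (fun x => H x j) x 1 ^ 2
      + fderiv ℝ (fun x => H x j) x Complex.I ^ 2 + wgt ρ ‖x‖ * H x j ^ 2) :=
    fun j => (iGr j).add (iwx j)
  -- pointwise sums
  have p1 : ∀ x, gsq (jet H x) + ‖H x‖ ^ 2 = ∑ j, (fderiv ℝ (fun x => H x j) x 1 ^ 2
      + fderiv ℝ (fun x => H x j) x Complex.I ^ 2 + H x j ^ 2) := by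
    intro x
    unfold gsq jet
    simp only [EuclideanSpace.norm_sq_eq, Real.norm_eq_abs, sq_abs, b3_comp_fderiv hH,
      Finset.sum_add_distrib]
  have p2 : ∀ x, gsq (jet H x) + wgt ρ ‖x‖ * ‖H x‖ ^ 2 =
      ∑ j, (fderiv ℝ (fun x => H x j) x 1 ^ 2
      + fderiv ℝ (fun x => H x j) x Complex.I ^ 2 + wgt ρ ‖x‖ * H x j ^ 2) := by
    intro x
    unfold gsq jet
    simp only [EuclideanSpace.norm_sq_eq, Real.norm_eq_abs, sq_abs, b3_comp_fderiv hH,
      Finset.sum_add_distrib, Finset.mul_sum]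
  have p3 : ∀ x, gP S (jet H x) + qV S (SS F (x - ξ)) (H x) =
      ∑ j, ((S.μ j : ℝ)⁻¹ * (fderiv ℝ (fun x => H x j) x 1 ^ 2
      + fderiv ℝ (fun x => H x j) x Complex.I ^ 2)
      + (exp (2 * SS F (x - ξ)) * ((S.μ j : ℝ) + 1) - exp (SS F (x - ξ))) * H x j ^ 2) := by
    intro x
    unfold gP qV vj jet
    simp only [b3_comp_fderiv hH, Finset.sum_add_distrib]
  have p4 : ∀ x, ‖H x‖ ^ 2 = ∑ j, H x j ^ 2 := by
    intro x
    simp only [EuclideanSpace.norm_sq_eq, Real.norm_eq_abs, sq_abs]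
  simp only [p1, p2, p3]
  simp only [p4]
  rw [integral_finsetSum _ fun j _ => (iG j).integrableOn,
    integral_finsetSum _ fun j _ => (iB j).integrableOn,
    integral_finsetSum _ fun j _ => (iI j).integrableOn,
    integral_finsetSum _ fun j _ => (if2 j).integrableOn,
    b3_modes_sum S (fun i => ell ρ i ξ (jet H) ^ 2) (fun j => by
      simp only [b3_ell_zero]; norm_num)]
  simp only [Finset.mul_sum]
  rw [← Finset.sum_add_distrib, ← Finset.sum_sub_distrib, ← Finset.sum_add_distrib]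
  apply Finset.sum_le_sum
  intro j _
  refine le_trans ?_ ((key j).trans (le_of_eq ?_))
  · apply add_le_add
    · exact mul_le_mul_of_nonneg_right (hc₀le j) (integral_nonneg fun x => by (clear * -; positivity))
    · apply mul_le_mul_of_nonneg_right
      · exact mul_le_mul_of_nonneg_right (hc₀le j) (by positivity)
      · exact integral_nonneg fun x => add_nonneg (by positivity)
          (mul_nonneg (b3_wgt_nonneg _ _) (sq_nonneg _))
  · rw [Finset.mul_sum]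
    rfl

end Pool.MP_ad5d82_an.Wl
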