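import Pool.Agent.Lib.MP_ad5d82_an.h24.BDefs
import Pool.Agent.Lib.MP_ad5d82_an.h24.W.W1

set_option autoImplicit false

namespace Pool.MP_ad5d82_an.Wl

open Real Set MeasureTheory
open scoped ContDiff

/-- angular polynomials -/
noncomputable def b4tp (k : ℕ) (b : Bool) (w : ℂ) : ℝ := if b then (w ^ k).re else (w ^ k).im

/-- angular derivatives -/
noncomputable def b4dtp (k : ℕ) (b : Bool) (w : ℂ) : ℝ :=
  if b then -((k : ℝ) * (w ^ k).im) else (k : ℝ) * (w ^ k).re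

theorem b4_trig_eq (k : ℕ) (b : Bool) (z : ℂ) : trig k b z = b4tp k b (z / (‖z‖ : ℂ)) := rfl

theorem b4tp_cont (k : ℕ) (b : Bool) : Continuous (b4tp k b) := by
  unfold b4tp
  cases b
  · exact Complex.continuous_im.comp (continuous_pow k)
  · exact Complex.continuous_re.comp (continuous_pow k)

theorem b4dtp_cont (k : ℕ) (b : Bool) : Continuous (b4dtp k b) := by
  unfold b4dtp
  cases b
  · exact (continuous_const (y := (k : ℝ))).mul
      (Complex.continuous_re.comp (continuous_pow k))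
  · exact ((continuous_const (y := (k : ℝ))).mul
      (Complex.continuous_im.comp (continuous_pow k))).neg

theorem b4_polar (g : ℝ → ℝ) (T : ℂ → ℝ) :
    ∫ z : ℂ, g ‖z‖ * T (z / (‖z‖ : ℂ)) =
      (∫ r in Ioi (0 : ℝ), g r * r) *
        ∫ θ in Ioo (-π) π, T (Complex.exp (θ * Complex.I)) := by
  rw [← Complex.integral_comp_polarCoord_symm]
  have h1 : ∫ p in polarCoord.target, p.1 • (g ‖Complex.polarCoord.symm p‖ *
      T (Complex.polarCoord.symm p / (‖Complex.polarCoord.symm p‖ : ℂ))) =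
      ∫ p in (Ioi (0 : ℝ)) ×ˢ (Ioo (-π) π), (g p.1 * p.1) *
        T (Complex.exp (p.2 * Complex.I)) := by
    refine setIntegral_congr_fun (measurableSet_Ioi.prod measurableSet_Ioo) fun p hp => ?_
    have hp1 : 0 < p.1 := hp.1
    have h2 : ‖Complex.polarCoord.symm p‖ = p.1 := by
      rw [Complex.norm_polarCoord_symm, abs_of_pos hp1]
    have h3 : Complex.polarCoord.symm p / (‖Complex.polarCoord.symm p‖ : ℂ) =
        Complex.exp (p.2 * Complex.I) := by
      rw [h2, Complex.polarCoord_symm_apply, Complex.exp_mul_I]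
      have : (p.1 : ℂ) ≠ 0 := by exact_mod_cast hp1.ne'
      rw [mul_div_cancel_left₀ _ this]
      push_cast
      ring
    rw [h3, h2, smul_eq_mul]
    ring
  rw [h1]
  exact setIntegral_prod_mul (fun r : ℝ => g r * r) (fun θ : ℝ => T (Complex.exp (θ * Complex.I)))
    _ _

/-! angular integrals -/

theorem b4_exp_pow (k : ℕ) (θ : ℝ) :
    Complex.exp (θ * Complex.I) ^ k = Complex.exp (((k * θ : ℝ) : ℂ) * Complex.I) := by
  rw [← Complex.exp_nat_mul]
  congr 1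
  push_cast
  ring

theorem b4tp_exp (k : ℕ) (b : Bool) (θ : ℝ) :
    b4tp k b (Complex.exp (θ * Complex.I)) = if b then cos (k * θ) else sin (k * θ) := by
  unfold b4tp
  rw [b4_exp_pow, Complex.exp_ofReal_mul_I_im, Complex.exp_ofReal_mul_I_re]

theorem b4dtp_exp (k : ℕ) (b : Bool) (θ : ℝ) :
    b4dtp k b (Complex.exp (θ * Complex.I)) =
      if b then -(k * sin (k * θ)) else k * cos (k * θ) := by
  unfold b4dtp
  rw [b4_exp_pow, Complex.exp_ofReal_mul_I_im, Complex.exp_ofReal_mul_I_re]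

theorem b4_int_Ioo (f : ℝ → ℝ) : ∫ θ in Ioo (-π) π, f θ = ∫ θ in (-π)..π, f θ := by
  rw [intervalIntegral.integral_of_le (by linarith [pi_pos]), integral_Ioc_eq_integral_Ioo]

theorem b4_int_cos (m : ℤ) (hm : m ≠ 0) : ∫ θ in (-π)..π, cos (m * θ) = 0 := by
  have hm' : (m : ℝ) ≠ 0 := by exact_mod_cast hm
  rw [intervalIntegral.integral_comp_mul_left (fun x => cos x) hm', integral_cos]
  have h1 : sin (m * π) = 0 := sin_int_mul_pi m
  have h2 : sin (m * -π) = 0 := by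
    rw [mul_neg, sin_neg, h1, neg_zero]
  rw [h1, h2]
  simp

theorem b4_int_sin (m : ℤ) : ∫ θ in (-π)..π, sin (m * θ) = 0 := by
  rcases eq_or_ne m 0 with rfl | hm
  · simp
  have hm' : (m : ℝ) ≠ 0 := by exact_mod_cast hm
  rw [intervalIntegral.integral_comp_mul_left (fun x => sin x) hm', integral_sin]
  have : cos (m * -π) = cos (m * π) := by rw [mul_neg, cos_neg]
  rw [this]
  simp

theorem b4_cos_cos (k l : ℕ) : ∫ θ in (-π)..π, cos (k * θ) * cos (l * θ) =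
    if k = l then (if k = 0 then 2 * π else π) else 0 := by
  have h1 : ∀ θ : ℝ, cos (k * θ) * cos (l * θ) =
      (1 / 2) * cos (((k : ℤ) - l : ℤ) * θ) + (1 / 2) * cos (((k : ℤ) + l : ℤ) * θ) := by
    intro θ
    push_cast
    rw [sub_mul, add_mul, cos_sub, cos_add]
    ring
  simp_rw [h1]
  have hc : ∀ m : ℤ, IntervalIntegrable (fun θ : ℝ => (1 / 2 : ℝ) * cos (m * θ)) volume (-π) π :=
    fun m => (by fun_prop : Continuous fun θ : ℝ => (1 / 2 : ℝ) * cos (m * θ)).intervalIntegrable _ _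
  rw [intervalIntegral.integral_add (hc _) (hc _), intervalIntegral.integral_const_mul,
    intervalIntegral.integral_const_mul]
  by_cases hkl : k = l
  · subst hkl
    by_cases hk : k = 0
    · subst hk
      simp
      ring
    · rw [if_pos rfl, if_neg hk, b4_int_cos ((k : ℤ) + k) (by omega)]
      simp
      ring
  · rw [if_neg hkl, b4_int_cos ((k : ℤ) - l) (by omega), b4_int_cos ((k : ℤ) + l) (by omega)]
    ring

theorem b4_sin_sin (k l : ℕ) : ∫ θ in (-π)..π, sin (k * θ) * sin (l * θ) =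
    if k = l then (if k = 0 then 0 else π) else 0 := by
  have h1 : ∀ θ : ℝ, sin (k * θ) * sin (l * θ) =
      (1 / 2) * cos (((k : ℤ) - l : ℤ) * θ) - (1 / 2) * cos (((k : ℤ) + l : ℤ) * θ) := by
    intro θ
    push_cast
    rw [sub_mul, add_mul, cos_sub, cos_add]
    ring
  simp_rw [h1]
  have hc : ∀ m : ℤ, IntervalIntegrable (fun θ : ℝ => (1 / 2 : ℝ) * cos (m * θ)) volume (-π) π :=
    fun m => (by fun_prop : Continuous fun θ : ℝ => (1 / 2 : ℝ) * cos (m * θ)).intervalIntegrable _ _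
  rw [intervalIntegral.integral_sub (hc _) (hc _), intervalIntegral.integral_const_mul,
    intervalIntegral.integral_const_mul]
  by_cases hkl : k = l
  · subst hkl
    by_cases hk : k = 0
    · subst hk
      simp
    · rw [if_pos rfl, if_neg hk, b4_int_cos ((k : ℤ) + k) (by omega)]
      simp
      ring
  · rw [if_neg hkl, b4_int_cos ((k : ℤ) - l) (by omega), b4_int_cos ((k : ℤ) + l) (by omega)]
    ring

theorem b4_cos_sin (k l : ℕ) : ∫ θ in (-π)..π, cos (k * θ) * sin (l * θ) = 0 := by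
  have h1 : ∀ θ : ℝ, cos (k * θ) * sin (l * θ) =
      (1 / 2) * sin (((l : ℤ) + k : ℤ) * θ) + (1 / 2) * sin (((l : ℤ) - k : ℤ) * θ) := by
    intro θ
    push_cast
    rw [sub_mul, add_mul, sin_sub, sin_add]
    ring
  simp_rw [h1]
  have hc : ∀ m : ℤ, IntervalIntegrable (fun θ : ℝ => (1 / 2 : ℝ) * sin (m * θ)) volume (-π) π :=
    fun m => (by fun_prop : Continuous fun θ : ℝ => (1 / 2 : ℝ) * sin (m * θ)).intervalIntegrable _ _
  rw [intervalIntegral.integral_add (hc _) (hc _), intervalIntegral.integral_const_mul,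
    intervalIntegral.integral_const_mul, b4_int_sin, b4_int_sin]
  ring

/-- weight of a mode -/
noncomputable def b4w (k : ℕ) : ℝ := if k = 0 then 2 * π else π

theorem b4w_ge (k : ℕ) : π ≤ b4w k := by
  unfold b4w
  split_ifs <;> linarith [pi_pos]

/-- orthogonality of the angular functions (`k = 0` only with `b = true`) -/
theorem b4_ang (k l : ℕ) (b c : Bool) (hb : k = 0 → b = true) :
    ∫ θ in Ioo (-π) π, b4tp k b (Complex.exp (θ * Complex.I)) *
      b4tp l c (Complex.exp (θ * Complex.I)) = if k = l ∧ b = c then b4w k else 0 := by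
  rw [b4_int_Ioo]
  simp_rw [b4tp_exp]
  cases b <;> cases c
  · have hk : k ≠ 0 := fun h => by simpa using hb h
    simp only [Bool.false_eq_true, if_false, and_true]
    rw [b4_sin_sin]
    by_cases h : k = l
    · subst h
      simp [b4w, hk]
    · simp [h]
  · simp only [Bool.false_eq_true, if_false, if_true, and_false]
    have := b4_cos_sin l k
    simp_rw [mul_comm (cos _)] at this
    exact this
  · simp only [Bool.true_eq_false, Bool.false_eq_true, if_false, if_true, and_false]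
    exact b4_cos_sin k l
  · simp only [if_true, and_true]
    rw [b4_cos_cos]
    rfl

theorem b4_dang (k l : ℕ) (b c : Bool) (hb : k = 0 → b = true) :
    ∫ θ in Ioo (-π) π, b4dtp k b (Complex.exp (θ * Complex.I)) *
      b4dtp l c (Complex.exp (θ * Complex.I)) =
        if k = l ∧ b = c then (k : ℝ) ^ 2 * b4w k else 0 := by
  rw [b4_int_Ioo]
  simp_rw [b4dtp_exp]
  cases b <;> cases c
  · have hk : k ≠ 0 := fun h => by simpa using hb h
    simp only [Bool.false_eq_true, if_false, and_true]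
    have h1 : ∀ θ : ℝ, (k : ℝ) * cos (k * θ) * (l * cos (l * θ)) =
        (k * l : ℝ) * (cos (k * θ) * cos (l * θ)) := fun θ => by ring
    simp_rw [h1]
    rw [intervalIntegral.integral_const_mul, b4_cos_cos]
    by_cases h : k = l
    · subst h
      simp [b4w, hk]
      ring
    · simp [h]
  · simp only [Bool.false_eq_true, if_false, if_true, and_false]
    have h1 : ∀ θ : ℝ, (k : ℝ) * cos (k * θ) * -(l * sin (l * θ)) =
        (-(k * l) : ℝ) * (cos (k * θ) * sin (l * θ)) := fun θ => by ring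
    simp_rw [h1]
    rw [intervalIntegral.integral_const_mul, b4_cos_sin, mul_zero]
  · simp only [Bool.true_eq_false, Bool.false_eq_true, if_false, if_true, and_false]
    have h1 : ∀ θ : ℝ, -((k : ℝ) * sin (k * θ)) * (l * cos (l * θ)) =
        (-(k * l) : ℝ) * (cos (l * θ) * sin (k * θ)) := fun θ => by ring
    simp_rw [h1]
    rw [intervalIntegral.integral_const_mul, b4_cos_sin, mul_zero]
  · simp only [if_true, and_true]
    have h1 : ∀ θ : ℝ, -((k : ℝ) * sin (k * θ)) * -(l * sin (l * θ)) =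
        (k * l : ℝ) * (sin (k * θ) * sin (l * θ)) := fun θ => by ring
    simp_rw [h1]
    rw [intervalIntegral.integral_const_mul, b4_sin_sin]
    by_cases h : k = l
    · subst h
      by_cases hk : k = 0
      · simp [hk]
      · simp [b4w, hk]
        ring
    · simp [h]

/-- radial function times angular function -/
noncomputable def b4f (a : ℝ → ℝ) (k : ℕ) (b : Bool) (z : ℂ) : ℝ := a ‖z‖ * trig k b z

theorem b4f_eq (a : ℝ → ℝ) (k : ℕ) (b : Bool) (z : ℂ) :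
    b4f a k b z = a ‖z‖ * b4tp k b (z / (‖z‖ : ℂ)) := rfl

/-- derivative of the norm along a line -/
theorem b4_norm_line (z v : ℂ) (hz : z ≠ 0) :
    HasDerivAt (fun t : ℝ => ‖z + t * v‖) ((z.re * v.re + z.im * v.im) / ‖z‖) 0 := by
  have h1 : HasDerivAt (fun t : ℝ => (z.re + t * v.re) ^ 2 + (z.im + t * v.im) ^ 2)
      (2 * (z.re * v.re + z.im * v.im)) 0 := by
    have h2 : HasDerivAt (fun t : ℝ => z.re + t * v.re) (v.re) 0 := by
      simpa using ((hasDerivAt_id (0 : ℝ)).mul_const v.re).const_add z.re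
    have h3 : HasDerivAt (fun t : ℝ => z.im + t * v.im) (v.im) 0 := by
      simpa using ((hasDerivAt_id (0 : ℝ)).mul_const v.im).const_add z.im
    have h4 := (h2.fun_pow 2).fun_add (h3.fun_pow 2)
    refine h4.congr_deriv ?_
    simp
    ring
  have hpos : 0 < z.re ^ 2 + z.im ^ 2 := by
    have := Complex.normSq_pos.2 hz
    rw [Complex.normSq_apply] at this
    nlinarith
  have h5 : ∀ t : ℝ, ‖z + t * v‖ = √((z.re + t * v.re) ^ 2 + (z.im + t * v.im) ^ 2) := by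
    intro t
    rw [Complex.norm_def, Complex.normSq_apply]
    congr 1
    simp
    ring
  have h6 : ‖z‖ = √(z.re ^ 2 + z.im ^ 2) := by
    have := h5 0
    simpa using this
  simp_rw [h5]
  have h7 := h1.sqrt (by simpa using hpos.ne')
  refine h7.congr_deriv ?_
  rw [h6]
  simp
  field_simp

theorem b4_line (a : ℝ → ℝ) (ha : Differentiable ℝ a) (k : ℕ) (b : Bool) (z v : ℂ) (hz : z ≠ 0) :
    HasDerivAt (fun t : ℝ => b4f a k b (z + t * v))
      (deriv a ‖z‖ * ((z.re * v.re + z.im * v.im) / ‖z‖) * b4tp k b (z / (‖z‖ : ℂ)) +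
        a ‖z‖ * (b4dtp k b (z / (‖z‖ : ℂ)) * ((z.re * v.im - z.im * v.re) / ‖z‖ ^ 2))) 0 := by
  have hn := b4_norm_line z v hz
  have hzn : (‖z‖ : ℝ) ≠ 0 := norm_ne_zero_iff.2 hz
  have hznc : (‖z‖ : ℂ) ≠ 0 := by exact_mod_cast hzn
  have h0 : z + ((0 : ℝ) : ℂ) * v = z := by simp
  have hrad : HasDerivAt (fun t : ℝ => a ‖z + t * v‖)
      (deriv a ‖z‖ * ((z.re * v.re + z.im * v.im) / ‖z‖)) 0 := by
    have h1 : HasDerivAt a (deriv a ‖z + ((0 : ℝ) : ℂ) * v‖) ‖z + ((0 : ℝ) : ℂ) * v‖ :=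
      (ha _).hasDerivAt
    have h2 := h1.comp (0 : ℝ) hn
    rw [h0] at h2
    exact h2
  have hlin : HasDerivAt (fun t : ℝ => z + t * v) v 0 := by
    have h1 : HasDerivAt (fun t : ℝ => (t : ℂ)) 1 0 :=
      (Complex.ofRealCLM.hasDerivAt (x := (0 : ℝ))).congr_deriv (by simp)
    exact ((h1.mul_const v).const_add z).congr_deriv (by simp)
  have hnc : HasDerivAt (fun t : ℝ => ((‖z + t * v‖ : ℝ) : ℂ))
      (((z.re * v.re + z.im * v.im) / ‖z‖ : ℝ) : ℂ) 0 := hn.ofReal_comp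
  have hdiv : HasDerivAt (fun t : ℝ => (z + t * v) / ((‖z + t * v‖ : ℝ) : ℂ))
      ((z / (‖z‖ : ℂ)) * (Complex.I * (((z.re * v.im - z.im * v.re) / ‖z‖ ^ 2 : ℝ) : ℂ))) 0 := by
    have h1 := hlin.fun_div hnc (by rw [h0]; exact hznc)
    refine h1.congr_deriv ?_
    rw [h0]
    have hsq : ((‖z‖ : ℝ) : ℂ) ^ 2 = z * (starRingEnd ℂ) z := by
      rw [Complex.mul_conj, Complex.normSq_eq_norm_sq]
      push_cast
      ring
    have e1 : ((z.re * v.re + z.im * v.im : ℝ) : ℂ) + Complex.I * ((z.re * v.im - z.im * v.re : ℝ) : ℂ)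
        = (starRingEnd ℂ) z * v := by
      apply Complex.ext <;> simp <;> ring
    have hz2 : z ≠ 0 := hz
    push_cast at e1 ⊢
    field_simp
    have e2 : z * (Complex.I * (z.re * v.im - z.im * v.re)) + z * (z.re * v.re + z.im * v.im) =
        ((‖z‖ : ℝ) : ℂ) ^ 2 * v := by
      rw [hsq, mul_assoc, ← e1]
      ring
    linear_combination -e2
  have hpow : HasDerivAt (fun t : ℝ => ((z + t * v) / ((‖z + t * v‖ : ℝ) : ℂ)) ^ k)
      ((k : ℂ) * (z / (‖z‖ : ℂ)) ^ k *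
        (Complex.I * (((z.re * v.im - z.im * v.re) / ‖z‖ ^ 2 : ℝ) : ℂ))) 0 := by
    have h1 := hdiv.fun_pow k
    refine h1.congr_deriv ?_
    rw [h0]
    rcases Nat.eq_zero_or_pos k with hk | hk
    · subst hk
      simp
    · have : (z / (‖z‖ : ℂ)) ^ k = (z / (‖z‖ : ℂ)) ^ (k - 1) * (z / (‖z‖ : ℂ)) := by
        rw [← pow_succ]
        congr 1
        omega
      rw [this]
      ring
  have htp : HasDerivAt (fun t : ℝ => b4tp k b ((z + t * v) / ((‖z + t * v‖ : ℝ) : ℂ)))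
      (b4dtp k b (z / (‖z‖ : ℂ)) * ((z.re * v.im - z.im * v.re) / ‖z‖ ^ 2)) 0 := by
    unfold b4tp b4dtp
    cases b
    · have h1 := Complex.imCLM.hasFDerivAt.comp_hasDerivAt (0 : ℝ) hpow
      refine h1.congr_deriv ?_
      simp only [Bool.false_eq_true, if_false, Complex.imCLM_apply, Complex.mul_im, Complex.mul_re, Complex.I_re, Complex.I_im,
        Complex.ofReal_re, Complex.ofReal_im, Complex.natCast_re, Complex.natCast_im]
      ring
    · have h1 := Complex.reCLM.hasFDerivAt.comp_hasDerivAt (0 : ℝ) hpow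
      refine h1.congr_deriv ?_
      simp only [if_true, Complex.reCLM_apply, Complex.mul_im, Complex.mul_re, Complex.I_re, Complex.I_im,
        Complex.ofReal_re, Complex.ofReal_im, Complex.natCast_re, Complex.natCast_im]
      ring
  have h9 := hrad.fun_mul htp
  refine h9.congr_deriv ?_
  rw [h0]

theorem b4_smoothAt (a : ℝ → ℝ) (ha : ContDiff ℝ ∞ a) (k : ℕ) (b : Bool) (z : ℂ) (hz : z ≠ 0) :
    ContDiffAt ℝ ∞ (b4f a k b) z := by
  have h1 : ContDiffAt ℝ ∞ (fun z : ℂ => ‖z‖) z := contDiffAt_norm ℝ hz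
  have h2 : ContDiffAt ℝ ∞ (fun z : ℂ => a ‖z‖) z := ha.contDiffAt.comp z h1
  have h3 : ContDiffAt ℝ ∞ (fun z : ℂ => z / (‖z‖ : ℂ)) z := by
    have h4 : ContDiffAt ℝ ∞ (fun z : ℂ => (‖z‖⁻¹ : ℝ) • z) z :=
      (h1.inv (norm_ne_zero_iff.2 hz)).smul contDiffAt_id
    refine h4.congr_of_eventuallyEq (Filter.Eventually.of_forall fun w => ?_)
    simp only
    rw [Complex.real_smul]
    push_cast
    rw [div_eq_mul_inv, mul_comm]
  have h5 : ContDiff ℝ ∞ (b4tp k b) := by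
    unfold b4tp
    cases b
    · exact Complex.imCLM.contDiff.comp (contDiff_id.pow k)
    · exact Complex.reCLM.contDiff.comp (contDiff_id.pow k)
  exact h2.mul (h5.contDiffAt.comp z h3)

/-- a function vanishing near the origin -/
theorem b4_zero_near (a : ℝ → ℝ) (δ : ℝ) (hδ : 0 < δ) (ha0 : ∀ r, r ≤ δ → a r = 0) (k : ℕ)
    (b : Bool) : b4f a k b =ᶠ[nhds 0] fun _ => 0 := by
  have h1 : ∀ᶠ z : ℂ in nhds 0, ‖z‖ < δ := by
    have := Metric.ball_mem_nhds (0 : ℂ) hδ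
    filter_upwards [this] with z hz
    simpa using hz
  filter_upwards [h1] with z hz
  unfold b4f
  rw [ha0 _ hz.le, zero_mul]

theorem b4_smooth (a : ℝ → ℝ) (ha : ContDiff ℝ ∞ a) (δ : ℝ) (hδ : 0 < δ)
    (ha0 : ∀ r, r ≤ δ → a r = 0) (k : ℕ) (b : Bool) : ContDiff ℝ ∞ (b4f a k b) := by
  rw [contDiff_iff_contDiffAt]
  intro z
  by_cases hz : z = 0
  · subst hz
    exact contDiffAt_const.congr_of_eventuallyEq (b4_zero_near a δ hδ ha0 k b)
  · exact b4_smoothAt a ha k b z hz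

theorem b4_fderiv (a : ℝ → ℝ) (ha : ContDiff ℝ ∞ a) (k : ℕ) (b : Bool) (z v : ℂ) (hz : z ≠ 0) :
    fderiv ℝ (b4f a k b) z v =
      deriv a ‖z‖ * ((z.re * v.re + z.im * v.im) / ‖z‖) * b4tp k b (z / (‖z‖ : ℂ)) +
        a ‖z‖ * (b4dtp k b (z / (‖z‖ : ℂ)) * ((z.re * v.im - z.im * v.re) / ‖z‖ ^ 2)) := by
  have h1 := b4_line a (ha.differentiable (by simp)) k b z v hz
  have h2 : HasFDerivAt (b4f a k b) (fderiv ℝ (b4f a k b) z) (z + ((0 : ℝ) : ℂ) * v) := by
    have : z + ((0 : ℝ) : ℂ) * v = z := by simp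
    rw [this]
    exact ((b4_smoothAt a ha k b z hz).differentiableAt (by simp)).hasFDerivAt
  have hlin : HasDerivAt (fun t : ℝ => z + t * v) v 0 := by
    have h1 : HasDerivAt (fun t : ℝ => (t : ℂ)) 1 0 :=
      (Complex.ofRealCLM.hasDerivAt (x := (0 : ℝ))).congr_deriv (by simp)
    exact ((h1.mul_const v).const_add z).congr_deriv (by simp)
  have h3 : HasDerivAt (fun t : ℝ => b4f a k b (z + t * v)) (fderiv ℝ (b4f a k b) z v) 0 :=
    HasFDerivAt.comp_hasDerivAt (l := b4f a k b) (f := fun t : ℝ => z + t * v) (0 : ℝ) h2 hlin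
  exact h3.unique h1

/-- the scalar product of two gradients -/
theorem b4_grad (a a2 : ℝ → ℝ) (ha : ContDiff ℝ ∞ a) (ha2 : ContDiff ℝ ∞ a2) (δ : ℝ) (hδ : 0 < δ)
    (ha0 : ∀ r, r ≤ δ → a r = 0) (k k2 : ℕ) (b b2 : Bool) (z : ℂ) :
    fderiv ℝ (b4f a k b) z 1 * fderiv ℝ (b4f a2 k2 b2) z 1 +
      fderiv ℝ (b4f a k b) z Complex.I * fderiv ℝ (b4f a2 k2 b2) z Complex.I =
      deriv a ‖z‖ * deriv a2 ‖z‖ * (b4tp k b (z / (‖z‖ : ℂ)) * b4tp k2 b2 (z / (‖z‖ : ℂ))) +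
      a ‖z‖ * a2 ‖z‖ / ‖z‖ ^ 2 * (b4dtp k b (z / (‖z‖ : ℂ)) * b4dtp k2 b2 (z / (‖z‖ : ℂ))) := by
  by_cases hz : z = 0
  · subst hz
    have h1 : fderiv ℝ (b4f a k b) 0 = 0 := by
      rw [(b4_zero_near a δ hδ ha0 k b).fderiv_eq]
      simp
    have h2 : a =ᶠ[nhds 0] fun _ => 0 := by
      filter_upwards [Iio_mem_nhds hδ] with r hr using ha0 r (le_of_lt hr)
    have h3 : deriv a 0 = 0 := by
      rw [h2.deriv_eq]
      simp
    rw [h1]
    simp [h3, ha0 0 hδ.le]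
  · rw [b4_fderiv a ha k b z 1 hz, b4_fderiv a2 ha2 k2 b2 z 1 hz,
      b4_fderiv a ha k b z Complex.I hz, b4_fderiv a2 ha2 k2 b2 z Complex.I hz]
    have hzn : (‖z‖ : ℝ) ≠ 0 := norm_ne_zero_iff.2 hz
    have hsq : z.re ^ 2 + z.im ^ 2 = ‖z‖ ^ 2 := by
      rw [← Complex.normSq_eq_norm_sq, Complex.normSq_apply]
      ring
    simp only [Complex.one_re, Complex.one_im, Complex.I_re, Complex.I_im]
    generalize b4tp k b (z / (‖z‖ : ℂ)) = t1
    generalize b4tp k2 b2 (z / (‖z‖ : ℂ)) = t2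
    generalize b4dtp k b (z / (‖z‖ : ℂ)) = d1
    generalize b4dtp k2 b2 (z / (‖z‖ : ℂ)) = d2
    generalize deriv a ‖z‖ = p1
    generalize deriv a2 ‖z‖ = p2
    generalize a ‖z‖ = q1
    generalize a2 ‖z‖ = q2
    generalize ‖z‖ = R at *
    field_simp
    linear_combination (R ^ 2 * p1 * p2 * t1 * t2 + q1 * q2 * d1 * d2) * hsq

/-- products of a radial and an angular function are integrable -/
theorem b4_intg (g : ℝ → ℝ) (T : ℂ → ℝ) (δ R : ℝ) (hδ : 0 < δ) (hg : ContinuousOn g (Ioi 0))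
    (hg0 : ∀ r, r ≤ δ → g r = 0) (hgR : ∀ r, R ≤ r → g r = 0) (hT : Continuous T) :
    Integrable (fun z : ℂ => g ‖z‖ * T (z / (‖z‖ : ℂ))) := by
  have hcont : Continuous (fun z : ℂ => g ‖z‖ * T (z / (‖z‖ : ℂ))) := by
    rw [continuous_iff_continuousAt]
    intro z
    by_cases hz : z = 0
    · subst hz
      have h1 : (fun z : ℂ => g ‖z‖ * T (z / (‖z‖ : ℂ))) =ᶠ[nhds 0] fun _ => 0 := by
        filter_upwards [Metric.ball_mem_nhds (0 : ℂ) hδ] with z hz
        have : ‖z‖ < δ := by simpa using hz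
        rw [hg0 _ this.le, zero_mul]
      exact (continuousAt_const.congr h1.symm)
    · have hn : 0 < ‖z‖ := norm_pos_iff.2 hz
      have h1 : ContinuousAt (fun z : ℂ => g ‖z‖) z :=
        ContinuousAt.comp (f := fun z : ℂ => ‖z‖) (hg.continuousAt (Ioi_mem_nhds hn))
          continuous_norm.continuousAt
      have h2 : ContinuousAt (fun z : ℂ => z / (‖z‖ : ℂ)) z := by
        refine continuousAt_id.div (Complex.continuous_ofReal.comp continuous_norm).continuousAt ?_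
        simpa using hz
      exact h1.mul (ContinuousAt.comp (f := fun z : ℂ => z / (‖z‖ : ℂ)) hT.continuousAt h2)
  refine hcont.integrable_of_hasCompactSupport ?_
  refine HasCompactSupport.intro (isCompact_closedBall (0 : ℂ) R) fun z hz => ?_
  have h1 : R < ‖z‖ := by simpa using hz
  rw [hgR _ h1.le, zero_mul]

theorem b4_form (a a2 : ℝ → ℝ) (ha : ContDiff ℝ ∞ a) (ha2 : ContDiff ℝ ∞ a2) (δ R : ℝ)
    (hδ : 0 < δ) (ha0 : ∀ r, r ≤ δ → a r = 0) (haR : ∀ r, R ≤ r → a r = 0)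
    (V : ℝ → ℝ) (hV : Continuous V) (k k2 : ℕ) (b b2 : Bool) (hb : k = 0 → b = true) :
    Integrable (fun z : ℂ => fderiv ℝ (b4f a k b) z 1 * fderiv ℝ (b4f a2 k2 b2) z 1 +
        fderiv ℝ (b4f a k b) z Complex.I * fderiv ℝ (b4f a2 k2 b2) z Complex.I +
        V ‖z‖ * (b4f a k b z * b4f a2 k2 b2 z)) ∧
    ∫ z : ℂ, (fderiv ℝ (b4f a k b) z 1 * fderiv ℝ (b4f a2 k2 b2) z 1 +
        fderiv ℝ (b4f a k b) z Complex.I * fderiv ℝ (b4f a2 k2 b2) z Complex.I +
        V ‖z‖ * (b4f a k b z * b4f a2 k2 b2 z)) =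
      if k = k2 ∧ b = b2 then b4w k * ((∫ r in Ioi (0 : ℝ),
        (deriv a r * deriv a2 r + V r * (a r * a2 r)) * r) +
        (k : ℝ) ^ 2 * ∫ r in Ioi (0 : ℝ), a r * a2 r / r) else 0 := by
  have hda : Continuous (deriv a) := ha.continuous_deriv (by simp)
  have hda2 : Continuous (deriv a2) := ha2.continuous_deriv (by simp)
  -- `δ / 2` and `R + 1`: the derivative vanishes too
  have hda0 : ∀ r, r ≤ δ / 2 → deriv a r = 0 := by
    intro r hr
    have h2 : a =ᶠ[nhds r] fun _ => 0 := by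
      filter_upwards [Iio_mem_nhds (show r < δ by linarith)] with s hs using ha0 s (le_of_lt hs)
    rw [h2.deriv_eq]
    simp
  have hdaR : ∀ r, R + 1 ≤ r → deriv a r = 0 := by
    intro r hr
    have h2 : a =ᶠ[nhds r] fun _ => 0 := by
      filter_upwards [Ioi_mem_nhds (show R < r by linarith)] with s hs using haR s (le_of_lt hs)
    rw [h2.deriv_eq]
    simp
  set g1 : ℝ → ℝ := fun r => deriv a r * deriv a2 r + V r * (a r * a2 r) with hg1
  set g2 : ℝ → ℝ := fun r => a r * a2 r / r ^ 2 with hg2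
  set T1 : ℂ → ℝ := fun w => b4tp k b w * b4tp k2 b2 w with hT1
  set T2 : ℂ → ℝ := fun w => b4dtp k b w * b4dtp k2 b2 w with hT2
  have hT1c : Continuous T1 := (b4tp_cont k b).mul (b4tp_cont k2 b2)
  have hT2c : Continuous T2 := (b4dtp_cont k b).mul (b4dtp_cont k2 b2)
  have hi1 : Integrable (fun z : ℂ => g1 ‖z‖ * T1 (z / (‖z‖ : ℂ))) := by
    refine b4_intg g1 T1 (δ / 2) (R + 1) (by linarith) ?_ ?_ ?_ hT1c
    · exact (((hda.mul hda2).add (hV.mul (ha.continuous.mul ha2.continuous)))).continuousOn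
    · intro r hr
      simp only [hg1]
      rw [hda0 r hr, ha0 r (by linarith)]
      simp
    · intro r hr
      simp only [hg1]
      rw [hdaR r hr, haR r (by linarith)]
      simp
  have hi2 : Integrable (fun z : ℂ => g2 ‖z‖ * T2 (z / (‖z‖ : ℂ))) := by
    refine b4_intg g2 T2 δ R hδ ?_ ?_ ?_ hT2c
    · refine ContinuousOn.div (ha.continuous.mul ha2.continuous).continuousOn
        (continuous_pow 2).continuousOn fun r hr => ?_
      have : (0 : ℝ) < r := hr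
      positivity
    · intro r hr
      simp only [hg2]
      rw [ha0 r hr]
      simp
    · intro r hr
      simp only [hg2]
      rw [haR r hr]
      simp
  have hpt : ∀ z : ℂ, fderiv ℝ (b4f a k b) z 1 * fderiv ℝ (b4f a2 k2 b2) z 1 +
        fderiv ℝ (b4f a k b) z Complex.I * fderiv ℝ (b4f a2 k2 b2) z Complex.I +
        V ‖z‖ * (b4f a k b z * b4f a2 k2 b2 z) =
      g1 ‖z‖ * T1 (z / (‖z‖ : ℂ)) + g2 ‖z‖ * T2 (z / (‖z‖ : ℂ)) := by
    intro z
    rw [b4_grad a a2 ha ha2 δ hδ ha0 k k2 b b2 z, b4f_eq, b4f_eq]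
    simp only [hg1, hg2, hT1, hT2]
    ring
  simp_rw [hpt]
  refine ⟨hi1.add hi2, ?_⟩
  rw [integral_add hi1 hi2, b4_polar, b4_polar]
  have e1 : ∫ θ in Ioo (-π) π, T1 (Complex.exp (θ * Complex.I)) =
      if k = k2 ∧ b = b2 then b4w k else 0 := b4_ang k k2 b b2 hb
  have e2 : ∫ θ in Ioo (-π) π, T2 (Complex.exp (θ * Complex.I)) =
      if k = k2 ∧ b = b2 then (k : ℝ) ^ 2 * b4w k else 0 := b4_dang k k2 b b2 hb
  rw [e1, e2]
  have e3 : ∫ r in Ioi (0 : ℝ), g2 r * r = ∫ r in Ioi (0 : ℝ), a r * a2 r / r := by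
    refine setIntegral_congr_fun measurableSet_Ioi fun r hr => ?_
    have : (0 : ℝ) < r := hr
    simp only [hg2]
    field_simp
  rw [e3]
  by_cases h : k = k2 ∧ b = b2
  · rw [if_pos h, if_pos h, if_pos h]
    ring
  · rw [if_neg h, if_neg h, if_neg h]
    ring

/-- the functional on a mode function -/
theorem b4_ell (a : ℝ → ℝ) (ρ : ℝ) (k k2 : ℕ) (b b2 : Bool) (hb : k = 0 → b = true) :
    ∫ z : ℂ, om (‖z‖ - ρ) * trig k b z * b4f a k2 b2 z =
      (∫ r in Ioi (0 : ℝ), om (r - ρ) * a r * r) * if k = k2 ∧ b = b2 then b4w k else 0 := by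
  have hpt : ∀ z : ℂ, om (‖z‖ - ρ) * trig k b z * b4f a k2 b2 z =
      (fun r => om (r - ρ) * a r) ‖z‖ *
        (fun w => b4tp k b w * b4tp k2 b2 w) (z / (‖z‖ : ℂ)) := by
    intro z
    rw [b4f_eq, b4_trig_eq]
    ring
  simp_rw [hpt]
  rw [b4_polar (fun r => om (r - ρ) * a r) (fun w => b4tp k b w * b4tp k2 b2 w)]
  rw [b4_ang k k2 b b2 hb]

/-- the radial integral does not vanish -/
theorem b4_nonzero (μ k : ℕ) (c c' : ℝ) (hc : 0 < c) (hc' : 0 < c') (ρ : ℝ) (hρ : 100 ≤ ρ)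
    (F : ℝ → ℝ) (f : ℝ → ℝ)
    (h9 : c * (ρ ^ 2)⁻¹ * (∫ r in Ioi (0 : ℝ), wgt ρ r * f r ^ 2 * r)
        + c * (∫ r in Ioo 0 (0.96 * ρ), f r ^ 2 * r)
      ≤ (∫ r in Ioi (0 : ℝ), (deriv f r ^ 2 + VV μ F r * f r ^ 2) * r)
        + ρ ^ 2 * (∫ r in Ioi (0 : ℝ), om (r - ρ) * f r * r) ^ 2)
    (h11 : (∫ r in Ioi (0 : ℝ), (deriv f r ^ 2 + VV μ F r * f r ^ 2) * r)
        + k ^ 2 * (∫ r in Ioi (0 : ℝ), f r ^ 2 / r) ≤ -c') :
    ∫ r in Ioi (0 : ℝ), om (r - ρ) * f r * r ≠ 0 := by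
  intro h0
  rw [h0] at h9
  have h1 : 0 ≤ ∫ r in Ioi (0 : ℝ), wgt ρ r * f r ^ 2 * r := by
    refine setIntegral_nonneg measurableSet_Ioi fun r hr => ?_
    have hr' : (0 : ℝ) < r := hr
    have : 0 ≤ wgt ρ r := by
      unfold wgt
      refine le_min zero_le_one ?_
      have : 0 ≤ ρ / r := by
        have : (0 : ℝ) ≤ ρ := by linarith
        positivity
      positivity
    positivity
  have h2 : 0 ≤ ∫ r in Ioo 0 (0.96 * ρ), f r ^ 2 * r := by
    refine setIntegral_nonneg measurableSet_Ioo fun r hr => ?_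
    have hr' : (0 : ℝ) < r := hr.1
    positivity
  have h3 : 0 ≤ ∫ r in Ioi (0 : ℝ), f r ^ 2 / r := by
    refine setIntegral_nonneg measurableSet_Ioi fun r hr => ?_
    have hr' : (0 : ℝ) < r := hr
    positivity
  have h4 : 0 ≤ c * (ρ ^ 2)⁻¹ * (∫ r in Ioi (0 : ℝ), wgt ρ r * f r ^ 2 * r) := by positivity
  have h5 : 0 ≤ c * (∫ r in Ioo 0 (0.96 * ρ), f r ^ 2 * r) := by positivity
  have h6 : 0 ≤ (k : ℝ) ^ 2 * ∫ r in Ioi (0 : ℝ), f r ^ 2 / r := by positivity
  norm_num at h9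
  linarith

/-- scaling by a nonzero real number -/
noncomputable def b4L (l : ℝ) (hl : l ≠ 0) : ℂ ≃L[ℝ] ℂ :=
  ContinuousLinearEquiv.smulLeft (Units.mk0 l hl)

theorem b4_homog_deg (g : ℂ → ℝ) (hg : ContDiffOn ℝ ∞ g {0}ᶜ) (c : ℝ → ℝ)
    (hc : ∀ l : ℝ, 0 < l → l ≤ 1 → ∀ z : ℂ, g ((l : ℂ) * z) = c l * g z) (n : ℕ)
    (hcn : ∀ l : ℝ, 0 < l → l ≤ 1 → l ^ n ≤ c l) :
    ∃ M : ℝ, 0 ≤ M ∧ ∀ z : ℂ, 1 ≤ ‖z‖ → ‖iteratedFDerivWithin ℝ n g {0}ᶜ z‖ ≤ M := by
  have hopen : IsOpen ({0}ᶜ : Set ℂ) := isOpen_compl_singleton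
  have hcont : ContinuousOn (iteratedFDerivWithin ℝ n g {0}ᶜ) {0}ᶜ :=
    hg.continuousOn_iteratedFDerivWithin (by exact_mod_cast le_top) hopen.uniqueDiffOn
  obtain ⟨M, hM⟩ := (isCompact_sphere (0 : ℂ) 1).exists_bound_of_continuousOn
    (hcont.mono (fun z hz => by
      have h1 : ‖z‖ = 1 := by simpa using hz
      intro h0
      rw [Set.mem_singleton_iff] at h0
      rw [h0] at h1
      simp at h1))
  have hM0 : 0 ≤ M := (norm_nonneg _).trans (hM 1 (by simp))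
  refine ⟨M, hM0, fun z hz => ?_⟩
  have hz0 : z ≠ 0 := by
    intro h
    rw [h] at hz
    simp at hz
    linarith
  have hzn : 0 < ‖z‖ := norm_pos_iff.2 hz0
  set l : ℝ := ‖z‖⁻¹ with hl
  have hl0 : 0 < l := by positivity
  have hl1 : l ≤ 1 := inv_le_one_of_one_le₀ hz
  have hcl : 0 < c l := lt_of_lt_of_le (by positivity) (hcn l hl0 hl1)
  set L := b4L l hl0.ne' with hL
  have hLapp : ∀ w : ℂ, L w = (l : ℂ) * w := by
    intro w
    rw [← Complex.real_smul]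
    rfl
  have hpre : L ⁻¹' ({0}ᶜ : Set ℂ) = {0}ᶜ := by
    ext w
    simp only [Set.mem_preimage, Set.mem_compl_iff, Set.mem_singleton_iff, hLapp, mul_eq_zero,
      Complex.ofReal_eq_zero, hl0.ne', false_or]
  have h1 := ContinuousLinearEquiv.iteratedFDerivWithin_comp_right (𝕜 := ℝ) L g
    hopen.uniqueDiffOn (x := z) (by
      have : L z ≠ 0 := by
        rw [hLapp]
        exact mul_ne_zero (by exact_mod_cast hl0.ne') hz0
      simpa using this) n
  rw [hpre] at h1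
  have h2 : g ∘ L = fun w => c l • g w := by
    funext w
    simp only [Function.comp_apply, hLapp, smul_eq_mul]
    exact hc l hl0 hl1 w
  rw [h2] at h1
  have h3 : iteratedFDerivWithin ℝ n (fun w => c l • g w) {0}ᶜ z =
      c l • iteratedFDerivWithin ℝ n g {0}ᶜ z := by
    change iteratedFDerivWithin ℝ n (c l • g) {0}ᶜ z = _
    exact iteratedFDerivWithin_const_smul_apply
      ((hg z hz0).of_le (by exact_mod_cast le_top)) hopen.uniqueDiffOn hz0
  rw [h3] at h1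
  have h4 : ‖(iteratedFDerivWithin ℝ n g {0}ᶜ (L z)).compContinuousLinearMap
      fun _ => (L : ℂ →L[ℝ] ℂ)‖ ≤ M * l ^ n := by
    refine (ContinuousMultilinearMap.norm_compContinuousLinearMap_le _ _).trans ?_
    have h5 : ‖iteratedFDerivWithin ℝ n g {0}ᶜ (L z)‖ ≤ M := by
      refine hM _ ?_
      rw [hLapp]
      simp only [mem_sphere_iff_norm, sub_zero, norm_mul, Complex.norm_real, Real.norm_eq_abs,
        abs_of_pos hl0]
      rw [hl]
      field_simp
    have h6 : ‖(L : ℂ →L[ℝ] ℂ)‖ ≤ l := by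
      refine ContinuousLinearMap.opNorm_le_bound _ hl0.le fun w => ?_
      have : (L : ℂ →L[ℝ] ℂ) w = (l : ℂ) * w := hLapp w
      rw [this, norm_mul, Complex.norm_real, Real.norm_eq_abs, abs_of_pos hl0]
    calc ‖iteratedFDerivWithin ℝ n g {0}ᶜ (L z)‖ * ∏ _i : Fin n, ‖(L : ℂ →L[ℝ] ℂ)‖ ≤
        M * ∏ _i : Fin n, l := by
          refine mul_le_mul h5 (Finset.prod_le_prod (fun _ _ => norm_nonneg _) fun _ _ => h6)
            (Finset.prod_nonneg fun _ _ => norm_nonneg _) hM0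
      _ = M * l ^ n := by simp
  rw [← h1, norm_smul, Real.norm_eq_abs, abs_of_pos hcl] at h4
  have h7 : c l * ‖iteratedFDerivWithin ℝ n g {0}ᶜ z‖ ≤ c l * M := by
    refine h4.trans ?_
    rw [mul_comm (c l)]
    exact mul_le_mul_of_nonneg_left (hcn l hl0 hl1) hM0
  exact le_of_mul_le_mul_left h7 hcl

theorem b4_trig_smoothOn (k : ℕ) (b : Bool) : ContDiffOn ℝ ∞ (trig k b) {0}ᶜ := by
  intro z hz
  have hz' : z ≠ 0 := hz
  have h1 := b4_smoothAt (fun _ => 1) contDiff_const k b z hz'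
  have h2 : b4f (fun _ => 1) k b = trig k b := by
    funext w
    unfold b4f
    rw [one_mul]
  rw [h2] at h1
  exact h1.contDiffWithinAt

theorem b4_norm_smoothOn : ContDiffOn ℝ ∞ (fun z : ℂ => ‖z‖) {0}ᶜ := fun z hz =>
  (contDiffAt_norm ℝ (show z ≠ 0 from hz)).contDiffWithinAt

theorem b4_trig_bound (k : ℕ) (b : Bool) (n : ℕ) :
    ∃ M : ℝ, 0 ≤ M ∧ ∀ z : ℂ, 1 ≤ ‖z‖ → ‖iteratedFDerivWithin ℝ n (trig k b) {0}ᶜ z‖ ≤ M := by
  refine b4_homog_deg (trig k b) (b4_trig_smoothOn k b) (fun _ => 1) ?_ n ?_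
  · intro l hl _ z
    rw [one_mul, b4_trig_eq, b4_trig_eq]
    congr 1
    rw [norm_mul, Complex.norm_real, Real.norm_eq_abs, abs_of_pos hl]
    push_cast
    exact mul_div_mul_left _ _ (by exact_mod_cast hl.ne')
  · intro l hl hl1
    exact pow_le_one₀ hl.le hl1

theorem b4_norm_bound (n : ℕ) (hn : 1 ≤ n) :
    ∃ M : ℝ, 0 ≤ M ∧ ∀ z : ℂ, 1 ≤ ‖z‖ →
      ‖iteratedFDerivWithin ℝ n (fun z : ℂ => ‖z‖) {0}ᶜ z‖ ≤ M := by
  refine b4_homog_deg (fun z : ℂ => ‖z‖) b4_norm_smoothOn (fun l => l) ?_ n ?_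
  · intro l hl _ z
    rw [norm_mul, Complex.norm_real, Real.norm_eq_abs, abs_of_pos hl]
  · intro l hl hl1
    calc l ^ n ≤ l ^ 1 := pow_le_pow_of_le_one hl.le hl1 hn
      _ = l := pow_one l

/-- the derivatives of `b4f a k b` up to order 3 are bounded by a multiple of those of `a` -/
theorem b4_bound (k : ℕ) (b : Bool) : ∃ M : ℝ, 0 ≤ M ∧ ∀ (a : ℝ → ℝ) (C : ℝ), ContDiff ℝ ∞ a →
    (∀ r, r ≤ 2 → a r = 0) → (∀ n ≤ 3, ∀ r, |iteratedDeriv n a r| ≤ C) →
    ∀ n ≤ 3, ∀ z, ‖iteratedFDeriv ℝ n (b4f a k b) z‖ ≤ M * C := by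
  have h1 : ∃ D : ℝ, 1 ≤ D ∧ ∀ i, 1 ≤ i → i ≤ 3 → ∀ z : ℂ, 1 ≤ ‖z‖ →
      ‖iteratedFDerivWithin ℝ i (fun z : ℂ => ‖z‖) {0}ᶜ z‖ ≤ D := by
    obtain ⟨M1, h10, h1⟩ := b4_norm_bound 1 le_rfl
    obtain ⟨M2, h20, h2⟩ := b4_norm_bound 2 (by norm_num)
    obtain ⟨M3, h30, h3⟩ := b4_norm_bound 3 (by norm_num)
    refine ⟨1 + M1 + M2 + M3, by linarith, fun i hi1 hi3 z hz => ?_⟩
    interval_cases i
    · linarith [h1 z hz]
    · linarith [h2 z hz]
    · linarith [h3 z hz]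
  have h2 : ∃ M : ℝ, 0 ≤ M ∧ ∀ i, i ≤ 3 → ∀ z : ℂ, 1 ≤ ‖z‖ →
      ‖iteratedFDerivWithin ℝ i (trig k b) {0}ᶜ z‖ ≤ M := by
    obtain ⟨M0, h00, h0⟩ := b4_trig_bound k b 0
    obtain ⟨M1, h10, h1⟩ := b4_trig_bound k b 1
    obtain ⟨M2, h20, h2⟩ := b4_trig_bound k b 2
    obtain ⟨M3, h30, h3⟩ := b4_trig_bound k b 3
    refine ⟨M0 + M1 + M2 + M3, by linarith, fun i hi3 z hz => ?_⟩
    interval_cases i
    · linarith [h0 z hz]
    · linarith [h1 z hz]
    · linarith [h2 z hz]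
    · linarith [h3 z hz]
  obtain ⟨D, hD1, hD⟩ := h1
  obtain ⟨M, hM0, hM⟩ := h2
  refine ⟨8 * (6 * D ^ 3) * M, by positivity, fun a C ha ha0 haC n hn z => ?_⟩
  have hC : 0 ≤ C := (abs_nonneg _).trans (haC 0 (by norm_num) 0)
  have hopen : IsOpen ({0}ᶜ : Set ℂ) := isOpen_compl_singleton
  by_cases hz : ‖z‖ < 2
  · have h3 : b4f a k b =ᶠ[nhds z] fun _ => 0 := by
      have h4 : ∀ᶠ w : ℂ in nhds z, ‖w‖ < 2 :=
        continuous_norm.continuousAt.eventually_lt continuousAt_const hz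
      filter_upwards [h4] with w hw
      unfold b4f
      rw [ha0 _ hw.le, zero_mul]
    have h4 : iteratedFDeriv ℝ n (b4f a k b) z = 0 := by
      rw [h3.iteratedFDeriv ℝ n |>.eq_of_nhds]
      rcases Nat.eq_zero_or_pos n with hn0 | hn0
      · subst hn0
        ext
        simp
      · have := iteratedFDeriv_const_of_ne (𝕜 := ℝ) (n := n) hn0.ne' (0 : ℝ) (E := ℂ)
        rw [this]
        rfl
    rw [h4, norm_zero]
    positivity
  · push Not at hz
    have hz0 : z ∈ ({0}ᶜ : Set ℂ) := by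
      intro h
      rw [Set.mem_singleton_iff] at h
      rw [h] at hz
      simp at hz
      linarith
    rw [← iteratedFDerivWithin_of_isOpen n hopen hz0]
    have hz1 : 1 ≤ ‖z‖ := by linarith
    have hcomp : ∀ i, i ≤ n →
        ‖iteratedFDerivWithin ℝ i (fun w : ℂ => a ‖w‖) {0}ᶜ z‖ ≤ 6 * C * D ^ 3 := by
      intro i hi
      have h5 := norm_iteratedFDerivWithin_comp_le (𝕜 := ℝ) (g := a) (f := fun w : ℂ => ‖w‖)
        (n := i) (s := {0}ᶜ) (t := univ) (x := z) (N := ∞) ha.contDiffOn b4_norm_smoothOn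
        (by exact_mod_cast le_top) uniqueDiffOn_univ hopen.uniqueDiffOn (mapsTo_univ _ _) hz0
        (C := C) (D := D) (fun j hj => by
          rw [iteratedFDerivWithin_univ, norm_iteratedFDeriv_eq_norm_iteratedDeriv]
          exact haC j (by omega) _)
        (fun j hj1 hj => (hD j hj1 (by omega) z hz1).trans (by
          calc D = D ^ 1 := (pow_one D).symm
            _ ≤ D ^ j := pow_le_pow_right₀ hD1 hj1))
      refine h5.trans ?_
      have h6 : ((Nat.factorial i : ℕ) : ℝ) ≤ 6 := by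
        have : Nat.factorial i ≤ Nat.factorial 3 := Nat.factorial_le (by omega)
        exact_mod_cast this
      have h7 : D ^ i ≤ D ^ 3 := pow_le_pow_right₀ hD1 (by omega)
      gcongr
    have h8 := norm_iteratedFDerivWithin_mul_le (𝕜 := ℝ) (f := fun w : ℂ => a ‖w‖)
      (g := trig k b) (s := {0}ᶜ) (N := ∞) (ha.comp_contDiffOn b4_norm_smoothOn)
      (b4_trig_smoothOn k b) hopen.uniqueDiffOn hz0 (n := n) (by exact_mod_cast le_top)
    have h9 : (fun y : ℂ => a ‖y‖ * trig k b y) = b4f a k b := rfl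
    rw [h9] at h8
    refine h8.trans ?_
    calc ∑ i ∈ Finset.range (n + 1), (n.choose i : ℝ) *
          ‖iteratedFDerivWithin ℝ i (fun w : ℂ => a ‖w‖) {0}ᶜ z‖ *
          ‖iteratedFDerivWithin ℝ (n - i) (trig k b) {0}ᶜ z‖ ≤
        ∑ i ∈ Finset.range (n + 1), (n.choose i : ℝ) * (6 * C * D ^ 3) * M := by
          refine Finset.sum_le_sum fun i hi => ?_
          rw [Finset.mem_range] at hi
          have h10 := hcomp i (by omega)
          have h11 := hM (n - i) (by omega) z hz1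
          gcongr
      _ = 2 ^ n * (6 * C * D ^ 3) * M := by
          rw [← Finset.sum_mul, ← Finset.sum_mul]
          have := Nat.sum_range_choose n
          have h12 : ∑ i ∈ Finset.range (n + 1), (n.choose i : ℝ) = 2 ^ n := by
            exact_mod_cast this
          rw [h12]
      _ ≤ 2 ^ 3 * (6 * C * D ^ 3) * M := by
          have : (2 : ℝ) ^ n ≤ 2 ^ 3 := pow_le_pow_right₀ (by norm_num) hn
          gcongr
      _ = _ := by ring

variable {ι : Type} [Fintype ι] [DecidableEq ι]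

theorem b4_modes_zero (S : Sys ι) (l : ι × ℕ × Bool) (hl : l ∈ modes S) :
    l.2.1 = 0 → l.2.2 = true := by
  unfold modes at hl
  exact (Finset.mem_filter.1 hl).2

theorem b4_modes_le (S : Sys ι) (l : ι × ℕ × Bool) (hl : l ∈ modes S) :
    l.2.1 ≤ Kmax S l.1 := by
  unfold modes at hl
  have h1 := (Finset.mem_filter.1 hl).1
  simp only [Finset.mem_biUnion, Finset.mem_image, Finset.mem_univ, true_and,
    Finset.mem_range] at h1
  obtain ⟨j, k, hk, b, rfl⟩ := h1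
  simp only
  omega

theorem b4_mu_pos (S : Sys ι) (j : ι) : 1 ≤ S.μ j := by
  by_cases h : j = S.o
  · rw [h, S.μ_o]
  · exact (S.one_lt j h).le

theorem b4_kmu_one : kmu 1 = 1 := by
  unfold kmu
  norm_num [harmonic]

theorem b4_neg_lt (S : Sys ι) (i : ι × ℕ × Bool) (hi : i ∈ neg S) :
    (i.2.1 : ℝ) < kmu (S.μ i.1) := by
  unfold neg at hi
  rw [Finset.mem_filter] at hi
  obtain ⟨hm, hn⟩ := hi
  have hk := b4_modes_le S i hm
  unfold Kmax at hk
  by_cases h : i.1 = S.o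
  · rw [if_pos h] at hk
    have h1 : i.2.1 ≠ 1 := fun h2 => hn ⟨h, h2⟩
    have h2 : i.2.1 = 0 := by omega
    rw [h2, h, S.μ_o, b4_kmu_one]
    norm_num
  · rw [if_neg h] at hk
    have h0 : 0 ≤ kmu (S.μ i.1) := by
      unfold kmu
      have : (0 : ℝ) ≤ ((harmonic (2 * S.μ i.1 - 1) : ℚ) : ℝ) := by
        unfold harmonic
        push_cast
        exact Finset.sum_nonneg fun _ _ => by positivity
      positivity
    have h1 : (i.2.1 : ℝ) ≤ kmu (S.μ i.1) := by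
      have h2 := Nat.floor_le h0
      have h3 : (i.2.1 : ℝ) ≤ (⌊kmu (S.μ i.1)⌋₊ : ℝ) := by exact_mod_cast hk
      linarith
    exact lt_of_le_of_ne h1 fun h2 => S.nonres i.1 h i.2.1 h2.symm

/-- relation between the potentials -/
theorem b4_vj (S : Sys ι) (F : ℝ → ℝ) (z : ℂ) (j : ι) :
    vj S (SS F z) j = (S.μ j : ℝ)⁻¹ * VV (S.μ j) F ‖z‖ := by
  unfold vj VV SS yy
  have h1 : (S.μ j : ℝ) ≠ 0 := by
    have := b4_mu_pos S j
    positivity
  have h2 : exp (2 * F (‖z‖ ^ 2)) = exp (F (‖z‖ ^ 2)) * exp (F (‖z‖ ^ 2)) := by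
    rw [← exp_add]
    ring_nf
  rw [h2]
  field_simp

theorem b4_VV_cont (μ : ℕ) (F : ℝ → ℝ) (hF : ContDiff ℝ ∞ F) : Continuous (VV μ F) := by
  unfold VV yy
  have := hF.continuous
  fun_prop

theorem b4_Cf_apply (S : Sys ι) (χ : {i // i ∈ neg S} → ℂ → ℝ) (c : Cc S) (ξ x : ℂ) (j : ι) :
    (Cf S χ c ξ x) j = ∑ i : {i // i ∈ neg S}, if i.1.1 = j then c i * χ i (x - ξ) else 0 := by
  unfold Cf bv
  simp only [WithLp.ofLp_sum, WithLp.ofLp_smul, Finset.sum_apply, Pi.smul_apply,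
    PiLp.ofLp_single, smul_eq_mul, Pi.single_apply, mul_ite, mul_one, mul_zero]
  refine Finset.sum_congr rfl fun i _ => ?_
  by_cases h : i.1.1 = j
  · rw [if_pos h, if_pos h.symm]
  · rw [if_neg h, if_neg fun h' => h h'.symm]

theorem b4_Cf_fderiv (S : Sys ι) (χ : {i // i ∈ neg S} → ℂ → ℝ) (hχ : ∀ i, ContDiff ℝ ∞ (χ i))
    (c : Cc S) (ξ x v : ℂ) (j : ι) :
    (fderiv ℝ (Cf S χ c ξ) x v) j =
      ∑ i : {i // i ∈ neg S}, if i.1.1 = j then c i * fderiv ℝ (χ i) (x - ξ) v else 0 := by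
  have h1 : ∀ i : {i // i ∈ neg S}, HasFDerivAt (fun x : ℂ => (c i * χ i (x - ξ)) • bv i.1.1)
      ((c i • fderiv ℝ (χ i) (x - ξ)).smulRight (bv i.1.1 : Ev ι)) x := by
    intro i
    have h2 : HasFDerivAt (fun x : ℂ => χ i (x - ξ)) (fderiv ℝ (χ i) (x - ξ)) x := by
      have h3 : HasFDerivAt (χ i) (fderiv ℝ (χ i) (x - ξ)) (x - ξ) :=
        (((hχ i).differentiable (by simp)) (x - ξ)).hasFDerivAt
      have h4 : HasFDerivAt (fun x : ℂ => x - ξ) (ContinuousLinearMap.id ℝ ℂ) x :=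
        (hasFDerivAt_id x).sub_const ξ
      exact h3.comp x h4
    exact (h2.const_mul (c i)).smul_const (bv i.1.1 : Ev ι)
  have h5 : HasFDerivAt (Cf S χ c ξ)
      (∑ i : {i // i ∈ neg S}, (c i • fderiv ℝ (χ i) (x - ξ)).smulRight (bv i.1.1 : Ev ι)) x := by
    unfold Cf
    exact HasFDerivAt.fun_sum fun i _ => h1 i
  rw [h5.fderiv]
  unfold bv
  simp only [_root_.sum_apply, ContinuousLinearMap.smulRight_apply,
    _root_.smul_apply, WithLp.ofLp_sum, WithLp.ofLp_smul, Finset.sum_apply,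
    Pi.smul_apply, PiLp.ofLp_single, smul_eq_mul, Pi.single_apply, mul_ite, mul_one,
    mul_zero]
  refine Finset.sum_congr rfl fun i _ => ?_
  by_cases h : i.1.1 = j
  · rw [if_pos h, if_pos h.symm]
  · rw [if_neg h, if_neg fun h' => h h'.symm]

theorem b4_alg {I : Type} [Fintype I] (J : I → ι) (w : ι → ℝ) (u : I → ℝ) :
    ∑ j, w j * (∑ i, if J i = j then u i else 0) ^ 2 =
      ∑ i, ∑ i', if J i = J i' then w (J i) * (u i * u i') else 0 := by
  have h1 : ∀ j, w j * (∑ i, if J i = j then u i else 0) ^ 2 =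
      ∑ i, ∑ i', if J i = j then (if J i' = j then w j * (u i * u i') else 0) else 0 := by
    intro j
    rw [sq, Finset.sum_mul_sum, Finset.mul_sum]
    refine Finset.sum_congr rfl fun i _ => ?_
    rw [Finset.mul_sum]
    refine Finset.sum_congr rfl fun i' _ => ?_
    by_cases h : J i = j <;> by_cases h' : J i' = j <;> simp [h, h']
  simp_rw [h1]
  rw [Finset.sum_comm]
  refine Finset.sum_congr rfl fun i _ => ?_
  rw [Finset.sum_comm]
  refine Finset.sum_congr rfl fun i' _ => ?_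
  rw [Finset.sum_ite_eq Finset.univ (J i)]
  simp only [Finset.mem_univ, if_true]
  by_cases h : J i = J i'
  · rw [if_pos h, if_pos h.symm]
  · rw [if_neg h, if_neg fun h' => h h'.symm]

/-- the pointwise expansion of the form -/
theorem b4_expand (S : Sys ι) (F : ℝ → ℝ) (χ : {i // i ∈ neg S} → ℂ → ℝ)
    (hχ : ∀ i, ContDiff ℝ ∞ (χ i)) (c : Cc S) (ξ x : ℂ) :
    gP S (jet (Cf S χ c ξ) x) + qV S (SS F (x - ξ)) (Cf S χ c ξ x) =
      ∑ i : {i // i ∈ neg S}, ∑ i' : {i // i ∈ neg S}, if i.1.1 = i'.1.1 then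
        (S.μ i.1.1 : ℝ)⁻¹ * (c i * c i') *
          (fderiv ℝ (χ i) (x - ξ) 1 * fderiv ℝ (χ i') (x - ξ) 1 +
            fderiv ℝ (χ i) (x - ξ) Complex.I * fderiv ℝ (χ i') (x - ξ) Complex.I +
            VV (S.μ i.1.1) F ‖x - ξ‖ * (χ i (x - ξ) * χ i' (x - ξ))) else 0 := by
  have h1 : gP S (jet (Cf S χ c ξ) x) =
      ∑ j, (S.μ j : ℝ)⁻¹ * (∑ i : {i // i ∈ neg S},
        if i.1.1 = j then c i * fderiv ℝ (χ i) (x - ξ) 1 else 0) ^ 2 +
      ∑ j, (S.μ j : ℝ)⁻¹ * (∑ i : {i // i ∈ neg S},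
        if i.1.1 = j then c i * fderiv ℝ (χ i) (x - ξ) Complex.I else 0) ^ 2 := by
    unfold gP jet
    rw [← Finset.sum_add_distrib]
    refine Finset.sum_congr rfl fun j _ => ?_
    simp only
    rw [b4_Cf_fderiv S χ hχ, b4_Cf_fderiv S χ hχ]
    ring
  have h2 : qV S (SS F (x - ξ)) (Cf S χ c ξ x) =
      ∑ j, ((S.μ j : ℝ)⁻¹ * VV (S.μ j) F ‖x - ξ‖) * (∑ i : {i // i ∈ neg S},
        if i.1.1 = j then c i * χ i (x - ξ) else 0) ^ 2 := by
    unfold qV
    refine Finset.sum_congr rfl fun j _ => ?_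
    rw [b4_Cf_apply, b4_vj]
  rw [h1, h2, b4_alg (fun i : {i // i ∈ neg S} => i.1.1) (fun j => (S.μ j : ℝ)⁻¹),
    b4_alg (fun i : {i // i ∈ neg S} => i.1.1) (fun j => (S.μ j : ℝ)⁻¹),
    b4_alg (fun i : {i // i ∈ neg S} => i.1.1)
      (fun j => (S.μ j : ℝ)⁻¹ * VV (S.μ j) F ‖x - ξ‖), ← Finset.sum_add_distrib,
    ← Finset.sum_add_distrib]
  refine Finset.sum_congr rfl fun i _ => ?_
  rw [← Finset.sum_add_distrib, ← Finset.sum_add_distrib]
  refine Finset.sum_congr rfl fun i' _ => ?_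
  by_cases h : i.1.1 = i'.1.1
  · simp only [h, if_true]
    ring
  · simp only [h, if_false, add_zero]

theorem b4_ell_eq (S : Sys ι) (ρ : ℝ) (l : ι × ℕ × Bool) (hl : l.2.1 = 0 → l.2.2 = true)
    (a : ℝ → ℝ) (i : ι × ℕ × Bool) (ξ : ℂ) :
    ell ρ l ξ (jet (fun x => b4f a i.2.1 i.2.2 (x - ξ) • (bv i.1 : Ev ι))) =
      (∫ r in Ioi (0 : ℝ), om (r - ρ) * a r * r) * if l = i then b4w l.2.1 else 0 := by
  unfold ell jet
  simp only
  have h1 : ∀ x : ℂ, om (‖x - ξ‖ - ρ) * trig l.2.1 l.2.2 (x - ξ) *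
      ((b4f a i.2.1 i.2.2 (x - ξ) • (bv i.1 : Ev ι)) l.1) =
      (if l.1 = i.1 then (1 : ℝ) else 0) *
        (om (‖x - ξ‖ - ρ) * trig l.2.1 l.2.2 (x - ξ) * b4f a i.2.1 i.2.2 (x - ξ)) := by
    intro x
    unfold bv
    simp only [PiLp.smul_apply, PiLp.single_apply, smul_eq_mul]
    by_cases h : l.1 = i.1
    · simp [h]
    · simp [h]
  simp_rw [h1]
  rw [integral_const_mul, integral_sub_right_eq_self
    (fun z : ℂ => om (‖z‖ - ρ) * trig l.2.1 l.2.2 z * b4f a i.2.1 i.2.2 z) ξ,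
    b4_ell a ρ l.2.1 i.2.1 l.2.2 i.2.2 hl]
  obtain ⟨l1, l2, l3⟩ := l
  obtain ⟨i1, i2, i3⟩ := i
  simp only [Prod.mk.injEq]
  by_cases h : l1 = i1
  · simp [h]
  · simp [h]

end Pool.MP_ad5d82_an.Wl
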