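import Pool.Agent.Lib.MP_ad5d82_an.h24.BDefs

set_option autoImplicit false

namespace Pool.MP_ad5d82_an.Wl

open Real Set MeasureTheory
open scoped ContDiff

variable {ι : Type} [Fintype ι] [DecidableEq ι]

/-! ### BN the structure `NegFam` -/

/-- The properties of the family `χ` of negative mode functions. -/
structure NegFam (S : Sys ι) (c₀ C ρ : ℝ) (F : ℝ → ℝ) (χ : {i // i ∈ neg S} → ℂ → ℝ) : Prop where
  smooth : ∀ i, ContDiff ℝ ∞ (χ i)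
  supp_in : ∀ i z, ‖z‖ ≤ 0.93 * ρ → χ i z = 0
  supp_out : ∀ i z, C * ρ ≤ ‖z‖ → χ i z = 0
  bound : ∀ i, ∀ n ≤ 3, ∀ z, ‖iteratedFDeriv ℝ n (χ i) z‖ ≤ C
  /-- the form is diagonal on the family with entries `≤ -c₀` -/
  form : ∃ q : {i // i ∈ neg S} → ℝ, (∀ i, q i ≤ -c₀) ∧ ∀ (ξ : ℂ) (c : Cc S),
    ∫ x : ℂ, (gP S (jet (Cf S χ c ξ) x) + qV S (SS F (x - ξ)) (Cf S χ c ξ x))
      = ∑ i, q i * c i ^ 2
  /-- the values of the functionals -/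
  ell_diag : ∀ (i : {i // i ∈ neg S}) (ξ : ℂ),
    ell ρ i.1 ξ (jet (fun x => χ i (x - ξ) • bv i.1.1)) ≠ 0
  ell_off : ∀ (i : {i // i ∈ neg S}) (l : ι × ℕ × Bool) (ξ : ℂ), l ∈ modes S → l ≠ i.1 →
    ell ρ l ξ (jet (fun x => χ i (x - ξ) • bv i.1.1)) = 0

end Pool.MP_ad5d82_an.Wl
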