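import Pool.Agent.Lib.MP_ad5d82_an.h24.BDefs
import Pool.Agent.Lib.MP_ad5d82_an.h24.B.BN
import Pool.Agent.Lib.MP_ad5d82_an.h24.B.B4d
import Pool.Agent.Lib.MP_ad5d82_an.h24.W.W9
import Pool.Agent.Lib.MP_ad5d82_an.h24.W.W11

set_option autoImplicit false

namespace Pool.MP_ad5d82_an.Wl

open Real Set MeasureTheory
open scoped ContDiff

variable {ι : Type} [Fintype ι] [DecidableEq ι]

theorem exists_negFam (S : Sys ι) :
    ∃ c₀ > 0, ∃ C : ℝ, 1 ≤ C ∧ ∃ ρ₀ : ℝ, ∀ ρ ε F, Wall ρ ε F → ρ₀ ≤ ρ →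
      ∃ χ : {i // i ∈ neg S} → ℂ → ℝ, NegFam S c₀ C ρ F χ := by
  -- constants
  have h11 : ∀ i : {i // i ∈ neg S}, ∃ c > 0, ∃ C : ℝ, ∃ ρ₀ : ℝ, ∀ ρ ε F, Wall ρ ε F → ρ₀ ≤ ρ →
      ∃ f : ℝ → ℝ, ContDiff ℝ ∞ f ∧
      (∀ r, r ≤ 0.93 * ρ → f r = 0) ∧ (∀ r, C * ρ ≤ r → f r = 0) ∧
      (∀ n ≤ 3, ∀ r, |iteratedDeriv n f r| ≤ C) ∧
      (∫ r in Ioi (0 : ℝ), (deriv f r ^ 2 + VV (S.μ i.1.1) F r * f r ^ 2) * r)
        + (i.1.2.1 : ℝ) ^ 2 * (∫ r in Ioi (0 : ℝ), f r ^ 2 / r) ≤ -c := fun i =>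
    form_low (S.μ i.1.1) (b4_mu_pos S i.1.1) i.1.2.1 (b4_neg_lt S i.1 i.2)
  choose c hc C ρ1 hf using h11
  have h9 : ∀ i : {i // i ∈ neg S}, ∃ c > 0, ∃ ρ₀ : ℝ, ∀ ρ ε F, Wall ρ ε F → ρ₀ ≤ ρ →
      ∀ f : ℝ → ℝ, ContDiff ℝ 1 f →
      HasCompactSupport f → (∀ r, r ≤ 0.92 * ρ → f r = 0) →
      c * (ρ ^ 2)⁻¹ * (∫ r in Ioi (0 : ℝ), wgt ρ r * f r ^ 2 * r)
        + c * (∫ r in Ioo 0 (0.96 * ρ), f r ^ 2 * r)
      ≤ (∫ r in Ioi (0 : ℝ), (deriv f r ^ 2 + VV (S.μ i.1.1) F r * f r ^ 2) * r)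
        + ρ ^ 2 * (∫ r in Ioi (0 : ℝ), om (r - ρ) * f r * r) ^ 2 := fun i =>
    form_penalty (S.μ i.1.1) (b4_mu_pos S i.1.1)
  choose c9 hc9 ρ9 hf9 using h9
  have hb : ∀ i : {i // i ∈ neg S}, ∃ M : ℝ, 0 ≤ M ∧ ∀ (a : ℝ → ℝ) (C : ℝ), ContDiff ℝ ∞ a →
    (∀ r, r ≤ 2 → a r = 0) → (∀ n ≤ 3, ∀ r, |iteratedDeriv n a r| ≤ C) →
    ∀ n ≤ 3, ∀ z, ‖iteratedFDeriv ℝ n (b4f a i.1.2.1 i.1.2.2) z‖ ≤ M * C := fun i =>
    b4_bound i.1.2.1 i.1.2.2
  choose M hM hMb using hb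
  have hmu : ∀ i : {i // i ∈ neg S}, (0 : ℝ) < S.μ i.1.1 := fun i => by
    have := b4_mu_pos S i.1.1
    positivity
  -- `c₀`
  set s0 : ℝ := 1 + ∑ i : {i // i ∈ neg S}, (S.μ i.1.1 : ℝ) / (π * c i) with hs0
  have hs0nn : ∀ i : {i // i ∈ neg S}, 0 ≤ (S.μ i.1.1 : ℝ) / (π * c i) := fun i =>
    div_nonneg (hmu i).le (mul_nonneg pi_pos.le (hc i).le)
  have hs0pos : 0 < s0 := by
    have := Finset.sum_nonneg (s := Finset.univ) fun i _ => hs0nn i
    rw [hs0]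
    linarith
  have hc0 : ∀ i : {i // i ∈ neg S}, s0⁻¹ ≤ (S.μ i.1.1 : ℝ)⁻¹ * (π * c i) := by
    intro i
    have h1 := Finset.single_le_sum (fun i _ => hs0nn i) (Finset.mem_univ i)
    have h2 : (S.μ i.1.1 : ℝ) / (π * c i) ≤ s0 := by
      rw [hs0]
      linarith
    have h3 : 0 < (S.μ i.1.1 : ℝ) / (π * c i) := div_pos (hmu i) (mul_pos pi_pos (hc i))
    have h4 := inv_anti₀ h3 h2
    rwa [inv_div, div_eq_mul_inv, mul_comm] at h4
  -- `C`
  set C0 : ℝ := 1 + ∑ i : {i // i ∈ neg S}, (|C i| + M i * |C i|) with hC0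
  have hC0nn : ∀ i : {i // i ∈ neg S}, 0 ≤ |C i| + M i * |C i| := fun i => by
    have := hM i
    positivity
  have hC0le : ∀ i : {i // i ∈ neg S}, |C i| + M i * |C i| ≤ C0 := by
    intro i
    have h1 := Finset.single_le_sum (fun i _ => hC0nn i) (Finset.mem_univ i)
    rw [hC0]
    linarith
  have hC01 : 1 ≤ C0 := by
    have := Finset.sum_nonneg (s := Finset.univ) fun i _ => hC0nn i
    rw [hC0]
    linarith
  -- `ρ₀`
  set r0 : ℝ := ∑ i : {i // i ∈ neg S}, (|ρ1 i| + |ρ9 i|) with hr0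
  have hr0le : ∀ i : {i // i ∈ neg S}, |ρ1 i| + |ρ9 i| ≤ r0 := fun i =>
    Finset.single_le_sum (f := fun i => |ρ1 i| + |ρ9 i|)
      (fun i _ => add_nonneg (abs_nonneg _) (abs_nonneg _)) (Finset.mem_univ i)
  refine ⟨s0⁻¹, by positivity, C0, hC01, r0, fun ρ ε F hW hρ => ?_⟩
  have hρ100 := hW.hρ
  have hρ1 : ∀ i, ρ1 i ≤ ρ := fun i => by
    have h1 := hr0le i
    have h2 := le_abs_self (ρ1 i)
    have h3 := abs_nonneg (ρ9 i)
    linarith
  have hρ9 : ∀ i, ρ9 i ≤ ρ := fun i => by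
    have h1 := hr0le i
    have h2 := le_abs_self (ρ9 i)
    have h3 := abs_nonneg (ρ1 i)
    linarith
  have hf' := fun i => hf i ρ ε F hW (hρ1 i)
  choose f hfs hf0 hfR hfb hff using hf'
  have hsm : ∀ i : {i // i ∈ neg S}, ContDiff ℝ ∞ (b4f (f i) i.1.2.1 i.1.2.2) := fun i =>
    b4_smooth (f i) (hfs i) (0.93 * ρ) (by linarith) (hf0 i) _ _
  have hzero : ∀ i : {i // i ∈ neg S}, i.1.2.1 = 0 → i.1.2.2 = true := fun i =>
    b4_modes_zero S i.1 (Finset.mem_of_mem_filter _ i.2)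
  have hRR : ∀ i : {i // i ∈ neg S}, ∀ r, C0 * ρ ≤ r → f i r = 0 := by
    intro i r hr
    refine hfR i r (le_trans ?_ hr)
    refine mul_le_mul_of_nonneg_right ?_ (by linarith)
    have h1 := hC0le i
    have h2 := le_abs_self (C i)
    have h3 : 0 ≤ M i * |C i| := mul_nonneg (hM i) (abs_nonneg _)
    linarith
  have hne : ∀ i : {i // i ∈ neg S}, ∫ r in Ioi (0 : ℝ), om (r - ρ) * f i r * r ≠ 0 := by
    intro i
    refine b4_nonzero (S.μ i.1.1) i.1.2.1 (c9 i) (c i) (hc9 i) (hc i) ρ hρ100 F (f i)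
      (hf9 i ρ ε F hW (hρ9 i) (f i) ((hfs i).of_le (by exact_mod_cast le_top)) ?_ ?_) (hff i)
    · refine HasCompactSupport.intro (isCompact_Icc (a := 0) (b := C0 * ρ)) fun r hr => ?_
      rw [Set.mem_Icc, not_and_or] at hr
      rcases hr with h | h
      · push Not at h
        exact hf0 i r (by linarith)
      · push Not at h
        exact hRR i r h.le
    · intro r hr
      exact hf0 i r (by linarith)
  refine ⟨fun i => b4f (f i) i.1.2.1 i.1.2.2, ?_⟩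
  refine { smooth := hsm, supp_in := ?_, supp_out := ?_, bound := ?_, form := ?_,
           ell_diag := ?_, ell_off := ?_ }
  · intro i z hz
    unfold b4f
    rw [hf0 i _ hz, zero_mul]
  · intro i z hz
    unfold b4f
    rw [hRR i _ hz, zero_mul]
  · intro i n hn z
    have hCi : 0 ≤ C i := (abs_nonneg _).trans (hfb i 0 (by norm_num) 0)
    refine (hMb i (f i) (C i) (hfs i) (fun r hr => hf0 i r (by linarith)) (hfb i) n hn z).trans ?_
    have h1 := hC0le i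
    rw [abs_of_nonneg hCi] at h1
    linarith
  · -- the form
    set q : {i // i ∈ neg S} → ℝ := fun i => (S.μ i.1.1 : ℝ)⁻¹ * (b4w i.1.2.1 *
      ((∫ r in Ioi (0 : ℝ), (deriv (f i) r * deriv (f i) r +
        VV (S.μ i.1.1) F r * (f i r * f i r)) * r) +
        (i.1.2.1 : ℝ) ^ 2 * ∫ r in Ioi (0 : ℝ), f i r * f i r / r)) with hq
    refine ⟨q, fun i => ?_, fun ξ cc => ?_⟩
    · have h1 : (∫ r in Ioi (0 : ℝ), (deriv (f i) r * deriv (f i) r +
          VV (S.μ i.1.1) F r * (f i r * f i r)) * r) +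
          (i.1.2.1 : ℝ) ^ 2 * (∫ r in Ioi (0 : ℝ), f i r * f i r / r) ≤ -c i := by
        simpa only [sq] using hff i
      have h2 := b4w_ge i.1.2.1
      have h3 := hc0 i
      have h4 := hc i
      have h5 : 0 < (S.μ i.1.1 : ℝ)⁻¹ := inv_pos.2 (hmu i)
      have h6 : b4w i.1.2.1 * ((∫ r in Ioi (0 : ℝ), (deriv (f i) r * deriv (f i) r +
          VV (S.μ i.1.1) F r * (f i r * f i r)) * r) +
          (i.1.2.1 : ℝ) ^ 2 * (∫ r in Ioi (0 : ℝ), f i r * f i r / r)) ≤ -(π * c i) := by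
        calc _ ≤ b4w i.1.2.1 * (-c i) :=
              mul_le_mul_of_nonneg_left h1 (pi_pos.le.trans h2)
          _ ≤ π * (-c i) := by nlinarith
          _ = _ := by ring
      have h7 := mul_le_mul_of_nonneg_left h6 h5.le
      have h8 : (S.μ i.1.1 : ℝ)⁻¹ * -(π * c i) = -((S.μ i.1.1 : ℝ)⁻¹ * (π * c i)) := by ring
      rw [h8] at h7
      linarith
    · simp_rw [b4_expand S F (fun i => b4f (f i) i.1.2.1 i.1.2.2) hsm cc ξ]
      -- integrals of the terms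
      have hterm : ∀ i i' : {i // i ∈ neg S},
          Integrable (fun x : ℂ => if i.1.1 = i'.1.1 then
            (S.μ i.1.1 : ℝ)⁻¹ * (cc i * cc i') *
              (fderiv ℝ (b4f (f i) i.1.2.1 i.1.2.2) (x - ξ) 1 *
                fderiv ℝ (b4f (f i') i'.1.2.1 i'.1.2.2) (x - ξ) 1 +
              fderiv ℝ (b4f (f i) i.1.2.1 i.1.2.2) (x - ξ) Complex.I *
                fderiv ℝ (b4f (f i') i'.1.2.1 i'.1.2.2) (x - ξ) Complex.I +
              VV (S.μ i.1.1) F ‖x - ξ‖ * (b4f (f i) i.1.2.1 i.1.2.2 (x - ξ) *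
                b4f (f i') i'.1.2.1 i'.1.2.2 (x - ξ))) else 0) ∧
          ∫ x : ℂ, (if i.1.1 = i'.1.1 then
            (S.μ i.1.1 : ℝ)⁻¹ * (cc i * cc i') *
              (fderiv ℝ (b4f (f i) i.1.2.1 i.1.2.2) (x - ξ) 1 *
                fderiv ℝ (b4f (f i') i'.1.2.1 i'.1.2.2) (x - ξ) 1 +
              fderiv ℝ (b4f (f i) i.1.2.1 i.1.2.2) (x - ξ) Complex.I *
                fderiv ℝ (b4f (f i') i'.1.2.1 i'.1.2.2) (x - ξ) Complex.I +
              VV (S.μ i.1.1) F ‖x - ξ‖ * (b4f (f i) i.1.2.1 i.1.2.2 (x - ξ) *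
                b4f (f i') i'.1.2.1 i'.1.2.2 (x - ξ))) else 0) =
            if i' = i then q i * cc i ^ 2 else 0 := by
        intro i i'
        have hbf := b4_form (f i) (f i') (hfs i) (hfs i') (0.93 * ρ) (C0 * ρ) (by linarith)
          (hf0 i) (hRR i) (VV (S.μ i.1.1) F) (b4_VV_cont _ F hW.smooth) i.1.2.1 i'.1.2.1
          i.1.2.2 i'.1.2.2 (hzero i)
        by_cases hj : i.1.1 = i'.1.1
        · simp only [hj, if_true]
          rw [hj] at hbf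
          refine ⟨(hbf.1.comp_sub_right ξ).const_mul _, ?_⟩
          rw [integral_const_mul, integral_sub_right_eq_self
            (fun z : ℂ => fderiv ℝ (b4f (f i) i.1.2.1 i.1.2.2) z 1 *
                fderiv ℝ (b4f (f i') i'.1.2.1 i'.1.2.2) z 1 +
              fderiv ℝ (b4f (f i) i.1.2.1 i.1.2.2) z Complex.I *
                fderiv ℝ (b4f (f i') i'.1.2.1 i'.1.2.2) z Complex.I +
              VV (S.μ i'.1.1) F ‖z‖ * (b4f (f i) i.1.2.1 i.1.2.2 z *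
                b4f (f i') i'.1.2.1 i'.1.2.2 z)) ξ, hbf.2]
          by_cases hii : i' = i
          · subst hii
            simp only [and_self, if_true, hq]
            ring
          · have hne2 : ¬ (i.1.2.1 = i'.1.2.1 ∧ i.1.2.2 = i'.1.2.2) := by
              rintro ⟨h1, h2⟩
              exact hii (Subtype.ext (Prod.ext hj (Prod.ext h1 h2))).symm
            rw [if_neg hne2, if_neg hii, mul_zero]
        · simp only [hj, if_false]
          refine ⟨integrable_zero _ _ _, ?_⟩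
          have hii : i' ≠ i := fun h => hj (by rw [h])
          rw [if_neg hii]
          simp
      rw [integral_finset_sum _ fun i _ => integrable_finset_sum _ fun i' _ => (hterm i i').1]
      refine Finset.sum_congr rfl fun i _ => ?_
      rw [integral_finset_sum _ fun i' _ => (hterm i i').1,
        Finset.sum_congr rfl fun i' _ => (hterm i i').2]
      simp
  · intro i ξ
    have h1 := b4_ell_eq S ρ i.1 (hzero i) (f i) i.1 ξ
    simp only [if_true] at h1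
    rw [h1]
    refine mul_ne_zero (hne i) ?_
    have := b4w_ge i.1.2.1
    have := pi_pos
    linarith
  · intro i l ξ hl hli
    have h1 := b4_ell_eq S ρ l (b4_modes_zero S l hl) (f i) i.1 ξ
    rw [h1, if_neg hli, mul_zero]

end Pool.MP_ad5d82_an.Wl
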